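import Mathlib

/-! Basic calculus helpers and a smooth cut-off for the thin-film contact line problem. -/

namespace Pool.Agent.TF

open Set MeasureTheory Filter Topology

theorem le_of_deriv_nonneg {G G' : ℝ → ℝ} {a b : ℝ} (hab : a ≤ b)
    (hc : ContinuousOn G (Icc a b)) (hd : ∀ x ∈ Ioo a b, HasDerivAt G (G' x) x)
    (hp : ∀ x ∈ Ioo a b, 0 ≤ G' x) : G a ≤ G b := by
  have hm : MonotoneOn G (Icc a b) := by
    apply monotoneOn_of_deriv_nonneg (convex_Icc a b) hc
    · intro x hx
      rw [interior_Icc] at hx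
      exact (hd x hx).differentiableAt.differentiableWithinAt
    · intro x hx
      rw [interior_Icc] at hx
      rw [(hd x hx).deriv]
      exact hp x hx
  exact hm (left_mem_Icc.2 hab) (right_mem_Icc.2 hab) hab

theorem ge_of_deriv_nonpos {G G' : ℝ → ℝ} {a b : ℝ} (hab : a ≤ b)
    (hc : ContinuousOn G (Icc a b)) (hd : ∀ x ∈ Ioo a b, HasDerivAt G (G' x) x)
    (hp : ∀ x ∈ Ioo a b, G' x ≤ 0) : G b ≤ G a := by
  have := le_of_deriv_nonneg (G := fun x => -G x) (G' := fun x => -G' x) hab hc.neg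
    (fun x hx => (hd x hx).neg) (fun x hx => by linarith [hp x hx])
  linarith

theorem le_of_deriv_nonneg' {G G' : ℝ → ℝ} {a b : ℝ} (hab : a ≤ b)
    (hd : ∀ x ∈ Icc a b, HasDerivAt G (G' x) x)
    (hp : ∀ x ∈ Ioo a b, 0 ≤ G' x) : G a ≤ G b :=
  le_of_deriv_nonneg hab (fun x hx => (hd x hx).continuousAt.continuousWithinAt)
    (fun x hx => hd x (Ioo_subset_Icc_self hx)) hp

theorem ge_of_deriv_nonpos' {G G' : ℝ → ℝ} {a b : ℝ} (hab : a ≤ b)
    (hd : ∀ x ∈ Icc a b, HasDerivAt G (G' x) x)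
    (hp : ∀ x ∈ Ioo a b, G' x ≤ 0) : G b ≤ G a :=
  ge_of_deriv_nonpos hab (fun x hx => (hd x hx).continuousAt.continuousWithinAt)
    (fun x hx => hd x (Ioo_subset_Icc_self hx)) hp

/-- A twice continuously differentiable monotone transition from `0` to `1` on `[0,1]`. -/
structure Cut where
  S : ℝ → ℝ
  S1 : ℝ → ℝ
  S2 : ℝ → ℝ
  C : ℝ
  d0 : ∀ x, HasDerivAt S (S1 x) x
  d1 : ∀ x, HasDerivAt S1 (S2 x) x
  c2 : Continuous S2
  zero : ∀ x, x ≤ 0 → S x = 0
  one : ∀ x, 1 ≤ x → S x = 1
  nn : ∀ x, 0 ≤ S x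
  le1 : ∀ x, S x ≤ 1
  s1nn : ∀ x, 0 ≤ S1 x
  s1z : ∀ x, x ≤ 0 ∨ 1 ≤ x → S1 x = 0
  s2z : ∀ x, x ≤ 0 ∨ 1 ≤ x → S2 x = 0
  b1 : ∀ x, S1 x ≤ C
  b2 : ∀ x, |S2 x| ≤ C
  C1 : 1 ≤ C

theorem Cut.c0 (c : Cut) : Continuous c.S :=
  continuous_iff_continuousAt.2 fun x => (c.d0 x).continuousAt

theorem Cut.c1 (c : Cut) : Continuous c.S1 :=
  continuous_iff_continuousAt.2 fun x => (c.d1 x).continuousAt

theorem zero_of_cont_left {g : ℝ → ℝ} (hg : Continuous g) {a : ℝ} (h : ∀ x < a, g x = 0) :
    ∀ x ≤ a, g x = 0 := by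
  have hcl : IsClosed {x | g x = 0} := isClosed_eq hg continuous_const
  have : closure (Iio a) ⊆ {x | g x = 0} := hcl.closure_subset_iff.2 h
  rw [closure_Iio] at this
  exact fun x hx => this hx

theorem zero_of_cont_right {g : ℝ → ℝ} (hg : Continuous g) {a : ℝ} (h : ∀ x, a < x → g x = 0) :
    ∀ x, a ≤ x → g x = 0 := by
  have hcl : IsClosed {x | g x = 0} := isClosed_eq hg continuous_const
  have : closure (Ioi a) ⊆ {x | g x = 0} := hcl.closure_subset_iff.2 h
  rw [closure_Ioi] at this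
  exact fun x hx => this hx

theorem deriv_zero_of_const_left {g : ℝ → ℝ} {a c : ℝ} (h : ∀ x < a, g x = c) :
    ∀ x < a, deriv g x = 0 := by
  intro x hx
  have : g =ᶠ[𝓝 x] fun _ => c := by
    filter_upwards [Iio_mem_nhds hx] with y hy using h y hy
  rw [this.deriv_eq]; simp

theorem deriv_zero_of_const_right {g : ℝ → ℝ} {a c : ℝ} (h : ∀ x, a < x → g x = c) :
    ∀ x, a < x → deriv g x = 0 := by
  intro x hx
  have : g =ᶠ[𝓝 x] fun _ => c := by
    filter_upwards [Ioi_mem_nhds hx] with y hy using h y hy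
  rw [this.deriv_eq]; simp

theorem exists_bound_of_zero_outside {g : ℝ → ℝ} (hg : Continuous g)
    (h : ∀ x, x ≤ 0 ∨ 1 ≤ x → g x = 0) : ∃ C, ∀ x, |g x| ≤ C := by
  obtain ⟨C, hC⟩ := (isCompact_Icc (a := (0:ℝ)) (b := 1)).exists_bound_of_continuousOn
    hg.continuousOn
  refine ⟨max C 0, fun x => ?_⟩
  by_cases hx : x ∈ Icc (0:ℝ) 1
  · exact (hC x hx).trans (le_max_left _ _)
  · have : x ≤ 0 ∨ 1 ≤ x := by
      rw [mem_Icc, not_and_or] at hx
      rcases hx with hx | hx
      · left; linarith [not_le.1 hx]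
      · right; linarith [not_le.1 hx]
    rw [h x this]; simp

theorem exists_cut : Nonempty Cut := by
  have h3 : ContDiff ℝ 2 Real.smoothTransition := Real.smoothTransition.contDiff
  have h2 : ContDiff ℝ 1 (deriv Real.smoothTransition) := by
    have : ContDiff ℝ (1 + 1) Real.smoothTransition := by
      rw [one_add_one_eq_two]; exact h3
    exact this.deriv'
  have hc2 : Continuous (deriv (deriv Real.smoothTransition)) :=
    h2.continuous_deriv le_rfl
  have hc1 : Continuous (deriv Real.smoothTransition) := h2.continuous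
  have z1l : ∀ x < (0:ℝ), deriv Real.smoothTransition x = 0 :=
    deriv_zero_of_const_left (c := 0) fun x hx => Real.smoothTransition.zero_of_nonpos hx.le
  have z1r : ∀ x, (1:ℝ) < x → deriv Real.smoothTransition x = 0 :=
    deriv_zero_of_const_right (c := 1) fun x hx => Real.smoothTransition.one_of_one_le hx.le
  have z1 : ∀ x : ℝ, x ≤ 0 ∨ 1 ≤ x → deriv Real.smoothTransition x = 0 := by
    rintro x (hx | hx)
    · exact zero_of_cont_left hc1 z1l x hx
    · exact zero_of_cont_right hc1 z1r x hx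
  have z2 : ∀ x : ℝ, x ≤ 0 ∨ 1 ≤ x → deriv (deriv Real.smoothTransition) x = 0 := by
    rintro x (hx | hx)
    · exact zero_of_cont_left hc2 (deriv_zero_of_const_left z1l) x hx
    · exact zero_of_cont_right hc2 (deriv_zero_of_const_right z1r) x hx
  obtain ⟨C1, hC1⟩ := exists_bound_of_zero_outside hc1 z1
  obtain ⟨C2, hC2⟩ := exists_bound_of_zero_outside hc2 z2
  refine ⟨⟨Real.smoothTransition, deriv Real.smoothTransition,
    deriv (deriv Real.smoothTransition), max 1 (max C1 C2), ?_, ?_, hc2, ?_, ?_,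
    Real.smoothTransition.nonneg, Real.smoothTransition.le_one, ?_, z1, z2, ?_, ?_,
    le_max_left _ _⟩⟩
  · intro x
    exact ((h3.differentiable (by norm_num)) x).hasDerivAt
  · intro x
    exact ((h2.differentiable (by norm_num)) x).hasDerivAt
  · exact fun x hx => Real.smoothTransition.zero_of_nonpos hx
  · exact fun x hx => Real.smoothTransition.one_of_one_le hx
  · exact fun x => Real.smoothTransition.monotone.deriv_nonneg
  · intro x
    exact (le_abs_self _).trans ((hC1 x).trans ((le_max_left _ _).trans (le_max_right _ _)))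
  · intro x
    exact (hC2 x).trans ((le_max_right _ _).trans (le_max_right _ _))

/-- Differentiation under the integral sign for jointly continuous data. -/
theorem hasDerivAt_param {G G' : ℝ → ℝ → ℝ} (hG : Continuous (Function.uncurry G))
    (hG' : Continuous (Function.uncurry G')) {a b t0 : ℝ} {U : Set ℝ} (hU : U ∈ 𝓝 t0)
    (hd : ∀ x ∈ uIoc a b, ∀ t ∈ U, HasDerivAt (G x) (G' x t) t) :
    HasDerivAt (fun t => ∫ x in a..b, G x t) (∫ x in a..b, G' x t0) t0 := by
  have hK : IsCompact (uIcc a b ×ˢ Icc (t0 - 1) (t0 + 1)) := isCompact_uIcc.prod isCompact_Icc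
  obtain ⟨C, hC⟩ := hK.exists_bound_of_continuousOn hG'.continuousOn
  have hs : U ∩ Icc (t0 - 1) (t0 + 1) ∈ 𝓝 t0 :=
    inter_mem hU (Icc_mem_nhds (by linarith) (by linarith))
  have h1 : ∀ t, Continuous fun x => G x t := fun t =>
    hG.comp (continuous_id.prodMk continuous_const)
  have h2 : ∀ t, Continuous fun x => G' x t := fun t =>
    hG'.comp (continuous_id.prodMk continuous_const)
  refine (intervalIntegral.hasDerivAt_integral_of_dominated_loc_of_deriv_le
    (F := fun t x => G x t) (F' := fun t x => G' x t) (bound := fun _ => C) hs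
    (Eventually.of_forall fun t => (h1 t).aestronglyMeasurable) ((h1 t0).intervalIntegrable _ _)
    (h2 t0).aestronglyMeasurable ?_ (intervalIntegrable_const) ?_).2
  · refine Eventually.of_forall fun x hx t ht => ?_
    exact hC (x, t) ⟨uIoc_subset_uIcc hx, ht.2⟩
  · exact Eventually.of_forall fun x hx t ht => hd x hx t ht.1

/-- Integrating a one-sided derivative bound valid for almost every time. -/
theorem sub_le_integral_ae {g B : ℝ → ℝ} {a b : ℝ} (hab : a ≤ b) {Good : ℝ → Prop}
    (hd : ∀ t ∈ Icc a b, ∃ g', HasDerivAt g g' t ∧ (Good t → g' ≤ B t))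
    (hae : ∀ᵐ t ∂(volume.restrict (Icc a b)), Good t) (hB : IntegrableOn B (Icc a b)) :
    g b - g a ≤ ∫ t in Icc a b, B t := by
  classical
  choose! g' hg' using hd
  let φ : ℝ → ℝ := fun t => if Good t then B t else g' t
  have hφ : φ =ᵐ[volume.restrict (Icc a b)] B := by
    filter_upwards [hae] with t ht
    simp [φ, ht]
  have hφi : IntegrableOn φ (Icc a b) := hB.congr hφ.symm
  have := intervalIntegral.sub_le_integral_of_hasDeriv_right_of_le (g := g) (g' := g') (φ := φ) hab
    (fun t ht => (hg' t ht).1.continuousAt.continuousWithinAt)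
    (fun t ht => (hg' t (Ioo_subset_Icc_self ht)).1.hasDerivWithinAt) hφi ?_
  · rw [intervalIntegral.integral_of_le hab, ← integral_Icc_eq_integral_Ioc] at this
    rw [← integral_congr_ae hφ]
    exact this
  · intro t ht
    by_cases hg : Good t
    · simp only [φ, hg, if_true]; exact (hg' t (Ioo_subset_Icc_self ht)).2 hg
    · simp [φ, hg]

end Pool.Agent.TF
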