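import Pool.Agent.P.MP_e83d7b_an.Slice

/-! The space-time setting, compactness facts and the dissipation. -/

namespace Pool.Agent.TF

open Set MeasureTheory Filter Topology

/-- the wetted strip -/
def Dom (δ T : ℝ) (s : ℝ → ℝ) : Set (ℝ × ℝ) :=
  {p | p.2 ∈ Ioo 0 T ∧ s p.2 < p.1 ∧ p.1 < s p.2 + δ}

structure Sol (n δ T : ℝ) (s : ℝ → ℝ) (h h1 h2 h3 k : ℝ → ℝ → ℝ) : Prop where
  hn : 3 ≤ n
  hδ : 0 < δ
  cs : ContinuousOn s (Ioo 0 T)
  ch : ContinuousOn (fun p : ℝ × ℝ => h p.1 p.2) (closure (Dom δ T s))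
  pos : ∀ p ∈ Dom δ T s, 0 < h p.1 p.2
  bd : ∀ t ∈ Ioo 0 T, h (s t) t = 0
  d0 : ∀ p ∈ Dom δ T s, HasDerivAt (fun y => h y p.2) (h1 p.1 p.2) p.1
  d1 : ∀ p ∈ Dom δ T s, HasDerivAt (fun y => h1 y p.2) (h2 p.1 p.2) p.1
  d2 : ∀ p ∈ Dom δ T s, HasDerivAt (fun y => h2 y p.2) (h3 p.1 p.2) p.1
  c1 : ContinuousOn (fun p : ℝ × ℝ => h1 p.1 p.2) (Dom δ T s)
  c2 : ContinuousOn (fun p : ℝ × ℝ => h2 p.1 p.2) (Dom δ T s)
  c3 : ContinuousOn (fun p : ℝ × ℝ => h3 p.1 p.2) (Dom δ T s)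
  ck : ContinuousOn (fun p : ℝ × ℝ => k p.1 p.2) (Dom δ T s)
  dt : ∀ p ∈ Dom δ T s, HasDerivAt (h p.1) (k p.1 p.2) p.2
  eq : ∀ p ∈ Dom δ T s, HasDerivAt (fun y => h y p.2 ^ n * h3 y p.2) (-k p.1 p.2) p.1
  fin : ∫⁻ p in Dom δ T s, ENNReal.ofReal (h p.1 p.2 ^ n * h3 p.1 p.2 ^ 2) < ⊤

/-- a short time interval with a fixed vertical line inside the strip -/
structure Win (δ T : ℝ) (s : ℝ → ℝ) (ta tb xs : ℝ) : Prop where
  ta0 : 0 < ta
  ab : ta ≤ tb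
  tbT : tb < T
  lo : ∀ t ∈ Icc ta tb, s t + δ / 4 ≤ xs
  hi : ∀ t ∈ Icc ta tb, xs ≤ s t + 3 * δ / 4

variable {n δ T ta tb xs : ℝ} {s : ℝ → ℝ} {h h1 h2 h3 k : ℝ → ℝ → ℝ}

theorem Win.tm (W : Win δ T s ta tb xs) {t : ℝ} (ht : t ∈ Icc ta tb) : t ∈ Ioo 0 T :=
  ⟨W.ta0.trans_le ht.1, ht.2.trans_lt W.tbT⟩

/-- compact region at distance at least `ε` from the contact line -/
def Kc (s : ℝ → ℝ) (ta tb xs ε : ℝ) : Set (ℝ × ℝ) :=
  {p | p.2 ∈ Icc ta tb ∧ s p.2 + ε ≤ p.1 ∧ p.1 ≤ xs}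

namespace Sol

variable (S : Sol n δ T s h h1 h2 h3 k)
include S

theorem openD : IsOpen (Dom δ T s) := by
  have h1 : ContinuousOn (fun p : ℝ × ℝ => p.1 - s p.2) (univ ×ˢ Ioo 0 T) :=
    continuousOn_fst.sub (S.cs.comp continuousOn_snd fun p hp => hp.2)
  have := h1.isOpen_inter_preimage (isOpen_univ.prod isOpen_Ioo) (isOpen_Ioo (a := 0) (b := δ))
  convert this using 1
  ext p
  simp only [Dom, mem_ofPred_eq, mem_inter_iff, mem_prod, mem_univ, true_and, mem_preimage, mem_Ioo]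
  constructor
  · rintro ⟨a, b, c⟩; exact ⟨a, by linarith, by linarith⟩
  · rintro ⟨a, b, c⟩; exact ⟨a, by linarith, by linarith⟩

theorem c0 : ContinuousOn (fun p : ℝ × ℝ => h p.1 p.2) (Dom δ T s) := S.ch.mono subset_closure

theorem cpow (r : ℝ) : ContinuousOn (fun p : ℝ × ℝ => h p.1 p.2 ^ r) (Dom δ T s) :=
  S.c0.rpow_const fun p hp => Or.inl (S.pos p hp).ne'

theorem cF : ContinuousOn (fun p : ℝ × ℝ => h p.1 p.2 ^ n * h3 p.1 p.2) (Dom δ T s) :=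
  (S.cpow n).mul S.c3

theorem cq : ContinuousOn (fun p : ℝ × ℝ => h p.1 p.2 ^ n * h3 p.1 p.2 ^ 2) (Dom δ T s) :=
  (S.cpow n).mul (S.c3.pow 2)

theorem mem_closure {t x : ℝ} (ht : t ∈ Ioo 0 T) (hx : x ∈ Icc (s t) (s t + δ)) :
    (x, t) ∈ closure (Dom δ T s) := by
  have h1 : x ∈ closure (Ioo (s t) (s t + δ)) := by
    rw [closure_Ioo (by linarith [S.hδ])]; exact hx
  exact map_mem_closure (f := fun y : ℝ => (y, t)) (by fun_prop) h1 fun y hy => ⟨ht, hy.1, hy.2⟩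

theorem slice {g : ℝ → ℝ → ℝ} (hg : ContinuousOn (fun p : ℝ × ℝ => g p.1 p.2) (Dom δ T s))
    {t : ℝ} (ht : t ∈ Ioo 0 T) : ContinuousOn (fun x => g x t) (Ioo (s t) (s t + δ)) :=
  hg.comp (f := fun y : ℝ => (y, t)) (by fun_prop) fun y hy => ⟨ht, hy.1, hy.2⟩

theorem slice0 {t : ℝ} (ht : t ∈ Ioo 0 T) :
    ContinuousOn (fun x => h x t) (Icc (s t) (s t + δ)) :=
  S.ch.comp (f := fun y : ℝ => (y, t)) (by fun_prop) fun _ hy => S.mem_closure ht hy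

variable (W : Win δ T s ta tb xs)
include W

theorem cs' : ContinuousOn s (Icc ta tb) := S.cs.mono fun _ ht => W.tm ht

theorem compK (ε : ℝ) (hε : 0 ≤ ε) : IsCompact (Kc s ta tb xs ε) := by
  have h1 : ContinuousOn (fun p : ℝ × ℝ => p.1 - s p.2) (Icc (xs - δ) xs ×ˢ Icc ta tb) :=
    continuousOn_fst.sub ((S.cs' W).comp continuousOn_snd fun p hp => hp.2)
  have hK : IsCompact (Icc (xs - δ) xs ×ˢ Icc ta tb) := isCompact_Icc.prod isCompact_Icc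
  have := hK.of_isClosed_subset (h1.preimage_isClosed_of_isClosed hK.isClosed
    (isClosed_Ici (a := ε))) inter_subset_left
  convert this using 1
  ext p
  simp only [Kc, mem_ofPred_eq, mem_inter_iff, mem_prod, mem_preimage, mem_Ici]
  constructor
  · rintro ⟨a, b, c⟩
    exact ⟨⟨⟨by linarith [W.hi _ a, S.hδ], c⟩, a⟩, by linarith⟩
  · rintro ⟨⟨a, b⟩, c⟩; exact ⟨b, by linarith, a.2⟩

theorem memD {t x : ℝ} (ht : t ∈ Icc ta tb) (hx : x ∈ Ioc (s t) xs) : (x, t) ∈ Dom δ T s :=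
  ⟨W.tm ht, hx.1, by linarith [hx.2, W.hi t ht, S.hδ]⟩

theorem subI {t : ℝ} (ht : t ∈ Icc ta tb) : Ioc (s t) xs ⊆ Ioo (s t) (s t + δ) :=
  fun _ hx => (S.memD W ht hx).2

theorem xsI {t : ℝ} (ht : t ∈ Icc ta tb) : xs ∈ Ioc (s t) xs :=
  ⟨by linarith [W.lo t ht, S.hδ], le_rfl⟩

theorem KD {ε : ℝ} (hε : 0 < ε) : Kc s ta tb xs ε ⊆ Dom δ T s := fun p hp =>
  S.memD W hp.1 ⟨by linarith [hp.2.1], hp.2.2⟩

theorem KC : Kc s ta tb xs 0 ⊆ closure (Dom δ T s) := fun p hp =>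
  S.mem_closure (W.tm hp.1) ⟨by linarith [hp.2.1], by linarith [hp.2.2, W.hi _ hp.1, S.hδ]⟩

theorem slice0' {t : ℝ} (ht : t ∈ Icc ta tb) : ContinuousOn (fun x => h x t) (Icc (s t) xs) :=
  (S.slice0 (W.tm ht)).mono (Icc_subset_Icc_right (by linarith [W.hi t ht, S.hδ]))

theorem nn {t x : ℝ} (ht : t ∈ Icc ta tb) (hx : x ∈ Icc (s t) xs) : 0 ≤ h x t := by
  rcases hx.1.eq_or_lt with h0 | h0
  · rw [← h0, S.bd t (W.tm ht)]
  · exact (S.pos _ (S.memD W ht ⟨h0, hx.2⟩)).le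

theorem bound {g : ℝ → ℝ → ℝ} (hg : ContinuousOn (fun p : ℝ × ℝ => g p.1 p.2) (Dom δ T s))
    {ε : ℝ} (hε : 0 < ε) : ∃ C, 0 ≤ C ∧ ∀ t ∈ Icc ta tb, ∀ x ∈ Icc (s t + ε) xs, |g x t| ≤ C := by
  obtain ⟨C, hC⟩ := (S.compK W ε hε.le).exists_bound_of_continuousOn (hg.mono (S.KD W hε))
  exact ⟨max C 0, le_max_right _ _, fun t ht x hx =>
    (hC (x, t) ⟨ht, hx.1, hx.2⟩).trans (le_max_left _ _)⟩

theorem boundH : ∃ H, 0 < H ∧ ∀ t ∈ Icc ta tb, ∀ x ∈ Icc (s t) xs, h x t ≤ H := by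
  obtain ⟨C, hC⟩ := (S.compK W 0 le_rfl).exists_bound_of_continuousOn (S.ch.mono (S.KC W))
  exact ⟨max C 1, lt_max_of_lt_right one_pos, fun t ht x hx =>
    (le_abs_self _).trans ((hC (x, t) ⟨ht, by simpa using hx.1, hx.2⟩).trans (le_max_left _ _))⟩

theorem low {ε : ℝ} (hε : 0 < ε) :
    ∃ c, 0 < c ∧ ∀ t ∈ Icc ta tb, ∀ x ∈ Icc (s t + ε) xs, c ≤ h x t := by
  obtain ⟨c, hc, h3⟩ := (S.compK W ε hε.le).exists_forall_le' (S.c0.mono (S.KD W hε))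
    (fun p hp => S.pos p (S.KD W hε hp))
  exact ⟨c, hc, fun t ht x hx => h3 (x, t) ⟨ht, hx.1, hx.2⟩⟩

theorem thin {γ : ℝ} (hγ : 0 < γ) :
    ∃ ε, 0 < ε ∧ ∀ t ∈ Icc ta tb, ∀ x ∈ Icc (s t) xs, x ≤ s t + ε → h x t ≤ γ := by
  have hK := S.compK W 0 le_rfl
  have hA : IsCompact (Kc s ta tb xs 0 ∩ (fun p : ℝ × ℝ => h p.1 p.2) ⁻¹' Ici γ) :=
    hK.of_isClosed_subset ((S.ch.mono (S.KC W)).preimage_isClosed_of_isClosed hK.isClosed
      isClosed_Ici) inter_subset_left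
  obtain ⟨c, hc, h3⟩ := hA.exists_forall_le' (f := fun p : ℝ × ℝ => p.1 - s p.2) (a := 0)
    (continuousOn_fst.sub ((S.cs' W).comp continuousOn_snd fun p hp => hp.1.1)) (by
      rintro ⟨x, t⟩ ⟨⟨h4, h5, -⟩, h6⟩
      simp only [add_zero] at h4 h5
      rcases h5.eq_or_lt with h0 | h0
      · have : γ ≤ h x t := h6
        rw [← h0, S.bd t (W.tm h4)] at this
        linarith
      · simpa using h0)
  refine ⟨c / 2, by linarith, fun t ht x hx h4 => ?_⟩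
  by_contra h5
  have := h3 (x, t) ⟨⟨ht, by simpa using hx.1, hx.2⟩, (not_le.1 h5).le⟩
  simp only at this
  linarith

theorem st0 {t : ℝ} (ht : t ∈ Icc ta tb) : St0 n (s t) xs (fun x => h x t) (fun x => h1 x t)
    (fun x => h2 x t) (pl0 n xs fun x => h x t) := by
  refine ⟨S.hn, fun x hx => S.pos _ (S.memD W ht hx), fun x hx => S.d0 _ (S.memD W ht hx),
    fun x hx => S.d1 _ (S.memD W ht hx),
    fun x hx => (S.d2 _ (S.memD W ht hx)).continuousAt, fun x hx => ?_, fun p hp => ?_⟩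
  · exact prim_dx' (S.slice (g := fun x t => h x t ^ (2 - n)) (S.cpow _) (W.tm ht))
      (S.subI W ht (S.xsI W ht)) (S.subI W ht hx)
  · obtain ⟨ε, hε, h4⟩ := S.thin W (half_pos (S.pos _ (S.memD W ht hp)))
    have hp0 := S.pos _ (S.memD W ht hp)
    have h5 : s t < min (s t + ε) ((s t + p) / 2) := lt_min (by linarith) (by linarith [hp.1])
    have h6 : min (s t + ε) ((s t + p) / 2) < p := (min_le_right _ _).trans_lt (by linarith [hp.1])
    refine ⟨_, ⟨h5, h6⟩, ?_⟩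
    have := h4 t ht _ ⟨h5.le, h6.le.trans hp.2⟩ (min_le_left _ _)
    simp only at hp0 this ⊢
    linarith

theorem dl3 {t : ℝ} (ht : t ∈ Icc ta tb) : ∀ x ∈ Ioc (s t) xs,
    HasDerivAt (pl3 xs fun x => h x t) (1 / h x t ^ 3) x := fun _ hx =>
  prim_dx' (S.slice (g := fun x t => 1 / h x t ^ 3) (continuousOn_const.div (S.c0.pow 3)
    fun p hp => (pow_pos (S.pos p hp) 3).ne') (W.tm ht))
      (S.subI W ht (S.xsI W ht)) (S.subI W ht hx)

theorem mkB {t α m : ℝ} (ht : t ∈ Icc ta tb) (hα : α ∈ Ioc (s t) xs) :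
    Bx n α xs (fun x => h (cl α xs x) t) (fun x => h1 (cl α xs x) t)
      (fun x => h (cl α xs x) t ^ n * h3 (cl α xs x) t)
      (fun x => k (cl α xs x) t) (fun x => h (cl α xs x) t ^ (2 - n))
      (pl0 n xs fun x => h (cl α xs x) t) (pl3 xs fun x => h (cl α xs x) t)
      (pL0 n xs (fun x => h (cl α xs x) t) fun x => k (cl α xs x) t)
      (pL3 xs (fun x => h (cl α xs x) t) fun x => k (cl α xs x) t)
      (pM xs m fun x => h (cl α xs x) t) := by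
  have sub : Icc α xs ⊆ Ioc (s t) xs := fun x hx => ⟨hα.1.trans_le hx.1, hx.2⟩
  have sub' := sub.trans (S.subI W ht)
  exact mkBx (h := fun x => h x t) (h1 := fun x => h1 x t) (F := fun x => h x t ^ n * h3 x t)
    (k := fun x => k x t) hα.2 ((S.slice S.c0 (W.tm ht)).mono sub')
    ((S.slice S.c1 (W.tm ht)).mono sub')
    ((S.slice (g := fun x t => h x t ^ n * h3 x t) S.cF (W.tm ht)).mono sub')
    ((S.slice S.ck (W.tm ht)).mono sub') (fun x hx => S.pos _ (S.memD W ht (sub hx)))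
    (fun x hx => S.d0 _ (S.memD W ht (sub (Ioo_subset_Icc_self hx))))
    (fun x hx => S.eq _ (S.memD W ht (sub (Ioo_subset_Icc_self hx))))

theorem box {t ε : ℝ} (ht : t ∈ Ioo ta tb) (hε : 0 < ε) (hε' : ε ≤ δ / 4) :
    ∃ α t1 t2, t ∈ Ioo t1 t2 ∧ Icc t1 t2 ⊆ Icc ta tb ∧ α ≤ xs ∧
      (∀ τ ∈ Icc t1 t2, s τ < α ∧ α ≤ s τ + ε) ∧
      ST (Ioo t1 t2) (fun x τ => h (cl α xs x) (cl t1 t2 τ))
        (fun x τ => k (cl α xs x) (cl t1 t2 τ)) := by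
  have ht' := Ioo_subset_Icc_self ht
  have hc : ContinuousAt s t := S.cs.continuousAt (Ioo_mem_nhds (W.tm ht').1 (W.tm ht').2)
  have h4 : ∀ᶠ τ in 𝓝 t, τ ∈ Icc ta tb ∧ s τ ∈ Ioo (s t - ε / 2) (s t + ε / 2) :=
    Filter.Eventually.and (Icc_mem_nhds ht.1 ht.2) (hc.eventually (Ioo_mem_nhds (by linarith) (by linarith)))
  obtain ⟨t1, t2, h5, h6, h7⟩ := exists_Icc_mem_subset_of_mem_nhds h4
  have h8 : t ∈ Ioo t1 t2 := Icc_mem_nhds_iff.1 h6
  have h12 : t1 ≤ t2 := h5.1.trans h5.2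
  have hα : s t + ε / 2 ≤ xs := by linarith [W.lo t ht']
  have h9 : ∀ τ ∈ Icc t1 t2, s τ < s t + ε / 2 ∧ s t + ε / 2 ≤ s τ + ε := fun τ hτ =>
    ⟨(h7 hτ).2.2, by linarith [(h7 hτ).2.1]⟩
  have hD : ∀ x τ, (cl (s t + ε / 2) xs x, cl t1 t2 τ) ∈ Dom δ T s := fun x τ =>
    S.memD W (h7 (cl_mem h12 τ)).1 ⟨(h9 _ (cl_mem h12 τ)).1.trans_le (cl_mem hα x).1,
      (cl_mem hα x).2⟩
  have hm : Continuous fun p : ℝ × ℝ => (cl (s t + ε / 2) xs p.1, cl t1 t2 p.2) :=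
    ((cl_cont _ _).comp continuous_fst).prodMk ((cl_cont _ _).comp continuous_snd)
  refine ⟨s t + ε / 2, t1, t2, h8, fun τ hτ => (h7 hτ).1, hα, h9, isOpen_Ioo,
    S.c0.comp_continuous hm fun p => hD _ _, S.ck.comp_continuous hm fun p => hD _ _,
    fun x τ => S.pos _ (hD x τ), fun x τ hτ => ?_⟩
  have := S.dt _ (hD x τ)
  simp only [cl_eq (Ioo_subset_Icc_self hτ)] at this ⊢
  exact cl_deriv hτ this

theorem diss : (∀ᵐ t ∂(volume.restrict (Icc ta tb)),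
      IntegrableOn (fun x => h x t ^ n * h3 x t ^ 2) (Ioc (s t) (s t + 3 * δ / 4))) ∧
    (∀ ε, ε ≤ 3 * δ / 4 → IntegrableOn
      (fun t => ∫ x in Ioc (s t) (s t + ε), h x t ^ n * h3 x t ^ 2) (Icc ta tb)) ∧
    ∀ γ > 0, ∀ ε0 > 0, ∃ ε ∈ Ioc 0 ε0,
      ∫ t in Icc ta tb, ∫ x in Ioc (s t) (s t + ε), h x t ^ n * h3 x t ^ 2 ≤ γ := by
  set q : ℝ × ℝ → ℝ := fun p => h p.1 p.2 ^ n * h3 p.1 p.2 ^ 2 with hq
  have hq0 : ∀ p ∈ Dom δ T s, 0 ≤ q p := fun p hp =>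
    mul_nonneg (Real.rpow_pos_of_pos (S.pos p hp) n).le (sq_nonneg _)
  have hD := S.openD.measurableSet
  have hI : IntegrableOn q (Dom δ T s) := by
    refine ⟨S.cq.aestronglyMeasurable hD, ?_⟩
    rw [hasFiniteIntegral_iff_ofReal]
    · exact S.fin
    · filter_upwards [ae_restrict_mem hD] with p hp using hq0 p hp
  let A : ℝ → Set (ℝ × ℝ) := fun ε =>
    {p | p.2 ∈ Icc ta tb ∧ s (cl ta tb p.2) < p.1 ∧ p.1 ≤ s (cl ta tb p.2) + ε}
  have hs : Continuous fun p : ℝ × ℝ => s (cl ta tb p.2) :=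
    (cl_continuous W.ab (S.cs' W)).comp continuous_snd
  have mA : ∀ ε, MeasurableSet (A ε) := fun ε =>
    (measurable_snd measurableSet_Icc).inter ((measurableSet_lt hs.measurable measurable_fst).inter
      (measurableSet_le measurable_fst (hs.measurable.add_const ε)))
  have sA : ∀ ε, ε ≤ 3 * δ / 4 → A ε ⊆ Dom δ T s := by
    rintro ε hε p ⟨h4, h5, h6⟩
    rw [cl_eq h4] at h5 h6
    exact ⟨W.tm h4, h5, by linarith [S.hδ]⟩
  have iA : ∀ ε, ε ≤ 3 * δ / 4 → Integrable ((A ε).indicator q) (volume.prod volume) :=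
    fun ε hε => (integrable_indicator_iff (mA ε)).2 (hI.mono_set (sA ε hε))
  have eA : ∀ ε, ∀ t ∈ Icc ta tb, (fun x => (A ε).indicator q (x, t)) =
      (Ioc (s t) (s t + ε)).indicator fun x => h x t ^ n * h3 x t ^ 2 := by
    intro ε t ht
    ext x
    by_cases hx : x ∈ Ioc (s t) (s t + ε)
    · rw [indicator_of_mem hx, indicator_of_mem]
      exact ⟨ht, by simpa [cl_eq ht] using hx.1, by simpa [cl_eq ht] using hx.2⟩
    · rw [indicator_of_notMem hx, indicator_of_notMem]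
      rintro ⟨-, h5, h6⟩
      simp only [cl_eq ht] at h5 h6
      exact hx ⟨h5, h6⟩
  have eI : ∀ ε, ∀ t ∈ Icc ta tb, ∫ x, (A ε).indicator q (x, t) =
      ∫ x in Ioc (s t) (s t + ε), h x t ^ n * h3 x t ^ 2 := by
    intro ε t ht
    rw [eA ε t ht, integral_indicator measurableSet_Ioc]
  refine ⟨?_, fun ε hε => ?_, fun γ hγ ε0 hε0 => ?_⟩
  · filter_upwards [ae_restrict_of_ae (iA _ le_rfl).prod_left_ae,
      ae_restrict_mem measurableSet_Icc] with t h4 ht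
    rw [eA _ t ht, integrable_indicator_iff measurableSet_Ioc] at h4
    exact h4
  · exact ((iA ε hε).integral_prod_right.integrableOn).congr_fun (eI ε) measurableSet_Icc
  · have hε1 : 0 < min ε0 (3 * δ / 4) := lt_min hε0 (by linarith [S.hδ])
    set ε1 := min ε0 (3 * δ / 4)
    have hj : ∀ j : ℕ, ε1 / (j + 1) ≤ ε1 := fun j =>
      div_le_self hε1.le (by linarith [Nat.cast_nonneg (α := ℝ) j])
    have := tendsto_setIntegral_of_antitone (μ := volume) (f := q)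
      (s := fun j : ℕ => A (ε1 / (j + 1))) (fun j => mA _) ?_
      ⟨0, hI.mono_set (sA _ ((hj 0).trans (min_le_right _ _)))⟩
    · have he : ⋂ j : ℕ, A (ε1 / (j + 1)) = ∅ := by
        rw [eq_empty_iff_forall_notMem]
        intro p hp
        rw [mem_iInter] at hp
        have h4 := (hp 0).2.1
        obtain ⟨j, hj⟩ := exists_nat_gt (ε1 / (p.1 - s (cl ta tb p.2)))
        have h5 := (hp j).2.2
        rw [div_lt_iff₀ (by linarith)] at hj
        have h6 : p.1 - s (cl ta tb p.2) ≤ ε1 / (j + 1) := by linarith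
        rw [le_div_iff₀ (by positivity)] at h6
        nlinarith
      rw [he, setIntegral_empty] at this
      obtain ⟨j, h4⟩ := (this.eventually (Iio_mem_nhds hγ)).exists
      refine ⟨ε1 / (j + 1), ⟨by positivity, (hj j).trans (min_le_left _ _)⟩, ?_⟩
      have h5 := iA _ ((hj j).trans (min_le_right _ _))
      rw [← setIntegral_congr_fun measurableSet_Icc (eI _)]
      refine le_trans (setIntegral_le_integral h5.integral_prod_right
        (Eventually.of_forall fun t => integral_nonneg fun x => ?_)) ?_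
      · exact indicator_nonneg (fun p hp => hq0 p (sA _ ((hj j).trans (min_le_right _ _)) hp)) _
      · rw [← integral_prod_symm _ h5, integral_indicator (mA _)]
        exact le_of_lt h4
    · intro i j hij p hp
      refine ⟨hp.1, hp.2.1, hp.2.2.trans ?_⟩
      have : (i:ℝ) ≤ j := by exact_mod_cast hij
      gcongr

end Sol

end Pool.Agent.TF
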