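import Pool.Agent.P.MP_e83d7b_an.StepA

/-! Time derivatives of the functionals on a space-time box. -/

namespace Pool.Agent.TF

open Set MeasureTheory Filter Topology

/-- negative primitive based at `b` -/
noncomputable def prim (b : ℝ) (g : ℝ → ℝ) (x : ℝ) : ℝ := -∫ z in x..b, g z

theorem prim_cont {b : ℝ} {g : ℝ → ℝ → ℝ} (hg : Continuous (Function.uncurry g)) :
    Continuous fun p : ℝ × ℝ => prim b (fun z => g z p.2) p.1 := by
  have := intervalIntegral.continuous_parametric_primitive_of_continuous (μ := volume)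
    (f := fun t z => g z t) (a₀ := b) (hg.comp continuous_swap)
  have h2 := this.comp continuous_swap
  refine h2.congr fun p => ?_
  simp only [prim, Function.comp, Prod.fst_swap, Prod.snd_swap]
  rw [intervalIntegral.integral_symm]

theorem prim_dx {b : ℝ} {g : ℝ → ℝ} (hg : Continuous g) (x : ℝ) :
    HasDerivAt (prim b g) (g x) x := by
  have := (intervalIntegral.integral_hasDerivAt_left (hg.intervalIntegrable x b)
    (hg.stronglyMeasurableAtFilter _ _) hg.continuousAt).neg
  rw [neg_neg] at this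
  exact this

theorem prim_self (b : ℝ) (g : ℝ → ℝ) : prim b g b = 0 := by simp [prim]

theorem prim_dt {b x t : ℝ} {g g' : ℝ → ℝ → ℝ} (hg : Continuous (Function.uncurry g))
    (hg' : Continuous (Function.uncurry g')) {U : Set ℝ} (hU : U ∈ 𝓝 t)
    (hd : ∀ z, ∀ t ∈ U, HasDerivAt (g z) (g' z t) t) :
    HasDerivAt (fun t => prim b (fun z => g z t) x) (prim b (fun z => g' z t) x) t :=
  (hasDerivAt_param hg hg' hU fun z _ t ht => hd z t ht).neg

/-- space-time data on a box -/
structure ST (U : Set ℝ) (hh kk : ℝ → ℝ → ℝ) : Prop where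
  oU : IsOpen U
  ch : Continuous (Function.uncurry hh)
  ck : Continuous (Function.uncurry kk)
  pos : ∀ x t, 0 < hh x t
  dt : ∀ x, ∀ t ∈ U, HasDerivAt (hh x) (kk x t) t

noncomputable def pl0 (n b : ℝ) (h : ℝ → ℝ) : ℝ → ℝ := prim b fun z => h z ^ (2 - n)
noncomputable def pl3 (b : ℝ) (h : ℝ → ℝ) : ℝ → ℝ := prim b fun z => 1 / h z ^ 3
noncomputable def pL0 (n b : ℝ) (h k : ℝ → ℝ) : ℝ → ℝ :=
  prim b fun z => (2 - n) * (h z ^ (2 - n) / h z) * k z
noncomputable def pL3 (b : ℝ) (h k : ℝ → ℝ) : ℝ → ℝ := prim b fun z => -3 * k z / h z ^ 4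
noncomputable def pM (b m : ℝ) (h : ℝ → ℝ) (x : ℝ) : ℝ := m + prim b h x

/-- the marker functional -/
noncomputable def NN (c : Cut) (f : ℝ → ℝ) (n a b β m : ℝ) (h : ℝ → ℝ) : ℝ :=
  ∫ y in a..b, W1 c β (pM b m h y) * h y * GG c f a b h (pl0 n b h) (pl3 b h) y

/-- the one-sided mass functional -/
noncomputable def PP (c : Cut) (Ψ : ℝ → ℝ) (n a b R : ℝ) (h : ℝ → ℝ) : ℝ :=
  ∫ x in a..b, Ψ (h x) * (1 - c.S (-pl0 n b h x / R - 1))

variable {U : Set ℝ} {hh kk : ℝ → ℝ → ℝ} {n a b β : ℝ} {c : Cut} {f f1 f2 : ℝ → ℝ}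

namespace ST

variable (S : ST U hh kk)
include S

theorem ch' : Continuous fun p : ℝ × ℝ => hh p.1 p.2 := S.ch
theorem ck' : Continuous fun p : ℝ × ℝ => kk p.1 p.2 := S.ck

theorem c_et : Continuous fun p : ℝ × ℝ => hh p.1 p.2 ^ (2 - n) :=
  S.ch'.rpow_const fun _ => Or.inl (S.pos _ _).ne'

theorem c_g0 : Continuous fun p : ℝ × ℝ =>
    (2 - n) * (hh p.1 p.2 ^ (2 - n) / hh p.1 p.2) * kk p.1 p.2 :=
  (continuous_const.mul (S.c_et.div S.ch' fun _ => (S.pos _ _).ne')).mul S.ck'

theorem c_i3 : Continuous fun p : ℝ × ℝ => 1 / hh p.1 p.2 ^ 3 :=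
  continuous_const.div (S.ch'.pow 3) fun _ => (pow_pos (S.pos _ _) 3).ne'

theorem c_g3 : Continuous fun p : ℝ × ℝ => -3 * kk p.1 p.2 / hh p.1 p.2 ^ 4 :=
  (continuous_const.mul S.ck').div (S.ch'.pow 4) fun _ => (pow_pos (S.pos _ _) 4).ne'

theorem c_l0 : Continuous fun p : ℝ × ℝ => pl0 n b (fun z => hh z p.2) p.1 :=
  prim_cont (g := fun z t => hh z t ^ (2 - n)) S.c_et

theorem c_l3 : Continuous fun p : ℝ × ℝ => pl3 b (fun z => hh z p.2) p.1 :=
  prim_cont (g := fun z t => 1 / hh z t ^ 3) S.c_i3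

theorem c_L0 : Continuous fun p : ℝ × ℝ =>
    pL0 n b (fun z => hh z p.2) (fun z => kk z p.2) p.1 :=
  prim_cont (g := fun z t => (2 - n) * (hh z t ^ (2 - n) / hh z t) * kk z t) S.c_g0

theorem c_L3 : Continuous fun p : ℝ × ℝ =>
    pL3 b (fun z => hh z p.2) (fun z => kk z p.2) p.1 :=
  prim_cont (g := fun z t => -3 * kk z t / hh z t ^ 4) S.c_g3

theorem d_l0 (x : ℝ) {t : ℝ} (ht : t ∈ U) :
    HasDerivAt (fun t => pl0 n b (fun z => hh z t) x)
      (pL0 n b (fun z => hh z t) (fun z => kk z t) x) t :=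
  prim_dt (g := fun z t => hh z t ^ (2 - n))
    (g' := fun z t => (2 - n) * (hh z t ^ (2 - n) / hh z t) * kk z t) S.c_et S.c_g0
    (S.oU.mem_nhds ht) fun z t ht => (rp_deriv (n := n) (S.pos z t)).comp t (S.dt z t ht)

theorem d_l3 (x : ℝ) {t : ℝ} (ht : t ∈ U) :
    HasDerivAt (fun t => pl3 b (fun z => hh z t) x)
      (pL3 b (fun z => hh z t) (fun z => kk z t) x) t := by
  refine prim_dt (g := fun z t => 1 / hh z t ^ 3)
    (g' := fun z t => -3 * kk z t / hh z t ^ 4) S.c_i3 S.c_g3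
    (S.oU.mem_nhds ht) fun z t ht => ?_
  have h3 : HasDerivAt (fun t => hh z t ^ 3) (3 * hh z t ^ 2 * kk z t) t := by
    simpa using (S.dt z t ht).fun_pow 3
  have := (hasDerivAt_const t (1:ℝ)).div h3 (pow_pos (S.pos z t) 3).ne'
  refine HasDerivAt.congr_deriv (f := fun t => 1 / hh z t ^ 3) this ?_
  have := S.pos z t
  field_simp
  ring

theorem d_PP {Ψ Ψ1 Ψ2 : ℝ → ℝ} (HΨ : Fd Ψ Ψ1 Ψ2) {R t : ℝ} (ht : t ∈ U) :
    HasDerivAt (fun t => PP c Ψ n a b R fun z => hh z t)
      (Dp c Ψ Ψ1 a b R (fun z => hh z t) (fun z => kk z t) (pl0 n b fun z => hh z t)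
        (pL0 n b (fun z => hh z t) fun z => kk z t)) t := by
  have := S.ch'; have := S.ck'; have := S.c_l0 (n := n) (b := b); have := S.c_L0 (n := n) (b := b)
  have := HΨ.c0; have := HΨ.c1; have := c.c0; have := c.c1
  refine hasDerivAt_param
    (G := fun x t => Ψ (hh x t) * (1 - c.S (-pl0 n b (fun z => hh z t) x / R - 1)))
    (G' := fun x t => Ψ1 (hh x t) * kk x t * (1 - c.S (-pl0 n b (fun z => hh z t) x / R - 1)) -
      Ψ (hh x t) * (c.S1 (-pl0 n b (fun z => hh z t) x / R - 1) *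
        (-pL0 n b (fun z => hh z t) (fun z => kk z t) x / R)))
    (by unfold Function.uncurry; fun_prop) (by unfold Function.uncurry; fun_prop)
    (S.oU.mem_nhds ht) fun x _ t ht => ?_
  have d1 := (HΨ.d0 (hh x t)).comp t (S.dt x t ht)
  have d2 := (c.d0 (-pl0 n b (fun z => hh z t) x / R - 1)).comp t
    (((S.d_l0 (n := n) (b := b) x ht).neg.div_const R).sub_const 1)
  refine HasDerivAt.congr_deriv
    (f := fun t => Ψ (hh x t) * (1 - c.S (-pl0 n b (fun z => hh z t) x / R - 1)))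
    (d1.mul (d2.const_sub 1)) ?_
  simp only [Function.comp]
  ring

theorem d_NN (Hf : Fd f f1 f2) {m m' : ℝ → ℝ} (dm : ∀ t, HasDerivAt m (m' t) t)
    (cm' : Continuous m') {t : ℝ} (ht : t ∈ U) :
    HasDerivAt (fun t => NN c f n a b β (m t) fun z => hh z t)
      (Dn c f f1 a b β (fun z => hh z t) (fun z => kk z t) (pl0 n b fun z => hh z t)
        (pl3 b fun z => hh z t) (pL0 n b (fun z => hh z t) fun z => kk z t)
        (pL3 b (fun z => hh z t) fun z => kk z t) (pM b (m t) fun z => hh z t)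
        (pM b (m' t) fun z => kk z t)) t := by
  have := S.ch'; have := S.ck'; have := S.c_l0 (n := n) (b := b); have := S.c_L0 (n := n) (b := b)
  have := S.c_l3 (b := b); have := S.c_L3 (b := b)
  have := Hf.c0; have := Hf.c1; have := c.c0; have := c.c1
  have := W1_cont c β; have := W2_cont c β
  have cm : Continuous m := continuous_iff_continuousAt.2 fun x => (dm x).continuousAt
  have cM : Continuous fun p : ℝ × ℝ => pM b (m p.2) (fun z => hh z p.2) p.1 :=
    (cm.comp continuous_snd).add (prim_cont S.ch)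
  have cMt : Continuous fun p : ℝ × ℝ => pM b (m' p.2) (fun z => kk z p.2) p.1 :=
    (cm'.comp continuous_snd).add (prim_cont S.ck)
  have px : Continuous fun q : (ℝ × ℝ) × ℝ => (q.2, q.1.2) := by fun_prop
  have hx := S.ch'.comp px
  have kx := S.ck'.comp px
  have l0d := ((S.c_l0 (n := n) (b := b)).comp continuous_fst).sub
    ((S.c_l0 (n := n) (b := b)).comp px)
  have l3d := ((S.c_l3 (b := b)).comp continuous_fst).sub ((S.c_l3 (b := b)).comp px)
  have L0d := ((S.c_L0 (n := n) (b := b)).comp continuous_fst).sub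
    ((S.c_L0 (n := n) (b := b)).comp px)
  have L3d := ((S.c_L3 (b := b)).comp continuous_fst).sub ((S.c_L3 (b := b)).comp px)
  have cr : Continuous fun q : (ℝ × ℝ) × ℝ => rr (fun z => hh z q.1.2)
      (pl0 n b fun z => hh z q.1.2) (pl3 b fun z => hh z q.1.2) q.2 q.1.1 :=
    l0d.add ((hx.pow 2).mul l3d)
  have crt : Continuous fun q : (ℝ × ℝ) × ℝ => rt (fun z => hh z q.1.2) (fun z => kk z q.1.2)
      (pl3 b fun z => hh z q.1.2) (pL0 n b (fun z => hh z q.1.2) fun z => kk z q.1.2)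
        (pL3 b (fun z => hh z q.1.2) fun z => kk z q.1.2) q.2 q.1.1 :=
    (L0d.add (((continuous_const.mul hx).mul kx).mul l3d)).add ((hx.pow 2).mul L3d)
  have cG0 : Continuous fun q : (ℝ × ℝ) × ℝ => f (hh q.2 q.1.2) * (1 - c.S (rr (fun z => hh z q.1.2)
      (pl0 n b fun z => hh z q.1.2) (pl3 b fun z => hh z q.1.2) q.2 q.1.1)) :=
    (Hf.c0.comp hx).mul (continuous_const.sub (c.c0.comp cr))
  have cG1 : Continuous fun q : (ℝ × ℝ) × ℝ => f1 (hh q.2 q.1.2) * kk q.2 q.1.2 *
      (1 - c.S (rr (fun z => hh z q.1.2)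
      (pl0 n b fun z => hh z q.1.2) (pl3 b fun z => hh z q.1.2) q.2 q.1.1)) -
      f (hh q.2 q.1.2) * c.S1 (rr (fun z => hh z q.1.2)
      (pl0 n b fun z => hh z q.1.2) (pl3 b fun z => hh z q.1.2) q.2 q.1.1) *
      rt (fun z => hh z q.1.2) (fun z => kk z q.1.2) (pl3 b fun z => hh z q.1.2)
        (pL0 n b (fun z => hh z q.1.2) fun z => kk z q.1.2)
        (pL3 b (fun z => hh z q.1.2) fun z => kk z q.1.2) q.2 q.1.1 :=
    (((Hf.c1.comp hx).mul kx).mul (continuous_const.sub (c.c0.comp cr))).sub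
      (((Hf.c0.comp hx).mul (c.c1.comp cr)).mul crt)
  have cG : Continuous fun p : ℝ × ℝ => GG c f a b (fun z => hh z p.2)
      (pl0 n b fun z => hh z p.2) (pl3 b fun z => hh z p.2) p.1 :=
    intervalIntegral.continuous_parametric_intervalIntegral_of_continuous' (μ := volume)
      (f := fun (p : ℝ × ℝ) x => f (hh x p.2) * (1 - c.S (rr (fun z => hh z p.2)
      (pl0 n b fun z => hh z p.2) (pl3 b fun z => hh z p.2) x p.1))) cG0 a b
  have cGt : Continuous fun p : ℝ × ℝ => Gt c f f1 a b (fun z => hh z p.2) (fun z => kk z p.2)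
      (pl0 n b fun z => hh z p.2) (pl3 b fun z => hh z p.2)
      (pL0 n b (fun z => hh z p.2) fun z => kk z p.2)
      (pL3 b (fun z => hh z p.2) fun z => kk z p.2) p.1 :=
    intervalIntegral.continuous_parametric_intervalIntegral_of_continuous' (μ := volume)
      (f := fun (p : ℝ × ℝ) x => f1 (hh x p.2) * kk x p.2 *
      (1 - c.S (rr (fun z => hh z p.2)
      (pl0 n b fun z => hh z p.2) (pl3 b fun z => hh z p.2) x p.1)) -
      f (hh x p.2) * c.S1 (rr (fun z => hh z p.2)
      (pl0 n b fun z => hh z p.2) (pl3 b fun z => hh z p.2) x p.1) *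
      rt (fun z => hh z p.2) (fun z => kk z p.2) (pl3 b fun z => hh z p.2)
        (pL0 n b (fun z => hh z p.2) fun z => kk z p.2)
        (pL3 b (fun z => hh z p.2) fun z => kk z p.2) x p.1) cG1 a b
  have dG : ∀ y, ∀ t ∈ U, HasDerivAt (fun t => GG c f a b (fun z => hh z t)
      (pl0 n b fun z => hh z t) (pl3 b fun z => hh z t) y)
      (Gt c f f1 a b (fun z => hh z t) (fun z => kk z t)
      (pl0 n b fun z => hh z t) (pl3 b fun z => hh z t)
      (pL0 n b (fun z => hh z t) fun z => kk z t)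
      (pL3 b (fun z => hh z t) fun z => kk z t) y) t := by
    intro y t ht
    refine hasDerivAt_param
      (G := fun x t => f (hh x t) * (1 - c.S (rr (fun z => hh z t)
        (pl0 n b fun z => hh z t) (pl3 b fun z => hh z t) x y)))
      (G' := fun x t => f1 (hh x t) * kk x t * (1 - c.S (rr (fun z => hh z t)
        (pl0 n b fun z => hh z t) (pl3 b fun z => hh z t) x y)) -
        f (hh x t) * c.S1 (rr (fun z => hh z t)
        (pl0 n b fun z => hh z t) (pl3 b fun z => hh z t) x y) *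
        rt (fun z => hh z t) (fun z => kk z t) (pl3 b fun z => hh z t)
        (pL0 n b (fun z => hh z t) fun z => kk z t)
        (pL3 b (fun z => hh z t) fun z => kk z t) x y)
      (cG0.comp (f := fun p : ℝ × ℝ => ((y, p.2), p.1)) (by fun_prop))
      (cG1.comp (f := fun p : ℝ × ℝ => ((y, p.2), p.1)) (by fun_prop))
      (S.oU.mem_nhds ht) fun x _ t ht => ?_
    have h2 : HasDerivAt (fun t => hh x t ^ 2) (2 * hh x t * kk x t) t := by
      simpa using (S.dt x t ht).fun_pow 2
    have dr : HasDerivAt (fun t => rr (fun z => hh z t)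
        (pl0 n b fun z => hh z t) (pl3 b fun z => hh z t) x y)
        (rt (fun z => hh z t) (fun z => kk z t) (pl3 b fun z => hh z t)
        (pL0 n b (fun z => hh z t) fun z => kk z t)
        (pL3 b (fun z => hh z t) fun z => kk z t) x y) t := by
      have := ((S.d_l0 (n := n) (b := b) y ht).sub (S.d_l0 (n := n) (b := b) x ht)).add
        (h2.mul ((S.d_l3 (b := b) y ht).sub (S.d_l3 (b := b) x ht)))
      refine HasDerivAt.congr_deriv (f := fun t => rr (fun z => hh z t)
        (pl0 n b fun z => hh z t) (pl3 b fun z => hh z t) x y) this ?_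
      simp only [rt, Pi.sub_apply]
      ring
    have d1 := (Hf.d0 (hh x t)).comp t (S.dt x t ht)
    have d2 := (c.d0 _).comp t dr
    refine HasDerivAt.congr_deriv (f := fun t => f (hh x t) * (1 - c.S (rr (fun z => hh z t)
        (pl0 n b fun z => hh z t) (pl3 b fun z => hh z t) x y))) (d1.mul (d2.const_sub 1)) ?_
    simp only [Function.comp]
    ring
  refine hasDerivAt_param
    (G := fun y t => W1 c β (pM b (m t) (fun z => hh z t) y) * hh y t *
      GG c f a b (fun z => hh z t) (pl0 n b fun z => hh z t) (pl3 b fun z => hh z t) y)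
    (G' := fun y t => (W2 c β (pM b (m t) (fun z => hh z t) y) *
      pM b (m' t) (fun z => kk z t) y * hh y t + W1 c β (pM b (m t) (fun z => hh z t) y) * kk y t) *
      GG c f a b (fun z => hh z t) (pl0 n b fun z => hh z t) (pl3 b fun z => hh z t) y +
      W1 c β (pM b (m t) (fun z => hh z t) y) * hh y t *
      Gt c f f1 a b (fun z => hh z t) (fun z => kk z t)
      (pl0 n b fun z => hh z t) (pl3 b fun z => hh z t)
      (pL0 n b (fun z => hh z t) fun z => kk z t)
      (pL3 b (fun z => hh z t) fun z => kk z t) y)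
    (by unfold Function.uncurry; fun_prop) (by unfold Function.uncurry; fun_prop)
    (S.oU.mem_nhds ht) fun y _ t ht => ?_
  have dM : HasDerivAt (fun t => pM b (m t) (fun z => hh z t) y)
      (pM b (m' t) (fun z => kk z t) y) t :=
    (dm t).add (prim_dt S.ch S.ck (S.oU.mem_nhds ht) S.dt)
  exact (((W1_deriv c β _).comp t dM).mul (S.dt y t ht)).mul (dG y t ht)

end ST

end Pool.Agent.TF
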