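import Pool.Agent.P.MP_e83d7b_an.Ident

/-! Pointwise and integrated bounds for the error term. -/

namespace Pool.Agent.TF

open Set MeasureTheory Filter Topology

variable {n a b β : ℝ} {h h1 F k et l0 l3 L0 L3 M Mt f f1 f2 : ℝ → ℝ} {c : Cut}

/-- the inner integrand -/
noncomputable def a4 (h h1 F et : ℝ → ℝ) (x z : ℝ) : ℝ :=
  |F z / h z| * |h1 z| * (et z / h z + h x ^ 2 / h z ^ 4)

theorem Kpoly {K : ℝ} (hK : 12 ≤ K) : (K ^ 2 + 2 * K) * (1 + K) + 6 * K ^ 2 ≤ 12 * K ^ 3 ∧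
    4 * K ^ 2 + 6 * K ≤ 12 * K ^ 3 ∧ K ^ 2 + K ≤ 12 * K ^ 3 ∧ 4 * K ≤ 12 * K ^ 3 ∧
    K ≤ 12 * K ^ 3 ∧ K ^ 2 ≤ 12 * K ^ 3 := by
  have K2 : K ≤ K ^ 2 := by nlinarith
  have K3 : K ^ 2 ≤ K ^ 3 := by nlinarith
  refine ⟨?_, ?_, ?_, ?_, ?_, ?_⟩ <;> nlinarith

namespace Bx

variable (S : Bx n a b h h1 F k et l0 l3 L0 L3 M)
include S

theorem c_a4 : Continuous fun p : ℝ × ℝ => a4 h h1 F et p.1 p.2 := by
  have := S.ch; have := S.ch1; have := S.cF; have := S.cet
  unfold a4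
  simp only [div_eq_mul_inv, ← inv_pow]
  fun_prop (disch := intro _; exact (S.pos _).ne')

theorem a4_nn (x z : ℝ) : 0 ≤ a4 h h1 F et x z := by
  have := S.pos z; have := S.etp z
  unfold a4
  positivity

theorem dL_bound {K x y : ℝ} (hn : 3 ≤ n) (hK : n ^ 2 ≤ K) (hK' : 12 ≤ K) (hx : x ∈ Icc a b)
    (hy : y ∈ Icc a b) (hxy : x ≤ y) :
    |L0 y - L0 x + h x ^ 2 * (L3 y - L3 x)| ≤
      K * (et x * |F x / h x| + et y * |F y / h y|) +
        3 * (|F x / h x| / h x + h x ^ 2 / h y ^ 3 * |F y / h y|) +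
          K * ∫ z in x..y, a4 h h1 F et x z := by
  have := S.ch; have := S.ch1; have := S.cF; have := S.cet; have := S.cL0; have := S.cL3
  have hc : Continuous fun z => (n - 2) * (n - 1) * (et z * h1 z * F z / h z ^ 2) +
      h x ^ 2 * (12 * (F z * h1 z / h z ^ 5)) := by
    simp only [div_eq_mul_inv, ← inv_pow]
    fun_prop (disch := intro _; exact (S.pos _).ne')
  have ha : Continuous fun z => a4 h h1 F et x z :=
    S.c_a4.comp (continuous_const.prodMk continuous_id)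
  have key := intervalIntegral.integral_eq_sub_of_hasDerivAt_of_le hxy
    (f := fun z => (L0 z - (n - 2) * (et z * F z / h z)) + h x ^ 2 * (L3 z - 3 * (F z / h z ^ 4)))
    (f' := fun z => (n - 2) * (n - 1) * (et z * h1 z * F z / h z ^ 2) +
      h x ^ 2 * (12 * (F z * h1 z / h z ^ 5))) ?_ ?_ (hc.intervalIntegrable _ _)
  · have k2 : |∫ z in x..y, ((n - 2) * (n - 1) * (et z * h1 z * F z / h z ^ 2) +
        h x ^ 2 * (12 * (F z * h1 z / h z ^ 5)))| ≤ K * ∫ z in x..y, a4 h h1 F et x z := by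
      rw [← intervalIntegral.integral_const_mul]
      refine (intervalIntegral.abs_integral_le_integral_abs hxy).trans
        (intervalIntegral.integral_mono_on hxy (hc.abs.intervalIntegrable _ _)
          ((ha.const_mul _).intervalIntegrable _ _) fun z _ => ?_)
      have pz := S.pos z; have ez := S.etp z
      have e : (n - 2) * (n - 1) * (et z * h1 z * F z / h z ^ 2) +
          h x ^ 2 * (12 * (F z * h1 z / h z ^ 5)) = (F z / h z) * h1 z *
            ((n - 2) * (n - 1) * (et z / h z) + 12 * (h x ^ 2 / h z ^ 4)) := by field_simp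
      have hn2 : 0 ≤ (n - 2) * (n - 1) := mul_nonneg (by linarith) (by linarith)
      have hn3 : (n - 2) * (n - 1) ≤ K := by nlinarith
      rw [e, abs_mul, abs_mul, abs_of_nonneg (a := (n - 2) * (n - 1) * (et z / h z) +
        12 * (h x ^ 2 / h z ^ 4)) (by positivity)]
      unfold a4
      calc _ ≤ |F z / h z| * |h1 z| * (K * (et z / h z) + K * (h x ^ 2 / h z ^ 4)) := by gcongr
        _ = _ := by ring
    rw [key] at k2
    have px := S.pos x; have py := S.pos y; have ex := S.etp x; have ey := S.etp y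
    have e : L0 y - L0 x + h x ^ 2 * (L3 y - L3 x) =
      ((L0 y - (n - 2) * (et y * F y / h y)) + h x ^ 2 * (L3 y - 3 * (F y / h y ^ 4)) -
        ((L0 x - (n - 2) * (et x * F x / h x)) + h x ^ 2 * (L3 x - 3 * (F x / h x ^ 4)))) +
        ((n - 2) * et y * (F y / h y) - (n - 2) * et x * (F x / h x) +
          (3 * (h x ^ 2 / h y ^ 3) * (F y / h y) - 3 / h x * (F x / h x))) := by
      field_simp
      ring
    rw [e]
    refine (abs_add_le _ _).trans ?_
    have hn2 : 0 ≤ n - 2 := by linarith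
    have hn3 : n - 2 ≤ K := by nlinarith
    have b1 : |(n - 2) * et y * (F y / h y)| ≤ K * (et y * |F y / h y|) := by
      rw [abs_mul, abs_of_nonneg (by positivity), mul_assoc]; gcongr
    have b2 : |(n - 2) * et x * (F x / h x)| ≤ K * (et x * |F x / h x|) := by
      rw [abs_mul, abs_of_nonneg (by positivity), mul_assoc]; gcongr
    have b3 : |3 * (h x ^ 2 / h y ^ 3) * (F y / h y)| = 3 * (h x ^ 2 / h y ^ 3 * |F y / h y|) := by
      rw [abs_mul, abs_of_nonneg (by positivity), mul_assoc]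
    have b4 : |3 / h x * (F x / h x)| = 3 * (|F x / h x| / h x) := by
      rw [abs_mul, abs_of_nonneg (by positivity)]; ring
    have b5 := abs_add_le ((n - 2) * et y * (F y / h y) - (n - 2) * et x * (F x / h x))
      (3 * (h x ^ 2 / h y ^ 3) * (F y / h y) - 3 / h x * (F x / h x))
    have b6 := abs_sub ((n - 2) * et y * (F y / h y)) ((n - 2) * et x * (F x / h x))
    have b7 := abs_sub (3 * (h x ^ 2 / h y ^ 3) * (F y / h y)) (3 / h x * (F x / h x))
    linarith
  · simp only [div_eq_mul_inv, ← inv_pow]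
    fun_prop (disch := intro _ _; exact (S.pos _).ne')
  · intro z hz
    have hz' : z ∈ Ioo a b := ⟨hx.1.trans_lt hz.1, hz.2.trans_le hy.2⟩
    have pz := S.pos z
    have h4 : HasDerivAt (fun z => h z ^ 4) (4 * h z ^ 3 * h1 z) z := by
      simpa using (S.dh z hz').fun_pow 4
    have := ((S.dL0 z hz').sub
      ((((S.det z hz').mul (S.dF z hz')).div (S.dh z hz') pz.ne').const_mul (n - 2))).add
      (((S.dL3 z hz').sub (((S.dF z hz').div h4 (pow_pos pz 4).ne').const_mul 3)).const_mul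
        (h x ^ 2))
    refine HasDerivAt.congr_deriv (f := fun z => (L0 z - (n - 2) * (et z * F z / h z)) +
      h x ^ 2 * (L3 z - 3 * (F z / h z ^ 4))) this ?_
    simp only [Pi.mul_apply]
    field_simp
    ring

theorem ee_bound {K cb x y : ℝ} {i : ℝ} (hn : 3 ≤ n) (hK : n ^ 2 ≤ K) (hK' : 12 ≤ K)
    (hKc : c.C ≤ K) (hinv : ∀ x ∈ Icc a b, 1 ≤ K * (h x * et x)) (hcb : 0 ≤ cb) (hi : 0 ≤ i)
    (hx : x ∈ Icc a b) (hy : y ∈ Icc a b) (hM : M y ≤ 3 * β)
    (c1 : x < y → |f (h x)| ≤ cb ∧ |h x * f1 (h x)| ≤ cb * K ∧ |h x ^ 2 * f2 (h x)| ≤ cb * K * i)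
    (c2 : y ≤ x → f2 (h x) = 0) :
    |ee c f f1 f2 h h1 F et l0 l3 L0 L3 x y| ≤ cb * (12 * K ^ 3) * (iB β M l0 h l3 x y *
      (|F x / h x| * et x + |F x / h x| * |h1 x| * h x * (l3 y - l3 x) +
        |F y / h y| * (et y + h x ^ 2 / h y ^ 3)) +
      iB β M l0 h l3 x y * (i * (|F x / h x| * |h1 x| / h x)) +
      iB β M l0 h l3 x y * ∫ z in x..y, a4 h h1 F et x z) := by
  by_cases hc : cB β M l0 h l3 x y ∧ rr h l0 l3 x y < 1
  swap
  · have h0 : ee c f f1 f2 h h1 F et l0 l3 L0 L3 x y = 0 := by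
      rcases le_or_gt y x with hyx | hxy
      · have hr := S.rr_nonpos hx hy hyx
        simp [ee, e1, c2 hyx, c.s1z _ (Or.inl hr), c.s2z _ (Or.inl hr)]
      · have hr : 1 ≤ rr h l0 l3 x y := by
          by_contra hr
          push Not at hr
          have m0 := S.l0mono hx hy hxy.le
          have m3 := mul_nonneg (sq_nonneg (h x)) (sub_nonneg.2 (S.l3mono hx hy hxy.le))
          have hr' := hr
          unfold rr at hr'
          exact hc ⟨⟨⟨hxy, hM, by linarith⟩, by linarith⟩, hr⟩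
        simp [ee, e1, c.one _ hr, c.s1z _ (Or.inr hr), c.s2z _ (Or.inr hr)]
    rw [h0, abs_zero]
    by_cases hB : cB β M l0 h l3 x y
    · have := S.pos x; have := S.pos y; have := S.etp x; have := S.etp y
      have := sub_nonneg.2 (S.l3mono hx hy hB.1.1.le)
      have : 0 ≤ ∫ z in x..y, a4 h h1 F et x z :=
        intervalIntegral.integral_nonneg hB.1.1.le fun z _ => S.a4_nn x z
      rw [iB_pos hB]
      positivity
    · rw [iB_neg hB]; simp
  obtain ⟨hB, -⟩ := hc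
  rw [iB_pos hB]
  have hxy := hB.1.1
  obtain ⟨g0, g1, g2⟩ := c1 hxy
  have px := S.pos x; have py := S.pos y; have ex := S.etp x; have ey := S.etp y
  have l3n := sub_nonneg.2 (S.l3mono hx hy hxy.le)
  have hI : 0 ≤ ∫ z in x..y, a4 h h1 F et x z :=
    intervalIntegral.integral_nonneg hxy.le fun z _ => S.a4_nn x z
  have dL := S.dL_bound hn hK hK' hx hy hxy.le
  have hcone := hB.2
  have ix : 1 / h x ≤ K * et x := by rw [div_le_iff₀ px]; linarith [hinv x hx]
  unfold ee e1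
  set I := ∫ z in x..y, a4 h h1 F et x z
  set DL := L0 y - L0 x + h x ^ 2 * (L3 y - L3 x)
  set ℓ := l3 y - l3 x
  set r := rr h l0 l3 x y
  have s0 : |1 - c.S r| ≤ 1 := by
    rw [abs_le]; constructor <;> linarith [c.nn r, c.le1 r]
  have s1 : |c.S1 r| ≤ K := by rw [abs_of_nonneg (c.s1nn r)]; exact (c.b1 r).trans hKc
  have s2 : |c.S2 r| ≤ K := (c.b2 r).trans hKc
  have hrx : |rx h h1 et l3 x y| ≤ (1 + K) * et x + 2 * (|h1 x| * h x * ℓ) := by
    have e : rx h h1 et l3 x y = 2 * (h1 x * h x * ℓ) - (et x + 1 / h x) := by unfold rx; ring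
    rw [e]
    refine (abs_sub _ _).trans ?_
    rw [abs_mul, abs_mul, abs_mul, abs_of_pos px, abs_of_nonneg l3n,
      abs_of_pos (a := et x + 1 / h x) (by positivity), abs_two]
    linarith
  set ρ := rx h h1 et l3 x y
  set u := F x / h x with hu
  set v := F y / h y
  have hF : F x = u * h x := by rw [hu]; field_simp
  set U := |u|
  set V := |v|
  set T := |h1 x|
  have U0 : 0 ≤ U := abs_nonneg _
  have V0 : 0 ≤ V := abs_nonneg _
  have T0 : 0 ≤ T := abs_nonneg _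
  have K0 : 0 ≤ K := by linarith
  have e : F x * (f2 (h x) * h1 x * (1 - c.S r) - f1 (h x) * c.S1 r * ρ -
      2 * ((f1 (h x) * h x + f (h x)) * h1 x * c.S1 r * ℓ + f (h x) * h x * c.S2 r * ρ * ℓ -
        f (h x) * c.S1 r / h x ^ 2)) - f (h x) * c.S1 r * DL -
        v * (f (h x) * c.S1 r * (et y + h x ^ 2 / h y ^ 3)) =
      u * (h x ^ 2 * f2 (h x)) * (1 - c.S r) * h1 x * (1 / h x) +
      (-(u * (h x * f1 (h x)) * c.S1 r * ρ) +
      (-(2 * (u * (h x * f1 (h x) + f (h x)) * c.S1 r * h1 x * (h x * ℓ))) +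
      (-(2 * (u * f (h x) * c.S2 r * ρ * (h x ^ 2 * ℓ))) +
      (2 * (u * f (h x) * c.S1 r * (1 / h x)) +
      (-(f (h x) * c.S1 r * DL) +
      -(v * f (h x) * c.S1 r * (et y + h x ^ 2 / h y ^ 3))))))) := by
    rw [hF]; field_simp; ring
  rw [e]
  have t1 : |u * (h x ^ 2 * f2 (h x)) * (1 - c.S r) * h1 x * (1 / h x)| ≤
      U * (cb * K * i) * 1 * T * (1 / h x) := by
    simp only [abs_mul (_ * _) _, abs_mul u]
    rw [abs_of_pos (a := 1 / h x) (by positivity)]
    gcongr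
  have t2 : |-(u * (h x * f1 (h x)) * c.S1 r * ρ)| ≤
      U * (cb * K) * K * ((1 + K) * et x + 2 * (T * h x * ℓ)) := by
    rw [abs_neg, abs_mul, abs_mul, abs_mul u]
    gcongr
  have t3 : |-(2 * (u * (h x * f1 (h x) + f (h x)) * c.S1 r * h1 x * (h x * ℓ)))| ≤
      2 * (U * (cb * K + cb) * K * T * (h x * ℓ)) := by
    rw [abs_neg, abs_mul, abs_mul, abs_mul, abs_mul, abs_mul u, abs_two,
      abs_of_nonneg (a := h x * ℓ) (by positivity)]
    gcongr
    exact (abs_add_le _ _).trans (add_le_add g1 g0)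
  have t4 : |-(2 * (u * f (h x) * c.S2 r * ρ * (h x ^ 2 * ℓ)))| ≤
      2 * (U * cb * K * ((1 + K) * et x + 2 * (T * h x * ℓ)) * 1) := by
    rw [abs_neg, abs_mul, abs_mul, abs_mul, abs_mul, abs_mul u, abs_two,
      abs_of_nonneg (a := h x ^ 2 * ℓ) (by positivity)]
    gcongr
  have t5 : |2 * (u * f (h x) * c.S1 r * (1 / h x))| ≤ 2 * (U * cb * K * (K * et x)) := by
    rw [abs_mul, abs_mul, abs_mul, abs_mul u, abs_two,
      abs_of_pos (a := 1 / h x) (by positivity)]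
    gcongr
  have t6 : |-(f (h x) * c.S1 r * DL)| ≤ cb * K * (K * (et x * U + et y * V) +
        3 * (U * (K * et x) + h x ^ 2 / h y ^ 3 * V) + K * I) := by
    rw [abs_neg, abs_mul, abs_mul]
    gcongr
    refine dL.trans ?_
    gcongr
    rw [div_eq_mul_one_div]
    gcongr
  have t7 : |-(v * f (h x) * c.S1 r * (et y + h x ^ 2 / h y ^ 3))| ≤
      V * cb * K * (et y + h x ^ 2 / h y ^ 3) := by
    rw [abs_neg, abs_mul, abs_mul, abs_mul,
      abs_of_pos (a := et y + h x ^ 2 / h y ^ 3) (by positivity)]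
    gcongr
  refine (abs_add_le _ _).trans ((add_le_add t1 ((abs_add_le _ _).trans (add_le_add t2
    ((abs_add_le _ _).trans (add_le_add t3 ((abs_add_le _ _).trans (add_le_add t4
    ((abs_add_le _ _).trans (add_le_add t5 ((abs_add_le _ _).trans
    (add_le_add t6 t7))))))))))).trans ?_)
  set P := h x ^ 2 / h y ^ 3
  have P0 : 0 ≤ P := by positivity
  have q1 : 0 ≤ cb * (U * et x) := by positivity
  have q2 : 0 ≤ cb * (U * T * h x * ℓ) := by positivity
  have q3 : 0 ≤ cb * (V * et y) := by positivity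
  have q4 : 0 ≤ cb * (V * P) := by positivity
  have q5 : 0 ≤ cb * (i * (U * T / h x)) := by positivity
  have q6 : 0 ≤ cb * I := by positivity
  obtain ⟨p1, p2, p3, p4, p5, p6⟩ := Kpoly hK'
  have r1 := mul_le_mul_of_nonneg_right p1 q1
  have r2 := mul_le_mul_of_nonneg_right p2 q2
  have r3 := mul_le_mul_of_nonneg_right p3 q3
  have r4 := mul_le_mul_of_nonneg_right p4 q4
  have r5 := mul_le_mul_of_nonneg_right p5 q5
  have r6 := mul_le_mul_of_nonneg_right p6 q6
  have e2 : U * (cb * K * i) * 1 * T * (1 / h x) = K * (cb * (i * (U * T / h x))) := by ring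
  rw [e2]
  linarith

theorem L2_int {g : ℝ → ℝ → ℝ} (hg : ∀ x ∈ Ioc a b, ∀ y ∈ Ioc a b, g x y = 0 ∨ (0 ≤ g x y ∧ x < y)) :
    L2 a b (fun x y => g x y * ∫ z in x..y, a4 h h1 F et x z) ≤
      Pool.Agent.TF.L3 a b (fun x z y => g x y * (iI x z y * a4 h h1 F et x z)) := by
  refine setLIntegral_mono' measurableSet_Ioc fun y hy =>
    setLIntegral_mono' measurableSet_Ioc fun x hx => ?_
  rcases hg x hx y hy with h0 | ⟨h0, hxy⟩
  · simp [h0]
  have ha : Continuous fun z => a4 h h1 F et x z :=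
    S.c_a4.comp (continuous_const.prodMk continuous_id)
  beta_reduce
  rw [← intervalIntegral.integral_const_mul, intervalIntegral.integral_of_le hxy.le,
    integral_Ioc_eq_integral_Ioo, ofReal_integral_eq_lintegral_ofReal]
  · calc ∫⁻ z in Ioo x y, ENNReal.ofReal (g x y * a4 h h1 F et x z)
        = ∫⁻ z in Ioo x y, ENNReal.ofReal (g x y * (iI x z y * a4 h h1 F et x z)) := by
          refine setLIntegral_congr_fun measurableSet_Ioo fun z hz => ?_
          simp only [iI, ind_pos (show x < z ∧ z < y from hz), one_mul]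
      _ ≤ _ := lintegral_mono_set (Ioo_subset_Ioc_self.trans (Ioc_subset_Ioc hx.1.le hy.2))
  · exact ((ha.const_mul _).integrableOn_Icc).mono_set Ioo_subset_Icc_self
  · exact Eventually.of_forall fun z => mul_nonneg h0 (S.a4_nn x z)

theorem err_bound {K Θ cw D0 cb Θ5 ε ε5 D5 : ℝ} {i : ℝ → ℝ} (hn : 3 ≤ n) (hK : n ^ 2 ≤ K)
    (hK' : 12 ≤ K) (hKc : c.C ≤ K) (hcb : 0 ≤ cb)
    (T : Fc a b K Θ β cw D0 h (fun x => |h1 x|) (fun x => |F x / h x|) et l0 l3 M
      (fun y => W1 c β (M y) * h y))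
    (hε : 0 < ε) (hε5 : 0 < ε5) (hD5 : 0 ≤ D5) (hΘ5 : 0 ≤ Θ5) (hm : Measurable i) (hi0 : ∀ x, 0 ≤ i x)
    (hi1 : ∀ x, i x ≤ 1)
    (hq : LI a b (fun x => |F x / h x| ^ 2 * et x * i x) ≤ ENNReal.ofReal D5)
    (h5 : ∀ x ∈ Icc a b, ∀ y ∈ Icc a b, W1 c β (M y) ≠ 0 → x < y → l0 y - l0 x ≤ 1 →
      |h1 x| ≤ Θ5 * (h x * et x))
    (c1 : ∀ x ∈ Icc a b, ∀ y ∈ Icc a b, W1 c β (M y) ≠ 0 → x < y →
      |f (h x)| ≤ cb ∧ |h x * f1 (h x)| ≤ cb * K ∧ |h x ^ 2 * f2 (h x)| ≤ cb * K * i x)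
    (c2 : ∀ x ∈ Icc a b, ∀ y ∈ Icc a b, W1 c β (M y) ≠ 0 → y ≤ x → f2 (h x) = 0) :
    |∫ y in a..b, W1 c β (M y) * h y * ∫ x in a..b, ee c f f1 f2 h h1 F et l0 l3 L0 L3 x y| ≤
      cb * (12 * K ^ 3) * (113 * K * (D0 / ε) + 480 * K ^ 8 * Θ ^ 4 * ε +
        (D5 / ε5 + ε5 * Θ5 ^ 2)) := by
  have hD := T.D00; have hΘ := T.Θ1; have hβ := T.β0
  have K0 : 0 ≤ K := by linarith
  have m1 := T.mB; have m2 := T.cww; have m3 := T.cuu; have m4 := T.cth
  have := S.ch; have := S.cet; have := S.cl3; have := S.cF; have := S.ch1; have := S.cM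
  have := W1_cont c β
  have e2 := T.est2 hε
  have e5 := T.est5 (Θ5 := Θ5) hε5 hD5 hΘ5 hm hi0 hi1 hq
    (fun x hx y hy hw => h5 x hx y hy (left_ne_zero_of_mul hw))
  have e3 := (S.L2_int (g := fun x y => W1 c β (M y) * h y * iB β M l0 h l3 x y) (by
    intro x _ y _
    by_cases hB : cB β M l0 h l3 x y
    · right
      exact ⟨mul_nonneg (T.w0 y) iB_nn, hB.1.1⟩
    · left; simp [iB_neg hB])).trans ((L3_mono fun x _ z _ y _ => le_of_eq (by
      simp only [a4]; ring)).trans (T.est3 hε))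
  have e6 := L2_add_le (by fun_prop) (by positivity) (by positivity) e5 e3
  have e7 := L2_add_le (by fun_prop) (by positivity) (by positivity) e2 e6
  have e8 := L2_cmul_le (c := cb * (12 * K ^ 3)) (by positivity) e7
  have e9 : ENNReal.ofReal |∫ y in a..b, W1 c β (M y) * h y *
      ∫ x in a..b, ee c f f1 f2 h h1 F et l0 l3 L0 L3 x y| ≤
      L2 a b (fun x y => W1 c β (M y) * h y * |ee c f f1 f2 h h1 F et l0 l3 L0 L3 x y|) := by
    refine (ofReal_abs_integral_le S.ab).trans (lintegral_mono fun y => ?_)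
    beta_reduce
    rw [← intervalIntegral.integral_const_mul]
    refine (ofReal_abs_integral_le S.ab).trans (le_of_eq ?_)
    unfold LI
    congr 1
    ext x
    beta_reduce
    rw [abs_mul, abs_of_nonneg (T.w0 y)]
  have e10 := e9.trans ((L2_mono fun x hx y hy => ?_).trans e8)
  · rw [ENNReal.ofReal_le_ofReal_iff (by positivity)] at e10
    refine e10.trans (mul_le_mul_of_nonneg_left ?_ (by positivity))
    have K1 : 1 ≤ K := by linarith
    have k3 : K ^ 2 ≤ K ^ 8 := pow_le_pow_right₀ K1 (by norm_num)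
    have k4 : Θ ^ 2 ≤ Θ ^ 4 := pow_le_pow_right₀ hΘ (by norm_num)
    have : K ^ 2 * Θ ^ 2 * ε ≤ K ^ 8 * Θ ^ 4 * ε := by gcongr
    linarith
  · by_cases hw : W1 c β (M y) = 0
    · simp [hw]
    have hx' := Ioc_subset_Icc_self hx
    have hy' := Ioc_subset_Icc_self hy
    have hM : M y ≤ 3 * β := by
      by_contra hc
      exact hw (W1_hi c hβ (not_le.1 hc).le)
    have := mul_le_mul_of_nonneg_left (S.ee_bound (c := c) (β := β) hn hK hK' hKc T.inv hcb (hi0 x)
      hx' hy' hM (c1 x hx' y hy' hw) (c2 x hx' y hy' hw)) (T.w0 y)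
    refine this.trans (le_of_eq ?_)
    ring

end Bx

end Pool.Agent.TF
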