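import Pool.Agent.P.MP_e83d7b_an.Lint

/-! Integral estimates for the error terms of the marker functional. -/

namespace Pool.Agent.TF

open Set MeasureTheory Filter Topology

open Classical in
/-- indicator of a proposition -/
noncomputable def ind (p : Prop) : ℝ := if p then 1 else 0

theorem ind_pos {p : Prop} (h : p) : ind p = 1 := by simp [ind, h]
theorem ind_neg {p : Prop} (h : ¬p) : ind p = 0 := by simp [ind, h]
theorem ind_nn (p : Prop) : 0 ≤ ind p := by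
  by_cases h : p
  · rw [ind_pos h]; norm_num
  · rw [ind_neg h]

theorem measurable_ind {X : Type*} [MeasurableSpace X] {p : X → Prop}
    (hp : MeasurableSet {x | p x}) : Measurable fun x => ind (p x) := by
  classical
  unfold ind
  convert Measurable.ite (f := fun _ => (1:ℝ)) (g := fun _ => (0:ℝ)) hp measurable_const
    measurable_const

theorem amgm {u c ε : ℝ} (hε : 0 < ε) : u * c ≤ u ^ 2 / ε + ε * c ^ 2 := by
  rw [div_add' _ _ _ hε.ne', le_div_iff₀ hε]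
  nlinarith [sq_nonneg (u - ε * c), sq_nonneg u, sq_nonneg (ε * c)]

/-- condition `L` -/
def cL (β : ℝ) (M l0 : ℝ → ℝ) (x y : ℝ) : Prop := x < y ∧ M y ≤ 3 * β ∧ l0 y - l0 x ≤ 1

/-- condition `B` -/
def cB (β : ℝ) (M l0 h l3 : ℝ → ℝ) (x y : ℝ) : Prop :=
  cL β M l0 x y ∧ h x ^ 2 * (l3 y - l3 x) ≤ 1

/-- indicator of the mass region -/
noncomputable def iR (β : ℝ) (M : ℝ → ℝ) (x : ℝ) : ℝ := ind (M x ≤ 3 * β)

/-- indicator of condition `L` -/
noncomputable def iL (β : ℝ) (M l0 : ℝ → ℝ) (x y : ℝ) : ℝ := ind (cL β M l0 x y)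

/-- indicator of condition `B` -/
noncomputable def iB (β : ℝ) (M l0 h l3 : ℝ → ℝ) (x y : ℝ) : ℝ := ind (cB β M l0 h l3 x y)

section
variable {β : ℝ} {M l0 h l3 : ℝ → ℝ} {x y : ℝ}
theorem iR_pos (hc : M x ≤ 3 * β) : iR β M x = 1 := ind_pos hc
theorem iR_neg (hc : ¬ M x ≤ 3 * β) : iR β M x = 0 := ind_neg hc
theorem iR_nn : 0 ≤ iR β M x := ind_nn _
theorem iL_pos (hc : cL β M l0 x y) : iL β M l0 x y = 1 := ind_pos hc
theorem iL_neg (hc : ¬ cL β M l0 x y) : iL β M l0 x y = 0 := ind_neg hc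
theorem iL_nn : 0 ≤ iL β M l0 x y := ind_nn _
theorem iB_pos (hc : cB β M l0 h l3 x y) : iB β M l0 h l3 x y = 1 := ind_pos hc
theorem iB_neg (hc : ¬ cB β M l0 h l3 x y) : iB β M l0 h l3 x y = 0 := ind_neg hc
theorem iB_nn : 0 ≤ iB β M l0 h l3 x y := ind_nn _
end

structure Fc (a b K Θ β cw D0 : ℝ) (h th uu et l0 l3 M w : ℝ → ℝ) : Prop where
  ab : a ≤ b
  ch : Continuous h
  cth : Continuous th
  cuu : Continuous uu
  cet : Continuous et
  cl0 : Continuous l0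
  cl3 : Continuous l3
  cM : Continuous M
  cww : Continuous w
  K1 : 1 ≤ K
  Θ1 : 1 ≤ Θ
  β0 : 0 < β
  cw0 : 0 ≤ cw
  cwK : cw * β ≤ K
  D00 : 0 ≤ D0
  pos : ∀ x, 0 < h x
  etp : ∀ x, 0 < et x
  th0 : ∀ x, 0 ≤ th x
  uu0 : ∀ x, 0 ≤ uu x
  dl0 : ∀ x ∈ Ioo a b, HasDerivAt l0 (et x) x
  dl3 : ∀ x ∈ Ioo a b, HasDerivAt l3 (1 / h x ^ 3) x
  dM : ∀ x ∈ Ioo a b, HasDerivAt M (h x) x
  Ma : -β ≤ M a
  inv : ∀ x ∈ Icc a b, 1 ≤ K * (h x * et x)
  anti : ∀ x ∈ Icc a b, ∀ y ∈ Icc a b, h x ≤ h y → h y * et y ≤ h x * et x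
  w0 : ∀ y, 0 ≤ w y
  wle : ∀ y, w y ≤ cw * h y
  w1 : LI a b w ≤ ENNReal.ofReal 1
  hq : LI a b (fun x => uu x ^ 2 * et x * iR β M x) ≤ ENNReal.ofReal D0
  f2 : ∀ x ∈ Icc a b, ∀ y ∈ Icc a b, x < y → l0 y - l0 x ≤ 1 →
    th x ≤ Θ * (h x * et x) ∨ th x * (l3 y - l3 x) ≤ 16 * (1 / h x ^ 2 + 1 / h y ^ 2)
  f4 : ∀ z ∈ Icc a b,
    (∀ x ∈ Icc a b, x < z → l0 z - l0 x ≤ 1 → h x ^ 2 * (l3 z - l3 x) ≤ 1 →
      (h x ≤ K * h z ∧ et z ≤ K * et x ∧ th z ≤ Θ * (h z * et z)) ∨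
        (th z ≤ Θ ∧ h x ^ 2 ≤ Θ * h z ^ 2)) ∨
    (∀ x ∈ Icc a b, x < z → l0 z - l0 x ≤ 1 → h x ≤ h z ∧ th z * (z - x) ≤ 2 * h z) ∨
    (∀ y ∈ Icc a b, z < y → l0 y - l0 z ≤ 1 → h y ≤ h z ∧ th z * (y - z) ≤ 2 * h z)

variable {a b K Θ β cw D0 : ℝ} {h th uu et l0 l3 M w : ℝ → ℝ}

namespace Fc

theorem mono_gen {l g : ℝ → ℝ} (hl : Continuous l) (hd : ∀ x ∈ Ioo a b, HasDerivAt l (g x) x)
    (hg : ∀ x, 0 ≤ g x) {x y : ℝ} (hx : x ∈ Icc a b) (hy : y ∈ Icc a b) (hxy : x ≤ y) :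
    l x ≤ l y :=
  le_of_deriv_nonneg hxy hl.continuousOn
    (fun z hz => hd z ⟨hx.1.trans_lt hz.1, hz.2.trans_le hy.2⟩) fun z _ => hg z

variable (S : Fc a b K Θ β cw D0 h th uu et l0 l3 M w)
include S

theorem Mmono {x y : ℝ} (hx : x ∈ Icc a b) (hy : y ∈ Icc a b) (hxy : x ≤ y) : M x ≤ M y :=
  mono_gen S.cM S.dM (fun x => (S.pos x).le) hx hy hxy

theorem l0mono {x y : ℝ} (hx : x ∈ Icc a b) (hy : y ∈ Icc a b) (hxy : x ≤ y) : l0 x ≤ l0 y :=
  mono_gen S.cl0 S.dl0 (fun x => (S.etp x).le) hx hy hxy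

theorem l3mono {x y : ℝ} (hx : x ∈ Icc a b) (hy : y ∈ Icc a b) (hxy : x ≤ y) : l3 x ≤ l3 y :=
  mono_gen S.cl3 S.dl3 (fun x => by have := S.pos x; positivity) hx hy hxy

theorem mR : Measurable (iR β M) :=
  measurable_ind (measurableSet_le S.cM.measurable measurable_const)

theorem sL : MeasurableSet {p : ℝ × ℝ | cL β M l0 p.1 p.2} := by
  have h1 := S.cM
  have h2 := S.cl0
  refine (measurableSet_lt measurable_fst measurable_snd).inter (MeasurableSet.inter ?_ ?_)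
  · exact measurableSet_le (f := fun p : ℝ × ℝ => M p.2) (by fun_prop) measurable_const
  · exact measurableSet_le (f := fun p : ℝ × ℝ => l0 p.2 - l0 p.1) (by fun_prop) measurable_const

theorem mL : Measurable fun p : ℝ × ℝ => iL β M l0 p.1 p.2 := measurable_ind S.sL

theorem mB : Measurable fun p : ℝ × ℝ => iB β M l0 h l3 p.1 p.2 := by
  have h1 := S.ch
  have h2 := S.cl3
  exact measurable_ind (S.sL.inter (measurableSet_le
    (f := fun p : ℝ × ℝ => h p.1 ^ 2 * (l3 p.2 - l3 p.1)) (by fun_prop) measurable_const))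

theorem aR : LI a b (fun x => h x * iR β M x) ≤ ENNReal.ofReal (4 * β) := by
  refine LI_right (x := a) (g := h) (l := M) (left_mem_Icc.2 S.ab) (by linarith [S.β0]) S.ch
    (fun y _ => (S.pos y).le) S.cM S.dM fun y hy => ?_
  by_cases hc : M y ≤ 3 * β
  · right
    rw [iR_pos hc]
    exact ⟨hy.1.le, by linarith [S.Ma], by simp⟩
  · left; rw [iR_neg hc]; simp

theorem aL1 {y : ℝ} (hy : y ∈ Ioc a b) :
    LI a b (fun x => et x * iL β M l0 x y) ≤ ENNReal.ofReal 1 := by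
  refine LI_left (y := y) (g := et) (l := l0) (Ioc_subset_Icc_self hy) zero_le_one S.cet
    (fun y _ => (S.etp y).le) S.cl0 S.dl0 fun x _ => ?_
  by_cases hc : cL β M l0 x y
  · right
    rw [iL_pos hc]
    exact ⟨hc.1.le, hc.2.2, by simp⟩
  · left; rw [iL_neg hc]; simp

theorem aL2 {x : ℝ} (hx : x ∈ Ioc a b) :
    LI a b (fun y => et y * iL β M l0 x y) ≤ ENNReal.ofReal 1 := by
  refine LI_right (x := x) (g := et) (l := l0) (Ioc_subset_Icc_self hx) zero_le_one S.cet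
    (fun y _ => (S.etp y).le) S.cl0 S.dl0 fun y _ => ?_
  by_cases hc : cL β M l0 x y
  · right
    rw [iL_pos hc]
    exact ⟨hc.1.le, hc.2.2, by simp⟩
  · left; rw [iL_neg hc]; simp

theorem aB {x : ℝ} (hx : x ∈ Ioc a b) :
    LI a b (fun y => h x ^ 2 / h y ^ 3 * iB β M l0 h l3 x y) ≤ ENNReal.ofReal 1 := by
  have h1 := S.ch
  have h2 := S.cl3
  refine LI_right (x := x) (g := fun y => h x ^ 2 * (1 / h y ^ 3)) (l := fun y => h x ^ 2 * l3 y)
    (Ioc_subset_Icc_self hx) zero_le_one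
    (continuous_const.mul (continuous_const.div (by fun_prop) fun y => (pow_pos (S.pos y) 3).ne'))
    (fun y _ => by have := S.pos y; positivity) (by fun_prop)
    (fun y hy => (S.dl3 y hy).const_mul _) fun y _ => ?_
  by_cases hc : cB β M l0 h l3 x y
  · right
    rw [iB_pos hc]
    refine ⟨hc.1.1.le, by linarith [hc.2], ?_⟩
    rw [mul_one, mul_one_div]
  · left; rw [iB_neg hc]; simp

theorem Rx {x y : ℝ} (hx : x ∈ Ioc a b) (hy : y ∈ Ioc a b) (hc : cL β M l0 x y) :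
    M x ≤ 3 * β :=
  (S.Mmono (Ioc_subset_Icc_self hx) (Ioc_subset_Icc_self hy) hc.1.le).trans hc.2.1

theorem invh {x : ℝ} (hx : x ∈ Icc a b) : 1 / h x ≤ K * et x := by
  rw [div_le_iff₀ (S.pos x)]; linarith [S.inv x hx]

theorem invet {x : ℝ} (hx : x ∈ Icc a b) : 1 / et x ≤ K * h x := by
  rw [div_le_iff₀ (S.etp x)]; linarith [S.inv x hx]

/-- general first type estimate -/
theorem E1g {i : ℝ → ℝ} {c ε D : ℝ} (hε : 0 < ε) (hD : 0 ≤ D) (hm : Measurable i)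
    (hi0 : ∀ x, 0 ≤ i x) (hi1 : ∀ x, i x ≤ 1)
    (hq : LI a b (fun x => uu x ^ 2 * et x * i x) ≤ ENNReal.ofReal D) :
    L2 a b (fun x y => w y * (iL β M l0 x y * i x * (uu x * et x * c))) ≤
      ENNReal.ofReal (D / ε + ε * c ^ 2) := by
  have h1 := S.cuu
  have h2 := S.cet
  have := L2_prod (a := a) (b := b) (g := w) (γ := D / ε + ε * c ^ 2) (Γ := 1)
    (c := fun x y => iL β M l0 x y * i x * (uu x * et x * c)) (by positivity)
    (fun y _ => S.w0 y) ?_ S.w1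
  · simpa using this
  intro y hy
  have e1 := LI_cmul_le (c := 1 / ε) (by positivity) hq
  have e2 := LI_cmul_le (c := ε * c ^ 2) (by positivity) (S.aL1 hy)
  have e3 := LI_add_le (by fun_prop) (by positivity) (by positivity) e1 e2
  rw [mul_one, one_div_mul_eq_div] at e3
  refine le_trans (LI_mono fun x _ => ?_) e3
  have he := S.etp x
  have := hi0 x
  by_cases hc : cL β M l0 x y
  · rw [iL_pos hc]
    have h3 := mul_le_mul_of_nonneg_left (amgm (u := uu x) (c := c) hε) (mul_nonneg he.le this)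
    have h4 : et x * i x * (ε * c ^ 2) ≤ et x * 1 * (ε * c ^ 2) := by gcongr; exact hi1 x
    have h5 : 1 / ε * (uu x ^ 2 * et x * i x) = et x * i x * (uu x ^ 2 / ε) := by ring
    nlinarith
  · rw [iL_neg hc]
    simp only [zero_mul, mul_zero, add_zero]
    positivity

theorem E1 {c ε : ℝ} (hε : 0 < ε) :
    L2 a b (fun x y => w y * (iL β M l0 x y * (uu x * et x * c))) ≤
      ENNReal.ofReal (D0 / ε + ε * c ^ 2) := by
  refine le_trans (L2_mono fun x hx y hy => ?_) (S.E1g (i := iR β M)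
    (c := c) hε S.D00 S.mR (fun x => ind_nn _) (fun x => ?_) S.hq)
  · by_cases hc : cL β M l0 x y
    · rw [iR_pos (S.Rx hx hy hc)]; simp
    · rw [iL_neg hc]; simp
  · by_cases hc : M x ≤ 3 * β
    · rw [iR_pos hc]
    · rw [iR_neg hc]; norm_num

theorem Aq1 : L2 a b (fun x y => (uu y ^ 2 * et y * iR β M y) *
    (h x * iR β M x)) ≤ ENNReal.ofReal (4 * β * D0) :=
  L2_prod (by linarith [S.β0]) (fun y _ => by
    have := S.etp y; have : 0 ≤ iR β M y := ind_nn _; positivity) (fun _ _ => S.aR) S.hq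

theorem Aq2 : L2 a b (fun x y => (h y * iR β M y) *
    (uu x ^ 2 * et x * iR β M x)) ≤ ENNReal.ofReal (D0 * (4 * β)) :=
  L2_prod S.D00 (fun y _ => by
    have := S.pos y; have : 0 ≤ iR β M y := ind_nn _; positivity) (fun _ _ => S.hq) S.aR

theorem Ad : L2 a b (fun x y => (h y * iR β M y) *
    (et x * iL β M l0 x y)) ≤ ENNReal.ofReal (1 * (4 * β)) :=
  L2_prod zero_le_one (fun y _ => by
    have := S.pos y; have : 0 ≤ iR β M y := ind_nn _; positivity) (fun _ hy => S.aL1 hy) S.aR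

theorem Ae : L2 a b (fun x y => (h x * iR β M x) *
    (et y * iL β M l0 x y)) ≤ ENNReal.ofReal (1 * (4 * β)) := by
  have h1 := S.ch; have h2 := S.cet; have h3 := S.mR; have h4 := S.mL
  exact L2_prod' zero_le_one (by fun_prop) (fun y _ => by
    have := S.pos y; have : 0 ≤ iR β M y := ind_nn _; positivity) (fun _ hy => S.aL2 hy) S.aR

theorem Af : L2 a b (fun x y => (h x * iR β M x) *
    (h x ^ 2 / h y ^ 3 * iB β M l0 h l3 x y)) ≤ ENNReal.ofReal (1 * (4 * β)) := by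
  have h1 := S.ch; have h3 := S.mR; have h4 := S.mB
  exact L2_prod' zero_le_one (by fun_prop) (fun y _ => by
    have := S.pos y; have : 0 ≤ iR β M y := ind_nn _; positivity) (fun _ hy => S.aB hy) S.aR

end Fc

end Pool.Agent.TF
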