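import Pool.Agent.P.MP_e83d7b_an.Est

/-! Integral estimates, second part. -/

namespace Pool.Agent.TF

open Set MeasureTheory Filter Topology

/-- indicator of a short interval around `z` -/
noncomputable def iS (th h : ℝ → ℝ) (z x : ℝ) : ℝ := ind (th z * |z - x| ≤ 2 * h z)

/-- indicator of `x < z < y` -/
noncomputable def iI (x z y : ℝ) : ℝ := ind (x < z ∧ z < y)

variable {a b K Θ β cw D0 : ℝ} {h th uu et l0 l3 M w : ℝ → ℝ}

namespace Fc

variable (S : Fc a b K Θ β cw D0 h th uu et l0 l3 M w)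
include S

theorem mS : Measurable fun p : ℝ × ℝ => iS th h p.1 p.2 := by
  have h1 := S.ch
  have h2 := S.cth
  exact measurable_ind (measurableSet_le (f := fun p : ℝ × ℝ => th p.1 * |p.1 - p.2|)
    (g := fun p : ℝ × ℝ => 2 * h p.1) (by fun_prop) (by fun_prop))

theorem aS (z : ℝ) : LI a b (fun x => th z / h z * iS th h z x) ≤ ENNReal.ofReal 4 := by
  refine LI_short (z := z) (S.th0 z) (S.pos z) fun x => ?_
  by_cases hc : th z * |z - x| ≤ 2 * h z
  · right
    rw [iS, ind_pos hc]
    exact ⟨hc, by simp⟩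
  · left; rw [iS, ind_neg hc]; simp

theorem EII {ε : ℝ} (hε : 0 < ε) :
    L2 a b (fun x y => cw * (iB β M l0 h l3 x y * (uu y * (et y * h y + h x ^ 2 / h y ^ 2)))) ≤
      ENNReal.ofReal (8 * K * (D0 / ε) + 12 * K ^ 2 * ε) := by
  have h1 := S.ch; have h2 := S.cet; have h3 := S.mR; have h4 := S.mL; have h5 := S.cuu
  have hβ := S.β0; have hD := S.D00; have hK := S.K1; have hcw := S.cw0
  have e1 := L2_cmul_le (c := 2 / ε) (by positivity) S.Aq1
  have e2 := L2_cmul_le (c := ε) hε.le S.Ad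
  have e3 := L2_cmul_le (c := ε) hε.le S.Ae
  have e4 := L2_cmul_le (c := ε * K) (by positivity) S.Af
  have e5 := L2_add_le (by fun_prop) (by positivity) (by positivity) e3 e4
  have e6 := L2_add_le (by fun_prop) (by positivity) (by positivity) e2 e5
  have e7 := L2_add_le (by fun_prop) (by positivity) (by positivity) e1 e6
  have e8 := L2_cmul_le hcw e7
  refine le_trans (L2_mono fun x hx y hy => ?_) (e8.trans (ENNReal.ofReal_le_ofReal ?_))
  · refine mul_le_mul_of_nonneg_left ?_ hcw
    have px := S.pos x; have py := S.pos y; have ex := S.etp x; have ey := S.etp y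
    by_cases hc : cB β M l0 h l3 x y
    · rw [iB_pos hc, iL_pos hc.1, iR_pos (S.Rx hx hy hc.1), iR_pos hc.1.2.1]
      have a1 := mul_le_mul_of_nonneg_left (amgm (u := uu y) (c := h y / h x) hε)
        (mul_pos ey px).le
      have a2 := mul_le_mul_of_nonneg_left (amgm (u := uu y) (c := h x / (h y ^ 2 * et y)) hε)
        (mul_pos ey px).le
      have a3 : et y * h x * (h y / h x) ^ 2 ≤ h y * et x + h x * et y := by
        have : et y * h x * (h y / h x) ^ 2 = et y * h y ^ 2 / h x := by field_simp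
        rw [this, div_le_iff₀ px]
        rcases le_total (h x) (h y) with hxy | hxy
        · have := S.anti x (Ioc_subset_Icc_self hx) y (Ioc_subset_Icc_self hy) hxy
          nlinarith [mul_pos (mul_pos px px) ey, mul_le_mul_of_nonneg_left this py.le]
        · have := pow_le_pow_left₀ py.le hxy 2
          nlinarith [mul_pos (mul_pos px py) ex, mul_le_mul_of_nonneg_left this ey.le]
      have a4 : et y * h x * (h x / (h y ^ 2 * et y)) ^ 2 ≤ K * (h x * (h x ^ 2 / h y ^ 3)) := by
        have e : et y * h x * (h x / (h y ^ 2 * et y)) ^ 2 = (1 / et y) * (h x ^ 3 / h y ^ 4) := by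
          field_simp
        have e' : K * (h x * (h x ^ 2 / h y ^ 3)) = (K * h y) * (h x ^ 3 / h y ^ 4) := by
          field_simp
        rw [e, e']
        exact mul_le_mul_of_nonneg_right (S.invet (Ioc_subset_Icc_self hy)) (by positivity)
      have b1 : et y * h x * (uu y * (h y / h x)) = uu y * (et y * h y) := by field_simp
      have b2 : et y * h x * (uu y * (h x / (h y ^ 2 * et y))) = uu y * (h x ^ 2 / h y ^ 2) := by
        field_simp
      have b3 : 2 / ε * (uu y ^ 2 * et y * 1 * (h x * 1)) = 2 * (et y * h x * (uu y ^ 2 / ε)) := by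
        ring
      rw [b1] at a1
      rw [b2] at a2
      rw [b3]
      have a5 := mul_le_mul_of_nonneg_left a3 hε.le
      have a6 := mul_le_mul_of_nonneg_left a4 hε.le
      nlinarith
    · rw [iB_neg hc]
      have : 0 ≤ iR β M x := iR_nn
      have : 0 ≤ iR β M y := iR_nn
      have : 0 ≤ iL β M l0 x y := iL_nn
      simp only [zero_mul, mul_zero, add_zero]
      positivity
  · have hk := S.cwK
    have : cw * (2 / ε * (4 * β * D0) + (ε * (1 * (4 * β)) + (ε * (1 * (4 * β)) +
        ε * K * (1 * (4 * β))))) = (cw * β) * (8 * (D0 / ε) + (8 + 4 * K) * ε) := by ring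
    rw [this]
    have h6 : 0 ≤ D0 / ε := by positivity
    calc (cw * β) * (8 * (D0 / ε) + (8 + 4 * K) * ε)
        ≤ K * (8 * (D0 / ε) + (8 * K + 4 * K) * ε) := by gcongr; linarith
      _ = _ := by ring

theorem EIII {ε : ℝ} (hε : 0 < ε) :
    L2 a b (fun x y => cw * (iB β M l0 h l3 x y * (uu x * (h x / h y)))) ≤
      ENNReal.ofReal (4 * K * (D0 / ε) + 4 * K ^ 2 * ε) := by
  have h1 := S.ch; have h2 := S.cet; have h3 := S.mR; have h4 := S.mL; have h5 := S.cuu
  have hβ := S.β0; have hD := S.D00; have hK := S.K1; have hcw := S.cw0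
  have e1 := L2_cmul_le (c := 1 / ε) (by positivity) S.Aq2
  have e4 := L2_cmul_le (c := ε * K) (by positivity) S.Af
  have e7 := L2_add_le (by fun_prop) (by positivity) (by positivity) e1 e4
  have e8 := L2_cmul_le hcw e7
  refine le_trans (L2_mono fun x hx y hy => ?_) (e8.trans (ENNReal.ofReal_le_ofReal ?_))
  · refine mul_le_mul_of_nonneg_left ?_ hcw
    have px := S.pos x; have py := S.pos y; have ex := S.etp x; have ey := S.etp y
    by_cases hc : cB β M l0 h l3 x y
    · rw [iB_pos hc, iR_pos (S.Rx hx hy hc.1), iR_pos hc.1.2.1]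
      have a2 := mul_le_mul_of_nonneg_left (amgm (u := uu x) (c := h x / (h y ^ 2 * et x)) hε)
        (mul_pos ex py).le
      have a4 : et x * h y * (h x / (h y ^ 2 * et x)) ^ 2 ≤ K * (h x * (h x ^ 2 / h y ^ 3)) := by
        have e : et x * h y * (h x / (h y ^ 2 * et x)) ^ 2 = (1 / et x) * (h x ^ 2 / h y ^ 3) := by
          field_simp
        rw [e, ← mul_assoc]
        exact mul_le_mul_of_nonneg_right (S.invet (Ioc_subset_Icc_self hx)) (by positivity)
      have b2 : et x * h y * (uu x * (h x / (h y ^ 2 * et x))) = uu x * (h x / h y) := by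
        field_simp
      have b3 : 1 / ε * (h y * 1 * (uu x ^ 2 * et x * 1)) = (et x * h y * (uu x ^ 2 / ε)) := by
        ring
      rw [b2] at a2
      rw [b3]
      have a6 := mul_le_mul_of_nonneg_left a4 hε.le
      nlinarith
    · rw [iB_neg hc]
      have : 0 ≤ iR β M x := iR_nn
      have : 0 ≤ iR β M y := iR_nn
      simp only [zero_mul, mul_zero, add_zero]
      positivity
  · have hk := S.cwK
    have : cw * (1 / ε * (D0 * (4 * β)) + ε * K * (1 * (4 * β)))
        = (cw * β) * (4 * (D0 / ε) + 4 * K * ε) := by ring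
    rw [this]
    have h6 : 0 ≤ D0 / ε := by positivity
    calc (cw * β) * (4 * (D0 / ε) + 4 * K * ε) ≤ K * (4 * (D0 / ε) + 4 * K * ε) := by gcongr
      _ = _ := by ring

theorem est2 {ε : ℝ} (hε : 0 < ε) :
    L2 a b (fun x y => w y * (iB β M l0 h l3 x y * (uu x * et x +
      uu x * th x * h x * (l3 y - l3 x) + uu y * (et y + h x ^ 2 / h y ^ 3)))) ≤
      ENNReal.ofReal (73 * K * (D0 / ε) + 400 * K ^ 2 * Θ ^ 2 * ε) := by
  have h1 := S.ch; have h2 := S.cet; have h3 := S.mB; have h4 := S.mL; have h5 := S.cuu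
  have h6 := S.cww
  have hβ := S.β0; have hD := S.D00; have hK := S.K1; have hcw := S.cw0; have hΘ := S.Θ1
  have e1 := S.E1 (c := 1 + Θ + 16 * K) hε
  have e2 := L2_cmul_le (c := 16) (by norm_num) (S.EIII hε)
  have e3 := L2_add_le (by fun_prop) (by positivity) (by positivity) e2 (S.EII hε)
  have e4 := L2_add_le (by fun_prop) (by positivity) (by positivity) e1 e3
  refine le_trans (L2_mono fun x hx y hy => ?_) (e4.trans (ENNReal.ofReal_le_ofReal ?_))
  · have px := S.pos x; have py := S.pos y; have ex := S.etp x; have ey := S.etp y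
    have ux := S.uu0 x; have uy := S.uu0 y; have wy := S.w0 y; have wl := S.wle y
    have tx := S.th0 x
    by_cases hc : cB β M l0 h l3 x y
    · rw [iB_pos hc, iL_pos hc.1]
      simp only [one_mul]
      have a1 : w y * (uu y * (et y + h x ^ 2 / h y ^ 3)) ≤
          cw * (uu y * (et y * h y + h x ^ 2 / h y ^ 2)) := by
        have : cw * (uu y * (et y * h y + h x ^ 2 / h y ^ 2)) =
          (cw * h y) * (uu y * (et y + h x ^ 2 / h y ^ 3)) := by field_simp
        rw [this]
        exact mul_le_mul_of_nonneg_right wl (by positivity)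
      have a2 : w y * (uu x * th x * h x * (l3 y - l3 x)) ≤
          w y * (uu x * et x * (Θ + 16 * K)) + 16 * (cw * (uu x * (h x / h y))) := by
        rcases S.f2 x (Ioc_subset_Icc_self hx) y (Ioc_subset_Icc_self hy) hc.1.1 hc.1.2.2 with
          h7 | h7
        · have b1 : th x * h x * (l3 y - l3 x) ≤ et x * Θ := by
            have l := S.l3mono (Ioc_subset_Icc_self hx) (Ioc_subset_Icc_self hy) hc.1.1.le
            calc th x * h x * (l3 y - l3 x) ≤ Θ * (h x * et x) * h x * (l3 y - l3 x) := by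
                  gcongr
              _ = et x * Θ * (h x ^ 2 * (l3 y - l3 x)) := by ring
              _ ≤ et x * Θ * 1 := by gcongr; exact hc.2
              _ = _ := by ring
          have b2 := mul_le_mul_of_nonneg_left b1 (mul_nonneg wy ux)
          have b3 : 0 ≤ 16 * (cw * (uu x * (h x / h y))) := by positivity
          have b4 : 0 ≤ w y * (uu x * et x * (16 * K)) := by positivity
          nlinarith
        · have b1 := mul_le_mul_of_nonneg_left h7 (show 0 ≤ w y * uu x * h x by positivity)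
          have b2 : w y * uu x * h x * (16 * (1 / h x ^ 2 + 1 / h y ^ 2)) =
              16 * (w y * uu x * (1 / h x)) + 16 * (w y * (uu x * (h x / h y ^ 2))) := by
            field_simp
          have b3 := mul_le_mul_of_nonneg_left (S.invh (Ioc_subset_Icc_self hx))
            (mul_nonneg wy ux)
          have b4 : w y * (uu x * (h x / h y ^ 2)) ≤ cw * (uu x * (h x / h y)) := by
            have : cw * (uu x * (h x / h y)) = (cw * h y) * (uu x * (h x / h y ^ 2)) := by
              field_simp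
            rw [this]
            exact mul_le_mul_of_nonneg_right wl (by positivity)
          have b5 : 0 ≤ w y * (uu x * et x * Θ) := by positivity
          nlinarith
      nlinarith
    · rw [iB_neg hc]
      have : 0 ≤ iL β M l0 x y := iL_nn
      simp only [zero_mul, mul_zero, add_zero]
      positivity
  · have h7 : 0 ≤ D0 / ε := by positivity
    have h8 : (1 + Θ + 16 * K) ^ 2 ≤ (18 * K * Θ) ^ 2 := by
      gcongr
      nlinarith
    have h9 : K ^ 2 ≤ K ^ 2 * Θ ^ 2 := le_mul_of_one_le_right (by positivity) (one_le_pow₀ hΘ)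
    have h10 := mul_le_mul_of_nonneg_left h8 hε.le
    have h11 := mul_le_mul_of_nonneg_left h9 hε.le
    nlinarith

theorem est5 {i : ℝ → ℝ} {Θ5 ε D : ℝ} (hε : 0 < ε) (hD : 0 ≤ D) (hΘ5 : 0 ≤ Θ5)
    (hm : Measurable i) (hi0 : ∀ x, 0 ≤ i x) (hi1 : ∀ x, i x ≤ 1)
    (hq : LI a b (fun x => uu x ^ 2 * et x * i x) ≤ ENNReal.ofReal D)
    (h5 : ∀ x ∈ Icc a b, ∀ y ∈ Icc a b, w y ≠ 0 → x < y → l0 y - l0 x ≤ 1 →
      th x ≤ Θ5 * (h x * et x)) :
    L2 a b (fun x y => w y * (iB β M l0 h l3 x y * (i x * (uu x * th x / h x)))) ≤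
      ENNReal.ofReal (D / ε + ε * Θ5 ^ 2) := by
  refine le_trans (L2_mono fun x hx y hy => ?_) (S.E1g (c := Θ5) hε hD hm hi0 hi1 hq)
  have px := S.pos x; have ex := S.etp x; have ux := S.uu0 x; have wy := S.w0 y
  have ix := hi0 x
  by_cases hw : w y = 0
  · simp [hw]
  by_cases hc : cB β M l0 h l3 x y
  · rw [iB_pos hc, iL_pos hc.1]
    simp only [one_mul]
    have := h5 x (Ioc_subset_Icc_self hx) y (Ioc_subset_Icc_self hy) hw hc.1.1 hc.1.2.2
    gcongr
    rw [div_le_iff₀ px]
    nlinarith [mul_le_mul_of_nonneg_left this ux]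
  · rw [iB_neg hc]
    have : 0 ≤ iL β M l0 x y := iL_nn
    simp only [zero_mul, mul_zero]
    positivity

theorem ptN {ε x z : ℝ} (hε : 0 < ε) (hx : x ∈ Icc a b) (hz : z ∈ Icc a b)
    (hN : (h x ≤ K * h z ∧ et z ≤ K * et x ∧ th z ≤ Θ * (h z * et z)) ∨
        (th z ≤ Θ ∧ h x ^ 2 ≤ Θ * h z ^ 2)) :
    uu z * th z * (et z / h z + h x ^ 2 / h z ^ 4) ≤
      et x * ((1 + K) / ε * (uu z ^ 2 * et z) +
        ε * (4 * K ^ 8 * Θ ^ 4) * (et z + h x ^ 2 / h z ^ 3)) := by
  have px := S.pos x; have pz := S.pos z; have ex := S.etp x; have ez := S.etp z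
  have uz := S.uu0 z; have tz := S.th0 z; have hK := S.K1; have hΘ := S.Θ1
  have ix := S.invh hx
  have iz := S.invh hz
  have jz := S.invet hz
  have am := mul_le_mul_of_nonneg_left (amgm (u := uu z) (c := 2 * K ^ 4 * Θ ^ 2) hε)
    (mul_pos ex ez).le
  have hq0 : 0 ≤ uu z ^ 2 * et z / ε := by positivity
  have hr0 : 0 ≤ h x ^ 2 / h z ^ 3 := by positivity
  have hΘ2 : Θ ≤ Θ ^ 2 := by nlinarith
  have hK4 : K ≤ K ^ 4 := le_self_pow₀ hK (by norm_num)
  have e0 : et x * ((1 + K) / ε * (uu z ^ 2 * et z) +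
        ε * (4 * K ^ 8 * Θ ^ 4) * (et z + h x ^ 2 / h z ^ 3)) =
      et x * et z * (uu z ^ 2 / ε + ε * (2 * K ^ 4 * Θ ^ 2) ^ 2) +
        K * et x * (uu z ^ 2 * et z / ε) +
          ε * (4 * K ^ 8 * Θ ^ 4) * et x * (h x ^ 2 / h z ^ 3) := by ring
  rw [e0]
  rcases hN with ⟨h1, h2, h3⟩ | ⟨h1, h2⟩
  · have b1 : th z * (et z / h z) ≤ K ^ 4 * Θ ^ 2 * (et x * et z) := by
      calc th z * (et z / h z) ≤ Θ * (h z * et z) * (et z / h z) := by gcongr
        _ = Θ * et z * et z := by field_simp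
        _ ≤ Θ ^ 2 * (K ^ 4 * et x) * et z := by
          gcongr
          exact h2.trans (by gcongr)
        _ = _ := by ring
    have b2 : th z * (h x ^ 2 / h z ^ 4) ≤ K ^ 4 * Θ ^ 2 * (et x * et z) := by
      calc th z * (h x ^ 2 / h z ^ 4) ≤ Θ * (h z * et z) * ((K * h z) ^ 2 / h z ^ 4) := by gcongr
        _ = Θ * K ^ 2 * et z * (1 / h z) := by field_simp
        _ ≤ Θ ^ 2 * K ^ 2 * et z * (K * (K * et x)) := by
          gcongr
          exact iz.trans (by gcongr)
        _ = _ := by ring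
    have b3 := mul_le_mul_of_nonneg_left (add_le_add b1 b2) uz
    have b4 : 0 ≤ K * et x * (uu z ^ 2 * et z / ε) := by positivity
    have b5 : 0 ≤ ε * (4 * K ^ 8 * Θ ^ 4) * et x * (h x ^ 2 / h z ^ 3) := by positivity
    nlinarith
  · have hxz : h x ≤ Θ * h z := by
      apply le_of_sq_le_sq₀ 
      calc h x ^ 2 ≤ Θ * h z ^ 2 := h2
        _ ≤ Θ ^ 2 * h z ^ 2 := by gcongr
        _ = (Θ * h z) ^ 2 := by ring
      positivity
    have b1 : th z * (et z / h z) ≤ K ^ 4 * Θ ^ 2 * (et x * et z) := by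
      have : 1 / h z ≤ Θ * (1 / h x) := by
        rw [mul_one_div, div_le_div_iff₀ pz px]; linarith
      calc th z * (et z / h z) = th z * et z * (1 / h z) := by ring
        _ ≤ Θ * et z * (Θ * (K ^ 4 * et x)) := by
          gcongr
          exact this.trans (by gcongr; exact ix.trans (by gcongr))
        _ = _ := by ring
    have am2 := mul_le_mul_of_nonneg_left
      (amgm (u := uu z) (c := th z * h x ^ 3 / (h z ^ 4 * et z)) hε)
      (show 0 ≤ 1 / h x * et z by positivity)
    have c1 : 1 / h x * et z * (uu z * (th z * h x ^ 3 / (h z ^ 4 * et z))) =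
        uu z * (th z * (h x ^ 2 / h z ^ 4)) := by field_simp
    have c2 : et z * (th z * h x ^ 3 / (h z ^ 4 * et z)) ^ 2 ≤
        K * Θ ^ 4 * (h x ^ 2 / h z ^ 3) := by
      calc et z * (th z * h x ^ 3 / (h z ^ 4 * et z)) ^ 2
          = th z ^ 2 * (1 / et z) * (h x ^ 2) ^ 2 * (h x ^ 2 / h z ^ 8) := by field_simp
        _ ≤ Θ ^ 2 * (K * h z) * (Θ * h z ^ 2) ^ 2 * (h x ^ 2 / h z ^ 8) := by gcongr
        _ = _ := by field_simp
    have c3 : 1 / h x * et z * (uu z ^ 2 / ε + ε * (th z * h x ^ 3 / (h z ^ 4 * et z)) ^ 2) ≤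
        K * et x * (uu z ^ 2 * et z / ε + ε * (K * Θ ^ 4 * (h x ^ 2 / h z ^ 3))) := by
      have : 1 / h x * et z * (uu z ^ 2 / ε + ε * (th z * h x ^ 3 / (h z ^ 4 * et z)) ^ 2) =
        1 / h x * (uu z ^ 2 * et z / ε +
          ε * (et z * (th z * h x ^ 3 / (h z ^ 4 * et z)) ^ 2)) := by ring
      rw [this]
      gcongr
    have c4 : K * et x * (ε * (K * Θ ^ 4 * (h x ^ 2 / h z ^ 3))) ≤
        ε * (4 * K ^ 8 * Θ ^ 4) * et x * (h x ^ 2 / h z ^ 3) := by
      have : K ^ 2 ≤ 4 * K ^ 8 := by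
        have := pow_le_pow_right₀ hK (show 2 ≤ 8 by norm_num)
        nlinarith [pow_pos (show 0 < K by linarith) 8]
      calc K * et x * (ε * (K * Θ ^ 4 * (h x ^ 2 / h z ^ 3)))
          = ε * (K ^ 2 * Θ ^ 4) * et x * (h x ^ 2 / h z ^ 3) := by ring
        _ ≤ _ := by gcongr
    rw [c1] at am2
    have b3 := mul_le_mul_of_nonneg_left b1 uz
    have b4 : 0 ≤ uu z * (K ^ 4 * Θ ^ 2 * (et x * et z)) := by positivity
    nlinarith
where
  le_of_sq_le_sq₀ {u v : ℝ} (h : u ^ 2 ≤ v ^ 2) (hv : 0 ≤ v) : u ≤ v :=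
    (le_abs_self u).trans (abs_le_of_sq_le_sq' h hv |> fun h => abs_le.2 h)

theorem est3 {ε : ℝ} (hε : 0 < ε) :
    L3 a b (fun x z y => w y * (iB β M l0 h l3 x y * (iI x z y *
      (uu z * th z * (et z / h z + h x ^ 2 / h z ^ 4))))) ≤
      ENNReal.ofReal (40 * K * (D0 / ε) + 80 * K ^ 8 * Θ ^ 4 * ε) := by
  have h1 := S.ch; have h2 := S.cet; have h3 := S.mB; have h4 := S.mL; have h5 := S.cuu
  have h6 := S.cww; have h7 := S.mR; have h8 := S.mS; have h9 := S.cth
  have hβ := S.β0; have hD := S.D00; have hK := S.K1; have hcw := S.cw0; have hΘ := S.Θ1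
  have eN := L3_z (a := a) (b := b) (g := fun x y => w y * (et x * iL β M l0 x y))
    (c := fun x z _ => (1 + K) / ε * (uu z ^ 2 * et z * iR β M z) + ε * (4 * K ^ 8 * Θ ^ 4) *
      (et z * iL β M l0 x z + h x ^ 2 / h z ^ 3 * iB β M l0 h l3 x z))
    (γ := (1 + K) / ε * D0 + ε * (4 * K ^ 8 * Θ ^ 4) * (1 + 1)) (Γ := 1 * 1) (by positivity)
    (fun x _ y _ => mul_nonneg (S.w0 y) (mul_nonneg (S.etp x).le iL_nn))
    (fun x hx y _ => LI_add_le (by fun_prop) (by positivity) (by positivity)
      (LI_cmul_le (by positivity) S.hq) (LI_cmul_le (by positivity)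
        (LI_add_le (by fun_prop) zero_le_one zero_le_one (S.aL2 hx) (S.aB hx))))
    (L2_prod zero_le_one (fun y _ => S.w0 y) (fun y hy => S.aL1 hy) S.w1)
  have eP := L3_x (a := a) (b := b)
    (g := fun z y => w y * (iL β M l0 z y * (uu z * et z * (1 + K))))
    (c := fun x z _ => th z / h z * iS th h z x) (γ := 4) (by norm_num) (by fun_prop)
    (fun z _ y _ => by
      have := S.w0 y; have := S.uu0 z; have := S.etp z; have : 0 ≤ iL β M l0 z y := iL_nn
      positivity)
    (fun z _ _ _ => S.aS z) (S.E1 (c := 1 + K) hε)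
  have eM := L3_y (a := a) (b := b)
    (g := fun x z => cw * (iB β M l0 h l3 x z * (uu z * (et z * h z + h x ^ 2 / h z ^ 2))))
    (c := fun _ z y => th z / h z * iS th h z y) (γ := 4) (by norm_num) (by fun_prop)
    (fun x _ z _ => by
      have := S.pos z; have := S.uu0 z; have := S.etp z
      have : 0 ≤ iB β M l0 h l3 x z := iB_nn
      positivity)
    (fun _ _ z _ => S.aS z) (S.EII hε)
  have e1 := (L3_add (by fun_prop)).trans (add_le_add eP eM)
  have e2 := (L3_add (by fun_prop)).trans (add_le_add eN e1)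
  rw [← ENNReal.ofReal_add (by positivity) (by positivity),
    ← ENNReal.ofReal_add (by positivity) (by positivity)] at e2
  refine le_trans (L3_mono fun x hx z hz y hy => ?_) (e2.trans (ENNReal.ofReal_le_ofReal ?_))
  · have px := S.pos x; have pz := S.pos z; have ex := S.etp x; have ez := S.etp z
    have uz := S.uu0 z; have tz := S.th0 z; have wy := S.w0 y; have wl := S.wle y
    have hx' := Ioc_subset_Icc_self hx
    have hy' := Ioc_subset_Icc_self hy
    have hz' := Ioc_subset_Icc_self hz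
    have n1 : 0 ≤ iL β M l0 x y := iL_nn
    have n2 : 0 ≤ iL β M l0 x z := iL_nn
    have n3 : 0 ≤ iL β M l0 z y := iL_nn
    have n4 : 0 ≤ iB β M l0 h l3 x z := iB_nn
    have n5 : 0 ≤ iR β M z := iR_nn
    have n6 : 0 ≤ iS th h z x := ind_nn _
    have n7 : 0 ≤ iS th h z y := ind_nn _
    have tN : 0 ≤ w y * (et x * iL β M l0 x y) *
      ((1 + K) / ε * (uu z ^ 2 * et z * iR β M z) + ε * (4 * K ^ 8 * Θ ^ 4) *
      (et z * iL β M l0 x z + h x ^ 2 / h z ^ 3 * iB β M l0 h l3 x z)) := by positivity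
    have tP : 0 ≤ w y * (iL β M l0 z y * (uu z * et z * (1 + K))) *
      (th z / h z * iS th h z x) := by positivity
    have tM : 0 ≤ cw * (iB β M l0 h l3 x z * (uu z * (et z * h z + h x ^ 2 / h z ^ 2))) *
      (th z / h z * iS th h z y) := by positivity
    by_cases hc : cB β M l0 h l3 x y
    swap
    · rw [iB_neg hc]
      simp only [zero_mul, mul_zero]
      linarith
    by_cases hI : x < z ∧ z < y
    swap
    · rw [iI, ind_neg hI]
      simp only [zero_mul, mul_zero]
      linarith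
    have m1 := S.l0mono hx' hz' hI.1.le
    have m2 := S.l0mono hz' hy' hI.2.le
    have m3 := S.l3mono hz' hy' hI.2.le
    have hl := hc.1.2.2
    have hLzy : cL β M l0 z y := ⟨hI.2, hc.1.2.1, by linarith⟩
    have hRz := S.Rx hz hy hLzy
    have hBxz : cB β M l0 h l3 x z := ⟨⟨hI.1, hRz, by linarith⟩,
      le_trans (mul_le_mul_of_nonneg_left (by linarith) (sq_nonneg _)) hc.2⟩
    rw [iI, ind_pos hI, iB_pos hc]
    simp only [one_mul]
    rcases S.f4 z hz' with hN | hP | hM
    · have := mul_le_mul_of_nonneg_left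
        (S.ptN hε hx' hz' (hN x hx' hI.1 hBxz.1.2.2 hBxz.2)) wy
      rw [iL_pos hc.1, iL_pos hBxz.1, iB_pos hBxz, iR_pos hRz] at tN ⊢
      rw [iB_pos hBxz] at tM
      nlinarith
    · obtain ⟨k1, k2⟩ := hP x hx' hI.1 hBxz.1.2.2
      have k3 : iS th h z x = 1 := ind_pos (by rwa [abs_of_pos (by linarith [hI.1])])
      have k4 : et z / h z + h x ^ 2 / h z ^ 4 ≤ et z * (1 + K) / h z := by
        have : h x ^ 2 / h z ^ 4 ≤ K * et z / h z := by
          calc h x ^ 2 / h z ^ 4 ≤ h z ^ 2 / h z ^ 4 := by gcongr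
            _ = (1 / h z) / h z := by field_simp
            _ ≤ _ := by gcongr; exact S.invh hz'
        have e : et z * (1 + K) / h z = et z / h z + K * et z / h z := by ring
        linarith
      have k5 := mul_le_mul_of_nonneg_left k4 (show 0 ≤ w y * (uu z * th z) by positivity)
      rw [k3, iL_pos hLzy] at tP ⊢
      have e : w y * (1 * (uu z * et z * (1 + K))) * (th z / h z * 1) =
        w y * (uu z * th z) * (et z * (1 + K) / h z) := by ring
      rw [e]
      nlinarith
    · obtain ⟨k1, k2⟩ := hM y hy' hI.2 hLzy.2.2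
      have k3 : iS th h z y = 1 :=
        ind_pos (by rwa [abs_sub_comm, abs_of_pos (by linarith [hI.2])])
      have k4 : w y ≤ cw * h z := wl.trans (by gcongr)
      have k5 := mul_le_mul_of_nonneg_right k4
        (show 0 ≤ uu z * th z * (et z / h z + h x ^ 2 / h z ^ 4) by positivity)
      rw [k3, iB_pos hBxz] at tM ⊢
      rw [iB_pos hBxz] at tN
      have e : cw * (1 * (uu z * (et z * h z + h x ^ 2 / h z ^ 2))) * (th z / h z * 1) =
        cw * h z * (uu z * th z * (et z / h z + h x ^ 2 / h z ^ 4)) := by field_simp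
      rw [e]
      linarith
  · have k1 : 0 ≤ D0 / ε := by positivity
    have k2 : 1 ≤ Θ ^ 4 := one_le_pow₀ hΘ
    have k3 : K ^ 2 ≤ K ^ 8 := pow_le_pow_right₀ hK (by norm_num)
    have k4 : (1 + K) ^ 2 ≤ 4 * K ^ 2 := by nlinarith
    have k5 : K ^ 2 ≤ K ^ 8 * Θ ^ 4 := k3.trans (le_mul_of_one_le_right (by positivity) k2)
    have k6 := mul_le_mul_of_nonneg_left k4 hε.le
    have k7 := mul_le_mul_of_nonneg_left k5 hε.le
    have e : (1 + K) / ε * D0 = (1 + K) * (D0 / ε) := by ring
    rw [e]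
    have k8 : 0 ≤ K ^ 8 * Θ ^ 4 * ε := by positivity
    nlinarith

end Fc

end Pool.Agent.TF
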