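import Pool.Agent.P.MP_e83d7b_an.Basic

/-! Geometry of a single time slice. -/

namespace Pool.Agent.TF

open Set MeasureTheory Filter Topology

theorem rp_anti {n v w : ℝ} (hn : 3 ≤ n) (hv : 0 < v) (hvw : v ≤ w) :
    w * w ^ (2 - n) ≤ v * v ^ (2 - n) := by
  have hw : 0 < w := hv.trans_le hvw
  have e : ∀ x : ℝ, 0 < x → x * x ^ (2 - n) = x ^ (3 - n) := by
    intro x hx
    rw [show (3 - n) = 1 + (2 - n) by ring, Real.rpow_add hx, Real.rpow_one]
  rw [e v hv, e w hw]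
  exact Real.rpow_le_rpow_of_nonpos hv hvw (by linarith)

theorem rp_scale {n v A : ℝ} (hv : 0 < v) (hA : 0 < A) :
    v ^ (2 - n) = A ^ (n - 2) * (A * v) ^ (2 - n) := by
  rw [Real.mul_rpow hA.le hv.le, ← mul_assoc, ← Real.rpow_add hA]
  simp

theorem rp_deriv {n v : ℝ} (hv : 0 < v) :
    HasDerivAt (fun v : ℝ => v ^ (2 - n)) ((2 - n) * (v ^ (2 - n) / v)) v := by
  have := Real.hasDerivAt_rpow_const (x := v) (p := 2 - n) (Or.inl hv.ne')
  rwa [Real.rpow_sub_one hv.ne'] at this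

/-- the quantity `E = h h'' - h'^2/2` -/
noncomputable def EE (h h1 h2 : ℝ → ℝ) (x : ℝ) : ℝ := h x * h2 x - h1 x ^ 2 / 2

/-- Data of a time slice. -/
structure St0 (n s xs : ℝ) (h h1 h2 l0 : ℝ → ℝ) : Prop where
  hn : 3 ≤ n
  pos : ∀ x ∈ Ioc s xs, 0 < h x
  d0 : ∀ x ∈ Ioc s xs, HasDerivAt h (h1 x) x
  d1 : ∀ x ∈ Ioc s xs, HasDerivAt h1 (h2 x) x
  c2 : ∀ x ∈ Ioc s xs, ContinuousAt h2 x
  dl0 : ∀ x ∈ Ioc s xs, HasDerivAt l0 (h x ^ (2 - n)) x
  small : ∀ p ∈ Ioc s xs, ∃ a ∈ Ioo s p, h a < h p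

variable {n s xs : ℝ} {h h1 h2 l0 l3 : ℝ → ℝ}

theorem St0.sub (_ : St0 n s xs h h1 h2 l0) {a b : ℝ} (ha : a ∈ Ioc s xs) (hb : b ∈ Ioc s xs) :
    Icc a b ⊆ Ioc s xs := fun _ hx => ⟨ha.1.trans_le hx.1, hx.2.trans hb.2⟩

theorem St0.l0mono (S : St0 n s xs h h1 h2 l0) {a b : ℝ} (ha : a ∈ Ioc s xs) (hb : b ∈ Ioc s xs)
    (hab : a ≤ b) : l0 a ≤ l0 b :=
  le_of_deriv_nonneg' hab (fun x hx => S.dl0 x (S.sub ha hb hx)) fun x hx =>
    (Real.rpow_pos_of_pos (S.pos x (S.sub ha hb (Ioo_subset_Icc_self hx))) _).le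

theorem St0.closedT (S : St0 n s xs h h1 h2 l0) {a b : ℝ} (ha : a ∈ Ioc s xs)
    (hb : b ∈ Ioc s xs) : IsCompact (Icc a b ∩ {z | h z * h2 z - h1 z ^ 2 / 4 ≤ 0}) := by
  have hc : ContinuousOn (fun z => h z * h2 z - h1 z ^ 2 / 4) (Icc a b) := by
    intro z hz
    have hz' := S.sub ha hb hz
    exact (((S.d0 z hz').continuousAt.mul (S.c2 z hz')).sub
      (((S.d1 z hz').continuousAt.pow 2).div_const 4)).continuousWithinAt
  have := hc.preimage_isClosed_of_isClosed isClosed_Icc (isClosed_Iic (a := (0:ℝ)))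
  exact isCompact_Icc.of_isClosed_subset this inter_subset_left

/-- key differential inequality along a convex stretch -/
theorem St0.stretch (S : St0 n s xs h h1 h2 l0) {a b P : ℝ} (ha : a ∈ Ioc s xs)
    (hb : b ∈ Ioc s xs) (hab : a ≤ b) (hne : ∀ z ∈ Icc a b, h1 z ≠ 0)
    (hP : ∀ z ∈ Ioo a b, h z * h z ^ (2 - n) ≤ P)
    (hcv : ∀ z ∈ Ioo a b, 0 < h z * h2 z - h1 z ^ 2 / 4) :
    l0 b + 4 * P / h1 b ≤ l0 a + 4 * P / h1 a := by
  refine ge_of_deriv_nonpos' (G := fun z => l0 z + 4 * P / h1 z)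
    (G' := fun z => h z ^ (2 - n) + (0 * h1 z - 4 * P * h2 z) / h1 z ^ 2) hab ?_ ?_
  · intro z hz
    have hz' := S.sub ha hb hz
    exact (S.dl0 z hz').add ((hasDerivAt_const z (4 * P)).div (S.d1 z hz') (hne z hz))
  · intro z hz
    have hz1 := Ioo_subset_Icc_self hz
    have hz' := S.sub ha hb hz1
    have hp := S.pos z hz'
    have h1p : 0 < h1 z ^ 2 := pow_pos_of_ne (hne z hz1)
    have hP' := hP z hz
    have hc := hcv z hz
    have he : 0 < h z ^ (2 - n) := Real.rpow_pos_of_pos hp _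
    have hP0 : 0 < P := (mul_pos hp he).trans_le hP'
    show h z ^ (2 - n) + (0 * h1 z - 4 * P * h2 z) / h1 z ^ 2 ≤ 0
    have : h z ^ (2 - n) * h1 z ^ 2 ≤ 4 * P * h2 z := by
      have h3 : h z * (h z ^ (2 - n) * h1 z ^ 2) ≤ h z * (4 * P * h2 z) := by nlinarith
      exact le_of_mul_le_mul_left h3 hp
    rw [zero_mul, zero_sub, neg_div, ← sub_eq_add_neg, sub_nonpos, le_div_iff₀ h1p]
    exact this
where
  pow_pos_of_ne {x : ℝ} (hx : x ≠ 0) : 0 < x ^ 2 := by positivity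

theorem St0.h2pos (S : St0 n s xs h h1 h2 l0) {z : ℝ} (hz : z ∈ Ioc s xs)
    (hc : 0 < h z * h2 z - h1 z ^ 2 / 4) : 0 ≤ h2 z := by
  have hp := S.pos z hz
  by_contra hneg
  push Not at hneg
  nlinarith [sq_nonneg (h1 z)]

theorem St0.slr (S : St0 n s xs h h1 h2 l0) {p : ℝ} (hp : p ∈ Ioc s xs) (h1p : 0 < h1 p) :
    h1 p ≤ h1 xs ∨ ∃ q ∈ Icc p xs, h1 p ^ 2 ≤ -4 * EE h h1 h2 q ∧
      (l0 q - l0 p) * h1 p ≤ 4 * (h p * h p ^ (2 - n)) := by
  have hxs : xs ∈ Ioc s xs := ⟨hp.1.trans_le hp.2, le_rfl⟩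
  by_cases hT : (Icc p xs ∩ {z | h z * h2 z - h1 z ^ 2 / 4 ≤ 0}).Nonempty
  · right
    obtain ⟨q, ⟨hq, hq2⟩, hmin⟩ := (S.closedT hp hxs).exists_isLeast hT
    have hq' := S.sub hp hxs hq
    have hcv : ∀ z ∈ Ico p q, 0 < h z * h2 z - h1 z ^ 2 / 4 := by
      intro z hz
      by_contra hc
      have := hmin ⟨⟨hz.1, hz.2.le.trans hq.2⟩, not_lt.1 hc⟩
      linarith [hz.2]
    have hm : ∀ z ∈ Icc p q, h1 p ≤ h1 z := by
      intro z hz
      have hz' := S.sub hp hq' hz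
      refine le_of_deriv_nonneg' hz.1 (fun x hx => S.d1 x (S.sub hp hz' hx)) fun x hx => ?_
      exact S.h2pos (S.sub hp hz' (Ioo_subset_Icc_self hx)) (hcv x ⟨hx.1.le, hx.2.trans_le hz.2⟩)
    have hm0 : ∀ z ∈ Icc p q, h p ≤ h z := by
      intro z hz
      have hz' := S.sub hp hq' hz
      refine le_of_deriv_nonneg' hz.1 (fun x hx => S.d0 x (S.sub hp hz' hx)) fun x hx => ?_
      exact h1p.le.trans (hm x ⟨hx.1.le, hx.2.le.trans hz.2⟩)
    have hst := S.stretch (P := h p * h p ^ (2 - n)) hp hq' hq.1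
      (fun z hz => (h1p.trans_le (hm z hz)).ne')
      (fun z hz => rp_anti S.hn (S.pos p hp) (hm0 z (Ioo_subset_Icc_self hz)))
      (fun z hz => hcv z ⟨hz.1.le, hz.2⟩)
    have hq1 := hm q (right_mem_Icc.2 hq.1)
    have hP : 0 < h p * h p ^ (2 - n) :=
      mul_pos (S.pos p hp) (Real.rpow_pos_of_pos (S.pos p hp) _)
    refine ⟨q, hq, ?_, ?_⟩
    · have : h q * h2 q - h1 q ^ 2 / 4 ≤ 0 := hq2
      unfold EE
      nlinarith
    · have h4 : 0 ≤ 4 * (h p * h p ^ (2 - n)) / h1 q := div_nonneg (by linarith) (by linarith)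
      rw [← le_div_iff₀ h1p]
      linarith
  · left
    rw [not_nonempty_iff_eq_empty] at hT
    refine le_of_deriv_nonneg' hp.2 (fun x hx => S.d1 x (S.sub hp hxs hx)) fun x hx => ?_
    have hx1 := Ioo_subset_Icc_self hx
    refine S.h2pos (S.sub hp hxs hx1) ?_
    by_contra hc
    have : x ∈ (Icc p xs ∩ {z | h z * h2 z - h1 z ^ 2 / 4 ≤ 0}) := ⟨hx1, not_lt.1 hc⟩
    rw [hT] at this
    exact this

theorem St0.sll (S : St0 n s xs h h1 h2 l0) {p : ℝ} (hp : p ∈ Ioc s xs) (h1p : h1 p < 0) :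
    ∃ q ∈ Ioc s p, h1 p ^ 2 ≤ -4 * EE h h1 h2 q ∧
      (l0 p - l0 q) * (-h1 p) ≤ 4 * (h p * h p ^ (2 - n)) := by
  obtain ⟨a, ha, hap⟩ := S.small p hp
  have ha' : a ∈ Ioc s xs := ⟨ha.1, ha.2.le.trans hp.2⟩
  have key : ∀ q ∈ Icc a p, (∀ z ∈ Ioc q p, 0 < h z * h2 z - h1 z ^ 2 / 4) →
      (∀ z ∈ Icc q p, h1 z ≤ h1 p) ∧ ∀ z ∈ Icc q p, h p ≤ h z := by
    intro q hq hcv
    have hq' := S.sub ha' hp hq
    have hm : ∀ z ∈ Icc q p, h1 z ≤ h1 p := by
      intro z hz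
      have hz' := S.sub hq' hp hz
      refine le_of_deriv_nonneg' hz.2 (fun x hx => S.d1 x (S.sub hz' hp hx)) fun x hx => ?_
      exact S.h2pos (S.sub hz' hp (Ioo_subset_Icc_self hx)) (hcv x ⟨hz.1.trans_lt hx.1, hx.2.le⟩)
    refine ⟨hm, fun z hz => ?_⟩
    have hz' := S.sub hq' hp hz
    refine ge_of_deriv_nonpos' hz.2 (fun x hx => S.d0 x (S.sub hz' hp hx)) fun x hx => ?_
    exact (hm x ⟨hz.1.trans hx.1.le, hx.2.le⟩).trans h1p.le
  by_cases hT : (Icc a p ∩ {z | h z * h2 z - h1 z ^ 2 / 4 ≤ 0}).Nonempty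
  · obtain ⟨q, ⟨hq, hq2⟩, hmax⟩ := (S.closedT ha' hp).exists_isGreatest hT
    have hq' := S.sub ha' hp hq
    have hcv : ∀ z ∈ Ioc q p, 0 < h z * h2 z - h1 z ^ 2 / 4 := by
      intro z hz
      by_contra hc
      have := hmax ⟨⟨hq.1.trans hz.1.le, hz.2⟩, not_lt.1 hc⟩
      linarith [hz.1]
    obtain ⟨hm, hm0⟩ := key q hq hcv
    have hst := S.stretch (P := h p * h p ^ (2 - n)) hq' hp hq.2
      (fun z hz => ((hm z hz).trans_lt h1p).ne)
      (fun z hz => rp_anti S.hn (S.pos p hp) (hm0 z (Ioo_subset_Icc_self hz)))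
      (fun z hz => hcv z ⟨hz.1, hz.2.le⟩)
    have hq1 := hm q (left_mem_Icc.2 hq.2)
    have hP : 0 < h p * h p ^ (2 - n) :=
      mul_pos (S.pos p hp) (Real.rpow_pos_of_pos (S.pos p hp) _)
    refine ⟨q, ⟨hq'.1, hq.2⟩, ?_, ?_⟩
    · have : h q * h2 q - h1 q ^ 2 / 4 ≤ 0 := hq2
      unfold EE
      nlinarith
    · have h4 : 4 * (h p * h p ^ (2 - n)) / h1 q ≤ 0 :=
        div_nonpos_of_nonneg_of_nonpos (by linarith) (by linarith)
      rw [← le_div_iff₀ (by linarith), div_neg]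
      linarith
  · exfalso
    rw [not_nonempty_iff_eq_empty] at hT
    have := (key a (left_mem_Icc.2 ha.2.le) ?_).2 a (left_mem_Icc.2 ha.2.le)
    · linarith
    · intro z hz
      by_contra hc
      have : z ∈ (Icc a p ∩ {z | h z * h2 z - h1 z ^ 2 / 4 ≤ 0}) :=
        ⟨⟨hz.1.le, hz.2⟩, not_lt.1 hc⟩
      rw [hT] at this
      exact this

/-- slope lemma with radius one -/
theorem St0.sl (S : St0 n s xs h h1 h2 l0) {p : ℝ} (hp : p ∈ Ioc s xs) :
    |h1 p| ≤ 4 * (h p * h p ^ (2 - n)) ∨ |h1 p| ≤ |h1 xs| ∨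
      ∃ q ∈ Ioc s xs, |l0 q - l0 p| ≤ 1 ∧ h1 p ^ 2 ≤ -4 * EE h h1 h2 q := by
  have hP : 0 < h p * h p ^ (2 - n) :=
    mul_pos (S.pos p hp) (Real.rpow_pos_of_pos (S.pos p hp) _)
  have hxs : xs ∈ Ioc s xs := ⟨hp.1.trans_le hp.2, le_rfl⟩
  by_cases hb : |h1 p| ≤ 4 * (h p * h p ^ (2 - n))
  · exact Or.inl hb
  right
  push Not at hb
  rcases lt_trichotomy (h1 p) 0 with hneg | h0 | hpos
  · right
    obtain ⟨q, hq, h3, h4⟩ := S.sll hp hneg
    have hq' : q ∈ Ioc s xs := ⟨hq.1, hq.2.trans hp.2⟩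
    have := S.l0mono hq' hp hq.2
    refine ⟨q, hq', ?_, h3⟩
    rw [abs_of_neg hneg] at hb
    rw [abs_sub_comm, abs_of_nonneg (by linarith)]
    by_contra hc
    push Not at hc
    nlinarith
  · rw [h0] at hb; simp at hb; linarith
  · rcases S.slr hp hpos with h3 | ⟨q, hq, h3, h4⟩
    · left
      rw [abs_of_pos hpos]
      exact h3.trans (le_abs_self _)
    · right
      have hq' := S.sub hp hxs hq
      have := S.l0mono hp hq' hq.1
      refine ⟨q, hq', ?_, h3⟩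
      rw [abs_of_pos hpos] at hb
      rw [abs_of_nonneg (by linarith)]
      by_contra hc
      push Not at hc
      nlinarith

theorem arctan_ineq (x : ℝ) : x ^ 2 / (1 + x ^ 2) ≤ x * Real.arctan x := by
  have key : ∀ y : ℝ, 0 ≤ y → y / (1 + y ^ 2) ≤ Real.arctan y := by
    intro y hy
    have := le_of_deriv_nonneg' (G := fun z => Real.arctan z - z / (1 + z ^ 2))
      (G' := fun z => 1 / (1 + z ^ 2) - (1 * (1 + z ^ 2) - z * (2 * z)) / (1 + z ^ 2) ^ 2) hy ?_ ?_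
    · simpa using this
    · intro z _
      have h1 : HasDerivAt (fun z : ℝ => 1 + z ^ 2) (2 * z) z := by
        simpa using (hasDerivAt_pow 2 z).const_add 1
      exact (Real.hasDerivAt_arctan z).sub ((hasDerivAt_id z).div h1 (by positivity))
    · intro z _
      have : 1 / (1 + z ^ 2) - (1 * (1 + z ^ 2) - z * (2 * z)) / (1 + z ^ 2) ^ 2
          = 2 * z ^ 2 / (1 + z ^ 2) ^ 2 := by field_simp; ring
      show 0 ≤ 1 / (1 + z ^ 2) - (1 * (1 + z ^ 2) - z * (2 * z)) / (1 + z ^ 2) ^ 2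
      rw [this]; positivity
  rcases le_total 0 x with hx | hx
  · have := mul_le_mul_of_nonneg_left (key x hx) hx
    calc x ^ 2 / (1 + x ^ 2) = x * (x / (1 + x ^ 2)) := by ring
      _ ≤ _ := this
  · have := mul_le_mul_of_nonneg_left (key (-x) (by linarith)) (show 0 ≤ -x by linarith)
    rw [Real.arctan_neg] at this
    calc x ^ 2 / (1 + x ^ 2) = -x * (-x / (1 + (-x) ^ 2)) := by ring
      _ ≤ _ := this
      _ = _ := by ring

/-- multiplier lemma -/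
theorem St0.lemK (S : St0 n s xs h h1 h2 l0)
    (dl3 : ∀ x ∈ Ioc s xs, HasDerivAt l3 (1 / h x ^ 3) x) {x y θ : ℝ} (hx : x ∈ Ioc s xs)
    (hy : y ∈ Ioc s xs) (hxy : x ≤ y) (hθ : 0 < θ)
    (hE : ∀ z ∈ Icc x y, EE h h1 h2 z ≤ -θ ^ 2 / 8) :
    θ * (l3 y - l3 x) ≤ 16 * (1 / h x ^ 2 + 1 / h y ^ 2) := by
  have hb : ∀ u : ℝ, |Real.arctan u| ≤ 2 := by
    intro u
    rw [abs_le]
    have h1 := Real.arctan_lt_pi_div_two u
    have h2 := Real.neg_pi_div_two_lt_arctan u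
    have := Real.pi_lt_four
    constructor <;> linarith
  have := ge_of_deriv_nonpos' (G := fun z => θ * l3 z / 8 + Real.arctan (h1 z / θ) / h z ^ 2)
    (G' := fun z => θ * (1 / h z ^ 3) / 8 + ((1 / (1 + (h1 z / θ) ^ 2) * (h2 z / θ)) * h z ^ 2 -
      Real.arctan (h1 z / θ) * (2 * h z * h1 z)) / (h z ^ 2) ^ 2) hxy ?_ ?_
  · have hx2 : 0 < h x ^ 2 := pow_pos (S.pos x hx) 2
    have hy2 : 0 < h y ^ 2 := pow_pos (S.pos y hy) 2
    have e1 : Real.arctan (h1 x / θ) / h x ^ 2 ≤ 2 * (1 / h x ^ 2) := by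
      rw [mul_one_div]
      exact div_le_div_of_nonneg_right ((le_abs_self _).trans (hb _)) hx2.le
    have e2 : -(Real.arctan (h1 y / θ) / h y ^ 2) ≤ 2 * (1 / h y ^ 2) := by
      rw [mul_one_div, ← neg_div]
      exact div_le_div_of_nonneg_right ((neg_le_abs _).trans (hb _)) hy2.le
    linarith
  · intro z hz
    have hz' := S.sub hx hy hz
    have h2' : HasDerivAt (fun z => h z ^ 2) (2 * h z * h1 z) z := by
      simpa using (S.d0 z hz').fun_pow 2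
    exact (((dl3 z hz').const_mul θ).div_const 8).add
      (((S.d1 z hz').div_const θ).arctan.div h2' (pow_pos (S.pos z hz') 2).ne')
  · intro z hz
    have hz1 := Ioo_subset_Icc_self hz
    have hz' := S.sub hx hy hz1
    have hp := S.pos z hz'
    have hE' := hE z hz1
    unfold EE at hE'
    set σ := h1 z / θ with hσ
    have h1e : h1 z = σ * θ := by rw [hσ]; field_simp
    have ha := arctan_ineq σ
    have hd : 0 < 1 + σ ^ 2 := by positivity
    show θ * (1 / h z ^ 3) / 8 + ((1 / (1 + σ ^ 2) * (h2 z / θ)) * h z ^ 2 -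
      Real.arctan σ * (2 * h z * h1 z)) / (h z ^ 2) ^ 2 ≤ 0
    have e : θ * (1 / h z ^ 3) / 8 + ((1 / (1 + σ ^ 2) * (h2 z / θ)) * h z ^ 2 -
      Real.arctan σ * (2 * h z * h1 z)) / (h z ^ 2) ^ 2 = θ / h z ^ 3 *
        (1 / 8 + (h z * h2 z / θ ^ 2) / (1 + σ ^ 2) - 2 * (σ * Real.arctan σ)) := by
      rw [h1e]; field_simp; ring
    rw [e]
    refine mul_nonpos_of_nonneg_of_nonpos (by positivity) ?_
    have h5 : h z * h2 z / θ ^ 2 ≤ σ ^ 2 / 2 - 1 / 8 := by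
      rw [div_le_iff₀ (by positivity)]
      rw [h1e] at hE'
      nlinarith
    have h6 : (h z * h2 z / θ ^ 2) / (1 + σ ^ 2) ≤ (σ ^ 2 / 2 - 1 / 8) / (1 + σ ^ 2) :=
      div_le_div_of_nonneg_right h5 hd.le
    have h7 : 1 / 8 + (σ ^ 2 / 2 - 1 / 8) / (1 + σ ^ 2) - 2 * (σ ^ 2 / (1 + σ ^ 2)) ≤ 0 := by
      have : 1 / 8 + (σ ^ 2 / 2 - 1 / 8) / (1 + σ ^ 2) - 2 * (σ ^ 2 / (1 + σ ^ 2))
          = -(11 / 8 * σ ^ 2) / (1 + σ ^ 2) := by field_simp; ring
      rw [this]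
      exact div_nonpos_of_nonpos_of_nonneg (by nlinarith [sq_nonneg σ]) hd.le
    linarith

theorem St0.conc (S : St0 n s xs h h1 h2 l0) {x y : ℝ} (hx : x ∈ Ioc s xs)
    (hy : y ∈ Ioc s xs) (hxy : x ≤ y) (hE : ∀ z ∈ Icc x y, EE h h1 h2 z ≤ 0) :
    h1 y / √(h y) ≤ h1 x / √(h x) := by
  refine ge_of_deriv_nonpos' (G := fun z => h1 z / √(h z))
    (G' := fun z => (h2 z * √(h z) - h1 z * (h1 z / (2 * √(h z)))) / √(h z) ^ 2) hxy ?_ ?_
  · intro z hz
    have hz' := S.sub hx hy hz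
    have hp := S.pos z hz'
    exact (S.d1 z hz').div ((S.d0 z hz').sqrt hp.ne') (Real.sqrt_pos.2 hp).ne'
  · intro z hz
    have hz1 := Ioo_subset_Icc_self hz
    have hp := S.pos z (S.sub hx hy hz1)
    have hE' := hE z hz1
    unfold EE at hE'
    have hg := Real.sqrt_pos.2 hp
    have hs := Real.mul_self_sqrt hp.le
    refine div_nonpos_of_nonpos_of_nonneg ?_ (by positivity)
    have : h2 z * √(h z) - h1 z * (h1 z / (2 * √(h z)))
        = (√(h z) * √(h z) * h2 z - h1 z ^ 2 / 2) / √(h z) := by field_simp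
    rw [this, hs]
    exact div_nonpos_of_nonpos_of_nonneg hE' hg.le

theorem St0.concL (S : St0 n s xs h h1 h2 l0) {x z : ℝ} (hx : x ∈ Ioc s xs)
    (hz : z ∈ Ioc s xs) (hxz : x ≤ z) (hE : ∀ p ∈ Icc x z, EE h h1 h2 p ≤ 0) (h1z : 0 ≤ h1 z) :
    h x ≤ h z ∧ |h1 z| * (z - x) ≤ 2 * h z := by
  have hg := Real.sqrt_pos.2 (S.pos z hz)
  have hgx := Real.sqrt_pos.2 (S.pos x hx)
  have := le_of_deriv_nonneg' (G := fun p => 2 * √(h p) - h1 z / √(h z) * p)
    (G' := fun p => 2 * (h1 p / (2 * √(h p))) - h1 z / √(h z) * 1) hxz ?_ ?_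
  · have hγ : 0 ≤ h1 z / √(h z) * (z - x) := mul_nonneg (div_nonneg h1z hg.le) (by linarith)
    have h3 : √(h x) ≤ √(h z) := by nlinarith
    refine ⟨(Real.sqrt_le_sqrt_iff (S.pos z hz).le).1 h3, ?_⟩
    have h4 : h1 z / √(h z) * (z - x) ≤ 2 * √(h z) := by nlinarith
    have hs := Real.mul_self_sqrt (S.pos z hz).le
    rw [abs_of_nonneg h1z]
    rw [div_mul_eq_mul_div, div_le_iff₀ hg] at h4
    nlinarith
  · intro p hp
    have hp' := S.sub hx hz hp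
    exact (((S.d0 p hp').sqrt (S.pos p hp').ne').const_mul 2).sub
      ((hasDerivAt_id p).const_mul _)
  · intro p hp
    have hp1 := Ioo_subset_Icc_self hp
    have hp' := S.sub hx hz hp1
    have := S.conc hp' hz hp1.2 fun w hw => hE w ⟨hp1.1.trans hw.1, hw.2⟩
    have hgp := Real.sqrt_pos.2 (S.pos p hp')
    show 0 ≤ 2 * (h1 p / (2 * √(h p))) - h1 z / √(h z) * 1
    have e : 2 * (h1 p / (2 * √(h p))) = h1 p / √(h p) := by field_simp
    rw [e]; linarith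

theorem St0.concR (S : St0 n s xs h h1 h2 l0) {z y : ℝ} (hz : z ∈ Ioc s xs)
    (hy : y ∈ Ioc s xs) (hzy : z ≤ y) (hE : ∀ p ∈ Icc z y, EE h h1 h2 p ≤ 0) (h1z : h1 z ≤ 0) :
    h y ≤ h z ∧ |h1 z| * (y - z) ≤ 2 * h z := by
  have hg := Real.sqrt_pos.2 (S.pos z hz)
  have hgy := Real.sqrt_pos.2 (S.pos y hy)
  have := ge_of_deriv_nonpos' (G := fun p => 2 * √(h p) - h1 z / √(h z) * p)
    (G' := fun p => 2 * (h1 p / (2 * √(h p))) - h1 z / √(h z) * 1) hzy ?_ ?_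
  · have hγ : 0 ≤ -h1 z / √(h z) * (y - z) :=
      mul_nonneg (div_nonneg (by linarith) hg.le) (by linarith)
    have e : -h1 z / √(h z) * (y - z) = -(h1 z / √(h z) * y) + h1 z / √(h z) * z := by ring
    have h3 : √(h y) ≤ √(h z) := by linarith
    refine ⟨(Real.sqrt_le_sqrt_iff (S.pos z hz).le).1 h3, ?_⟩
    have h4 : -h1 z / √(h z) * (y - z) ≤ 2 * √(h z) := by linarith
    have hs := Real.mul_self_sqrt (S.pos z hz).le
    rw [abs_of_nonpos h1z]
    rw [div_mul_eq_mul_div, div_le_iff₀ hg] at h4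
    nlinarith
  · intro p hp
    have hp' := S.sub hz hy hp
    exact (((S.d0 p hp').sqrt (S.pos p hp').ne').const_mul 2).sub
      ((hasDerivAt_id p).const_mul _)
  · intro p hp
    have hp1 := Ioo_subset_Icc_self hp
    have hp' := S.sub hz hy hp1
    have := S.conc hz hp' hp1.1 fun w hw => hE w ⟨hw.1, hw.2.trans hp1.2⟩
    have hgp := Real.sqrt_pos.2 (S.pos p hp')
    show 2 * (h1 p / (2 * √(h p))) - h1 z / √(h z) * 1 ≤ 0
    have e : 2 * (h1 p / (2 * √(h p))) = h1 p / √(h p) := by field_simp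
    rw [e]; linarith

/-- amplification lemma -/
theorem St0.amp (S : St0 n s xs h h1 h2 l0)
    (dl3 : ∀ x ∈ Ioc s xs, HasDerivAt l3 (1 / h x ^ 3) x) {x z Θ : ℝ} (hx : x ∈ Ioc s xs)
    (hz : z ∈ Ioc s xs) (hxz : x ≤ z) (hΘ : 0 ≤ Θ) (hl0 : l0 z - l0 x ≤ 1)
    (hl3 : h x ^ 2 * (l3 z - l3 x) ≤ 1)
    (hsl : ∀ p ∈ Icc x z, |h1 p| ≤ 4 * (h p * h p ^ (2 - n)) + Θ)
    (hhi : Real.exp 5 * h z ≤ h x) :
    h x ^ 2 ≤ Real.exp 5 ^ 2 * Θ * h z ^ 2 ∧
      h z * h z ^ (2 - n) ≤ Real.exp 5 ^ (n - 2) * Θ := by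
  set A := Real.exp 5 with hA
  have hA1 : 1 ≤ A := Real.one_le_exp (by norm_num)
  have hA0 : 0 < A := by linarith
  have hpz := S.pos z hz
  have hpx := S.pos x hx
  have hc : ContinuousOn h (Icc x z) := fun p hp =>
    (S.d0 p (S.sub hx hz hp)).continuousAt.continuousWithinAt
  have hK : IsCompact (Icc x z ∩ h ⁻¹' Ici (A * h z)) :=
    isCompact_Icc.of_isClosed_subset (hc.preimage_isClosed_of_isClosed isClosed_Icc isClosed_Ici)
      inter_subset_left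
  obtain ⟨q, ⟨hq, hq2⟩, hmax⟩ := hK.exists_isGreatest ⟨x, left_mem_Icc.2 hxz, hhi⟩
  have hq' := S.sub hx hz hq
  have hlt : ∀ p ∈ Ioo q z, h p ≤ A * h z := by
    intro p hp
    by_contra hcon
    have := hmax ⟨⟨hq.1.trans hp.1.le, hp.2.le⟩, (not_le.1 hcon).le⟩
    linarith [hp.1]
  have key : ∀ (l g : ℝ → ℝ) (c : ℝ), (∀ p ∈ Ioc s xs, HasDerivAt l (g p) p) →
      (∀ p ∈ Ioo q z, 1 / h p ≤ c * g p) → 1 ≤ Θ * c * (l z - l q) := by
    intro l g c hl hg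
    have := le_of_deriv_nonneg' (G := fun p => Real.log (h p) + 4 * l0 p + Θ * c * l p)
      (G' := fun p => h1 p / h p + 4 * h p ^ (2 - n) + Θ * c * g p) hq.2 ?_ ?_
    · have h5 : Real.log (A * h z) ≤ Real.log (h q) := Real.log_le_log (by positivity) hq2
      rw [Real.log_mul hA0.ne' hpz.ne', hA, Real.log_exp] at h5
      have h6 := S.l0mono hx hq' hq.1
      nlinarith
    · intro p hp
      have hp' := S.sub hq' hz hp
      exact (((S.d0 p hp').log (S.pos p hp').ne').add ((S.dl0 p hp').const_mul 4)).add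
        ((hl p hp').const_mul _)
    · intro p hp
      have hp1 := Ioo_subset_Icc_self hp
      have hp' := S.sub hq' hz hp1
      have hpp := S.pos p hp'
      have h7 := hsl p ⟨hq.1.trans hp1.1, hp1.2⟩
      have h8 := mul_le_mul_of_nonneg_left (hg p hp) hΘ
      have h9 : -(h1 p / h p) ≤ 4 * h p ^ (2 - n) + Θ * (1 / h p) := by
        rw [← neg_div, div_le_iff₀ hpp]
        have : (4 * h p ^ (2 - n) + Θ * (1 / h p)) * h p = 4 * (h p * h p ^ (2 - n)) + Θ := by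
          field_simp
        rw [this]
        exact (neg_le_abs _).trans h7
      show 0 ≤ h1 p / h p + 4 * h p ^ (2 - n) + Θ * c * g p
      linarith
  constructor
  · have h3 := key l3 (fun p => 1 / h p ^ 3) ((A * h z) ^ 2) dl3 ?_
    · have h4 : l3 x ≤ l3 q := le_of_deriv_nonneg' hq.1 (fun p hp => dl3 p (S.sub hx hq' hp))
        fun p hp => by
          have := S.pos p (S.sub hx hq' (Ioo_subset_Icc_self hp))
          positivity
      have h5 : 1 ≤ Θ * (A * h z) ^ 2 * (l3 z - l3 x) :=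
        h3.trans (mul_le_mul_of_nonneg_left (by linarith) (by positivity))
      have h6 := mul_le_mul_of_nonneg_left h5 (sq_nonneg (h x))
      have h7 := mul_le_mul_of_nonneg_left hl3 (show 0 ≤ Θ * (A * h z) ^ 2 by positivity)
      nlinarith
    · intro p hp
      have hpp := S.pos p (S.sub hq' hz (Ioo_subset_Icc_self hp))
      have h4 := pow_le_pow_left₀ hpp.le (hlt p hp) 2
      show 1 / h p ≤ (A * h z) ^ 2 * (1 / h p ^ 3)
      rw [mul_one_div, div_le_div_iff₀ hpp (by positivity)]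
      nlinarith
  · set P := A * h z * (A * h z) ^ (2 - n) with hP
    have hP0 : 0 < P := mul_pos (by positivity) (Real.rpow_pos_of_pos (by positivity) _)
    have h3 := key l0 (fun p => h p ^ (2 - n)) (1 / P) S.dl0 ?_
    · have h4 := S.l0mono hx hq' hq.1
      have h5 : 1 ≤ Θ * (1 / P) :=
        h3.trans (mul_le_of_le_one_right (by positivity) (by linarith))
      rw [mul_one_div, le_div_iff₀ hP0, one_mul] at h5
      rw [rp_scale (n := n) hpz hA0]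
      have hAn : 0 < A ^ (n - 2) := Real.rpow_pos_of_pos hA0 _
      have h6 : h z * (A * h z) ^ (2 - n) ≤ P := by
        rw [hP]
        exact mul_le_mul_of_nonneg_right (le_mul_of_one_le_left hpz.le hA1)
          (Real.rpow_pos_of_pos (by positivity) _).le
      calc h z * (A ^ (n - 2) * (A * h z) ^ (2 - n))
          = A ^ (n - 2) * (h z * (A * h z) ^ (2 - n)) := by ring
        _ ≤ A ^ (n - 2) * Θ := mul_le_mul_of_nonneg_left (h6.trans h5) hAn.le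
    · intro p hp
      have hpp := S.pos p (S.sub hq' hz (Ioo_subset_Icc_self hp))
      have h4 := rp_anti S.hn hpp (hlt p hp)
      show 1 / h p ≤ 1 / P * h p ^ (2 - n)
      rw [one_div_mul_eq_div, div_le_div_iff₀ hpp hP0]
      linarith

end Pool.Agent.TF
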