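import Pool.Agent.P.MP_e83d7b_an.Err
import Pool.Agent.P.MP_e83d7b_an.Static

/-! From the slice geometry to the hypotheses of the integral estimates. -/

namespace Pool.Agent.TF

open Set MeasureTheory Filter Topology

variable {n s xs Λ Θ : ℝ} {h h1 h2 l0 l3 : ℝ → ℝ}

theorem abs_le_of_sq {u v : ℝ} (h : u ^ 2 ≤ v ^ 2) (hv : 0 ≤ v) : |u| ≤ v :=
  abs_le.2 (abs_le_of_sq_le_sq' h hv)

theorem St0.slope (S : St0 n s xs h h1 h2 l0) {p : ℝ} (hp : p ∈ Ioc s xs) (hΘ : 0 ≤ Θ)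
    (hxs : |h1 xs| ≤ Θ)
    (hE : ∀ q ∈ Ioc s xs, |l0 q - l0 p| ≤ 1 → -4 * EE h h1 h2 q ≤ Θ ^ 2) :
    |h1 p| ≤ 4 * (h p * h p ^ (2 - n)) + Θ := by
  have hP : 0 < h p * h p ^ (2 - n) :=
    mul_pos (S.pos p hp) (Real.rpow_pos_of_pos (S.pos p hp) _)
  rcases S.sl hp with h3 | h3 | ⟨q, hq, h3, h4⟩
  · linarith
  · linarith
  · have := abs_le_of_sq (h4.trans (hE q hq h3)) hΘ
    linarith

theorem St0.fact2 (S : St0 n s xs h h1 h2 l0)
    (dl3 : ∀ x ∈ Ioc s xs, HasDerivAt l3 (1 / h x ^ 3) x)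
    (HE : ∀ z ∈ Ioc s xs, ∀ z' ∈ Ioc s xs, |l0 z - l0 z'| ≤ 2 →
      |EE h h1 h2 z - EE h h1 h2 z'| ≤ Λ)
    (hΘ : 0 ≤ Θ) (hxs : |h1 xs| ≤ Θ) (hΛ : 8 * Λ ≤ Θ ^ 2) {x y : ℝ} (hx : x ∈ Ioc s xs)
    (hy : y ∈ Ioc s xs) (hxy : x ≤ y) (hl : l0 y - l0 x ≤ 1) :
    |h1 x| ≤ 4 * (h x * h x ^ (2 - n)) + Θ ∨
      |h1 x| * (l3 y - l3 x) ≤ 16 * (1 / h x ^ 2 + 1 / h y ^ 2) := by
  have hP : 0 < h x * h x ^ (2 - n) :=
    mul_pos (S.pos x hx) (Real.rpow_pos_of_pos (S.pos x hx) _)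
  by_cases hb : |h1 x| ≤ Θ
  · left; linarith
  push Not at hb
  rcases S.sl hx with h3 | h3 | ⟨q, hq, h3, h4⟩
  · left; linarith
  · left; linarith
  · right
    refine S.lemK dl3 hx hy hxy (hΘ.trans_lt hb) fun z hz => ?_
    have hz' := S.sub hx hy hz
    have m1 := S.l0mono hx hz' hz.1
    have m2 := S.l0mono hz' hy hz.2
    have h5 := HE z hz' q hq (by
      rw [abs_le] at h3 ⊢; constructor <;> linarith [h3.1, h3.2])
    have h6 : Θ ^ 2 ≤ |h1 x| ^ 2 := pow_le_pow_left₀ hΘ hb.le 2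
    rw [sq_abs] at h6 ⊢
    linarith [(abs_le.1 h5).2]

theorem St0.fact4 (S : St0 n s xs h h1 h2 l0)
    (dl3 : ∀ x ∈ Ioc s xs, HasDerivAt l3 (1 / h x ^ 3) x)
    (HE : ∀ z ∈ Ioc s xs, ∀ z' ∈ Ioc s xs, |l0 z - l0 z'| ≤ 2 →
      |EE h h1 h2 z - EE h h1 h2 z'| ≤ Λ)
    (hΘ : 0 ≤ Θ) (hxs : |h1 xs| ≤ Θ) (hΛ : 8 * Λ ≤ Θ ^ 2) {z : ℝ} (hz : z ∈ Ioc s xs) :
    (∀ x ∈ Ioc s xs, x < z → l0 z - l0 x ≤ 1 → h x ^ 2 * (l3 z - l3 x) ≤ 1 →
      |h1 z| ≤ 4 * (h z * h z ^ (2 - n)) + Θ ∧ (h x ≤ Real.exp 5 * h z ∨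
        (h x ^ 2 ≤ Real.exp 5 ^ 2 * Θ * h z ^ 2 ∧
          h z * h z ^ (2 - n) ≤ Real.exp 5 ^ (n - 2) * Θ))) ∨
    (∀ x ∈ Ioc s xs, x < z → l0 z - l0 x ≤ 1 → h x ≤ h z ∧ |h1 z| * (z - x) ≤ 2 * h z) ∨
    (∀ y ∈ Ioc s xs, z < y → l0 y - l0 z ≤ 1 → h y ≤ h z ∧ |h1 z| * (y - z) ≤ 2 * h z) := by
  by_cases hE : EE h h1 h2 z ≤ -Λ
  · right
    have hneg : ∀ p ∈ Ioc s xs, |l0 p - l0 z| ≤ 2 → EE h h1 h2 p ≤ 0 := by
      intro p hp h3
      linarith [(abs_le.1 (HE p hp z hz h3)).2]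
    rcases le_total 0 (h1 z) with h3 | h3
    · left
      intro x hx hxz hl
      refine S.concL hx hz hxz.le (fun p hp => hneg p (S.sub hx hz hp) ?_) h3
      have m1 := S.l0mono hx (S.sub hx hz hp) hp.1
      have m2 := S.l0mono (S.sub hx hz hp) hz hp.2
      rw [abs_le]; constructor <;> linarith
    · right
      intro y hy hzy hl
      refine S.concR hz hy hzy.le (fun p hp => hneg p (S.sub hz hy hp) ?_) h3
      have m1 := S.l0mono hz (S.sub hz hy hp) hp.1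
      have m2 := S.l0mono (S.sub hz hy hp) hy hp.2
      rw [abs_le]; constructor <;> linarith
  · left
    push Not at hE
    intro x hx hxz hl hl3
    have hsl : ∀ p ∈ Icc x z, |h1 p| ≤ 4 * (h p * h p ^ (2 - n)) + Θ := by
      intro p hp
      have hp' := S.sub hx hz hp
      have m1 := S.l0mono hx hp' hp.1
      have m2 := S.l0mono hp' hz hp.2
      refine S.slope hp' hΘ hxs fun q hq h3 => ?_
      have h5 := HE q hq z hz (by
        rw [abs_le] at h3 ⊢; constructor <;> linarith [h3.1, h3.2])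
      linarith [(abs_le.1 h5).1]
    refine ⟨hsl z (right_mem_Icc.2 hxz.le), ?_⟩
    rcases le_total (h x) (Real.exp 5 * h z) with h3 | h3
    · exact Or.inl h3
    · exact Or.inr (S.amp dl3 hx hz hxz.le hΘ hl hl3 hsl h3)

variable {α β K H D0 : ℝ} {hc h1c F k et l0c l3c L0 L3 M : ℝ → ℝ} {c : Cut}

theorem slope_conv {θ P K Θ : ℝ} (h : θ ≤ 4 * P + Θ) (hK : 1 ≤ K) (hΘ : 1 ≤ Θ) (hP : 0 < P)
    (hi : 1 ≤ K * P) : θ ≤ 5 * K * Θ * P := by
  have h1 : Θ ≤ Θ * (K * P) := le_mul_of_one_le_right (by linarith) hi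
  have h2 : 1 ≤ K * Θ := by nlinarith
  have h3 : P ≤ K * Θ * P := le_mul_of_one_le_left hP.le h2
  nlinarith

theorem mkFc (S : St0 n s xs h h1 h2 l0)
    (dl3 : ∀ x ∈ Ioc s xs, HasDerivAt l3 (1 / h x ^ 3) x)
    (HE : ∀ z ∈ Ioc s xs, ∀ z' ∈ Ioc s xs, |l0 z - l0 z'| ≤ 2 →
      |EE h h1 h2 z - EE h h1 h2 z'| ≤ Λ)
    (hΘ : 1 ≤ Θ) (hxs : |h1 xs| ≤ Θ) (hΛ : 8 * Λ ≤ Θ ^ 2)
    (B : Bx n α xs hc h1c F k et l0c l3c L0 L3 M) (hs : s < α)
    (ag : ∀ x ∈ Icc α xs, hc x = h x ∧ h1c x = h1 x ∧ l0c x = l0 x ∧ l3c x = l3 x ∧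
      et x = h x ^ (2 - n))
    (hK1 : Real.exp 5 ^ 2 ≤ K) (hK2 : Real.exp 5 ^ (n - 2) ≤ K) (hKc : c.C ≤ K)
    (hH : ∀ x ∈ Icc α xs, h x ≤ H) (hK3 : 1 ≤ K * (H * H ^ (2 - n))) (hβ : 0 < β)
    (hMa : -β ≤ M α) (hD : 0 ≤ D0)
    (hq : LI α xs (fun x => |F x / hc x| ^ 2 * et x * iR β M x) ≤ ENNReal.ofReal D0) :
    Fc α xs K (5 * K * Θ) β (c.C / β) D0 hc (fun x => |h1c x|) (fun x => |F x / hc x|) et l0c l3c
      M (fun y => W1 c β (M y) * hc y) := by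
  have sub : ∀ x ∈ Icc α xs, x ∈ Ioc s xs := fun x hx => ⟨hs.trans_le hx.1, hx.2⟩
  have K1 : 1 ≤ K := c.C1.trans hKc
  have hA : 1 ≤ Real.exp 5 := Real.one_le_exp (by norm_num)
  have hAK : Real.exp 5 ≤ K := le_trans (by nlinarith) hK1
  have inv : ∀ x ∈ Icc α xs, 1 ≤ K * (h x * h x ^ (2 - n)) := fun x hx =>
    hK3.trans (mul_le_mul_of_nonneg_left (rp_anti S.hn (S.pos x (sub x hx)) (hH x hx))
      (by linarith))
  have hP : ∀ x ∈ Icc α xs, 0 < h x * h x ^ (2 - n) := fun x hx =>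
    mul_pos (S.pos x (sub x hx)) (Real.rpow_pos_of_pos (S.pos x (sub x hx)) _)
  have := B.ch; have := B.cF; have := B.ch1; have := B.cM; have := W1_cont c β
  have := W0_cont c β
  refine ⟨B.ab, B.ch, B.ch1.abs, (B.cF.div B.ch fun x => (B.pos x).ne').abs, B.cet, B.cl0, B.cl3,
    B.cM, by fun_prop, K1, by nlinarith, hβ, div_nonneg (by linarith [c.C1]) hβ.le,
    by rwa [div_mul_cancel₀ _ hβ.ne'], hD, B.pos, B.etp, fun _ => abs_nonneg _,
    fun _ => abs_nonneg _, B.dl0, B.dl3, B.dM, hMa, ?_, ?_,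
    fun y => mul_nonneg (W1_nn c hβ _) (B.pos y).le,
    fun y => mul_le_mul_of_nonneg_right (W1_le c hβ _) (B.pos y).le, ?_, hq, ?_, ?_⟩
  · intro x hx
    obtain ⟨e1, -, -, -, e5⟩ := ag x hx
    rw [e1, e5]; exact inv x hx
  · intro x hx y hy hxy
    obtain ⟨e1, -, -, -, e5⟩ := ag x hx
    obtain ⟨f1, -, -, -, f5⟩ := ag y hy
    rw [e1, f1] at hxy
    rw [e1, e5, f1, f5]
    exact rp_anti S.hn (S.pos x (sub x hx)) hxy
  · refine (LI_le_sub (g := fun y => W1 c β (M y) * hc y) (l := fun y => W0 c β (M y)) B.ab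
      (by fun_prop) (fun y _ => mul_nonneg (W1_nn c hβ _) (B.pos y).le) (by fun_prop)
      (fun y hy => (W0_deriv c β (M y)).comp y (B.dM y hy))
      (fun y hy => Or.inr ⟨Ioc_subset_Icc_self hy, le_rfl⟩)).trans (ENNReal.ofReal_le_ofReal ?_)
    unfold W0
    linarith [c.le1 (M xs / β - 2), c.nn (M α / β - 2)]
  · intro x hx y hy hxy hl
    obtain ⟨e1, e2, e3, e4, e5⟩ := ag x hx
    obtain ⟨f1, f2, f3, f4, f5⟩ := ag y hy
    rw [e3, f3] at hl
    simp only [e1, e2, e4, e5, f1, f4]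
    rcases S.fact2 dl3 HE (by linarith) hxs hΛ (sub x hx) (sub y hy) hxy.le hl with h3 | h3
    · exact Or.inl (slope_conv h3 K1 hΘ (hP x hx) (inv x hx))
    · exact Or.inr h3
  · intro z hz
    obtain ⟨g1, g2, g3, g4, g5⟩ := ag z hz
    have pz := S.pos z (sub z hz)
    rcases S.fact4 dl3 HE (by linarith) hxs hΛ (sub z hz) with h3 | h3 | h3
    · left
      intro x hx hxz hl hl3
      obtain ⟨e1, e2, e3, e4, e5⟩ := ag x hx
      have px := S.pos x (sub x hx)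
      rw [e3, g3] at hl
      rw [e1, e4, g4] at hl3
      simp only [e1, e5, g1, g2, g5]
      obtain ⟨h4, h5 | ⟨h5, h6⟩⟩ := h3 x (sub x hx) hxz hl hl3
      · left
        refine ⟨h5.trans (by gcongr), ?_, slope_conv h4 K1 hΘ (hP z hz) (inv z hz)⟩
        rw [rp_scale (n := n) pz (Real.exp_pos 5)]
        have := Real.rpow_le_rpow_of_nonpos px h5 (show 2 - n ≤ 0 by linarith [S.hn])
        have h7 := Real.rpow_pos_of_pos (show 0 < Real.exp 5 * h z by positivity) (2 - n)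
        gcongr
      · right
        constructor
        · have : Real.exp 5 ^ (n - 2) * Θ ≤ K * Θ := by gcongr
          nlinarith
        · refine h5.trans ?_
          have : Real.exp 5 ^ 2 * Θ ≤ K * Θ := by gcongr
          gcongr
          nlinarith
    · right; left
      intro x hx hxz hl
      obtain ⟨e1, e2, e3, e4, e5⟩ := ag x hx
      rw [e3, g3] at hl
      simp only [e1, g1, g2]
      exact h3 x (sub x hx) hxz hl
    · right; right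
      intro x hx hxz hl
      obtain ⟨e1, e2, e3, e4, e5⟩ := ag x hx
      rw [e3, g3] at hl
      simp only [e1, g1, g2]
      exact h3 x (sub x hx) hxz hl

/-- variation of `E` along short `l0` distances -/
theorem St0.Evar {h3 Q : ℝ → ℝ} {D lam ρ : ℝ} (S : St0 n s xs h h1 h2 l0)
    (d2 : ∀ x ∈ Ioc s xs, HasDerivAt h2 (h3 x) x)
    (dQ : ∀ x ∈ Ioc s xs, HasDerivAt Q (h x ^ n * h3 x ^ 2) x)
    (hQ : ∀ z ∈ Ioc s xs, ∀ z' ∈ Ioc s xs, z ≤ z' → Q z' - Q z ≤ D) (hlam : 0 < lam)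
    {z z' : ℝ} (hz : z ∈ Ioc s xs) (hz' : z' ∈ Ioc s xs) (hl : |l0 z - l0 z'| ≤ ρ) :
    |EE h h1 h2 z - EE h h1 h2 z'| ≤ D / lam + lam * ρ := by
  wlog hzz : z ≤ z' generalizing z z'
  · rw [abs_sub_comm]
    exact this hz' hz (by rwa [abs_sub_comm]) (not_le.1 hzz).le
  have dE : ∀ x ∈ Ioc s xs, HasDerivAt (EE h h1 h2) (h x * h3 x) x := by
    intro x hx
    have h2' : HasDerivAt (fun z => h1 z ^ 2) (2 * h1 x * h2 x) x := by
      simpa using (S.d1 x hx).fun_pow 2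
    have := ((S.d0 x hx).mul (d2 x hx)).sub (h2'.div_const 2)
    refine HasDerivAt.congr_deriv (f := EE h h1 h2) this ?_
    ring
  have pt : ∀ x ∈ Ioc s xs, |h x * h3 x| ≤ h x ^ n * h3 x ^ 2 / lam + lam * h x ^ (2 - n) := by
    intro x hx
    have px := S.pos x hx
    have ex := Real.rpow_pos_of_pos px (2 - n)
    have e : h x ^ n * h x ^ (2 - n) = h x ^ 2 := by
      rw [← Real.rpow_add px, show n + (2 - n) = ((2:ℕ):ℝ) by push_cast; ring, Real.rpow_natCast]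
    have am := mul_le_mul_of_nonneg_left
      (amgm (u := |h x * h3 x| / h x ^ (2 - n)) (c := 1) hlam) ex.le
    have e2 : h x ^ (2 - n) * ((|h x * h3 x| / h x ^ (2 - n)) ^ 2 / lam + lam * 1 ^ 2) =
        h x ^ n * h3 x ^ 2 / lam + lam * h x ^ (2 - n) := by
      rw [div_pow, sq_abs, mul_pow, ← e]; field_simp
    rw [e2, mul_one, mul_div_cancel₀ _ ex.ne'] at am
    exact am
  have m := S.l0mono hz hz' hzz
  rw [abs_sub_comm, abs_of_nonneg (by linarith)] at hl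
  have hQ' := div_le_div_of_nonneg_right (hQ z hz z' hz' hzz) hlam.le
  have hl' := mul_le_mul_of_nonneg_left hl hlam.le
  have k1 := le_of_deriv_nonneg' (G := fun x => Q x / lam + lam * l0 x + EE h h1 h2 x)
    (G' := fun x => h x ^ n * h3 x ^ 2 / lam + lam * h x ^ (2 - n) + h x * h3 x) hzz
    (fun x hx => (((dQ x (S.sub hz hz' hx)).div_const _).add
      ((S.dl0 x (S.sub hz hz' hx)).const_mul _)).add (dE x (S.sub hz hz' hx)))
    (fun x hx => by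
      have := pt x (S.sub hz hz' (Ioo_subset_Icc_self hx))
      have := neg_abs_le (h x * h3 x)
      linarith)
  have k2 := le_of_deriv_nonneg' (G := fun x => Q x / lam + lam * l0 x - EE h h1 h2 x)
    (G' := fun x => h x ^ n * h3 x ^ 2 / lam + lam * h x ^ (2 - n) - h x * h3 x) hzz
    (fun x hx => (((dQ x (S.sub hz hz' hx)).div_const _).add
      ((S.dl0 x (S.sub hz hz' hx)).const_mul _)).sub (dE x (S.sub hz hz' hx)))
    (fun x hx => by
      have := pt x (S.sub hz hz' (Ioo_subset_Icc_self hx))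
      have := le_abs_self (h x * h3 x)
      linarith)
  rw [sub_div] at hQ'
  rw [abs_le]
  constructor <;> nlinarith

/-- slope bound on the region at bounded `l0` distance from the right end -/
theorem St0.slopeR {R Cs : ℝ} (S : St0 n s xs h h1 h2 l0) (hR : 1 ≤ R) (hΘ : 0 ≤ Θ)
    (hxs : |h1 xs| ≤ Θ) (hCs : h xs * h xs ^ (2 - n) ≤ Cs)
    (hE : ∀ q ∈ Ioc s xs, l0 xs - l0 q ≤ 3 * R → -4 * EE h h1 h2 q ≤ Θ ^ 2)
    {p : ℝ} (hp : p ∈ Ioc s xs) (hl : l0 xs - l0 p ≤ 2 * R) :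
    |h1 p| ≤ 4 * Cs + (8 * n + 1) * Θ := by
  have hx : xs ∈ Ioc s xs := ⟨hp.1.trans_le hp.2, le_rfl⟩
  have hn := S.hn
  have hCs0 : 0 < Cs :=
    (mul_pos (S.pos xs hx) (Real.rpow_pos_of_pos (S.pos xs hx) _)).trans_le hCs
  have up : ∀ z ∈ Icc p xs, h1 z ≤ Θ := by
    intro z hz
    have hz' := S.sub hp hx hz
    by_cases h0 : 0 < h1 z
    · rcases S.slr hz' h0 with h3 | ⟨q, hq, h3, -⟩
      · exact h3.trans ((le_abs_self _).trans hxs)
      · have hq' := S.sub hz' hx hq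
        have m := S.l0mono hp hq' (hz.1.trans hq.1)
        exact (le_abs_self _).trans (abs_le_of_sq (h3.trans (hE q hq' (by linarith))) hΘ)
    · linarith [not_lt.1 h0]
  have hnΘ : 0 ≤ 8 * n * Θ := by positivity
  rcases le_or_gt 0 (h1 p) with h0 | h0
  · rw [abs_of_nonneg h0]
    have := up p (left_mem_Icc.2 hp.2)
    nlinarith
  have hP : h p * h p ^ (2 - n) ≤ Cs + 2 * n * R * Θ := by
    have := le_of_deriv_nonneg' (G := fun z => h z * h z ^ (2 - n) + (n - 3) * Θ * l0 z)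
      (G' := fun z => (h1 z * h z ^ (2 - n) + h z * ((2 - n) * (h z ^ (2 - n) / h z) * h1 z)) +
        (n - 3) * Θ * h z ^ (2 - n)) hp.2 ?_ ?_
    · have h3 := mul_le_mul_of_nonneg_left hl (show 0 ≤ (n - 3) * Θ from
        mul_nonneg (by linarith) hΘ)
      have h4 : 0 ≤ R * Θ := by positivity
      nlinarith
    · intro z hz
      have hz' := S.sub hp hx hz
      exact ((S.d0 z hz').mul ((rp_deriv (n := n) (S.pos z hz')).comp z (S.d0 z hz'))).add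
        ((S.dl0 z hz').const_mul _)
    · intro z hz
      have hz1 := Ioo_subset_Icc_self hz
      have pz := S.pos z (S.sub hp hx hz1)
      have ez := Real.rpow_pos_of_pos pz (2 - n)
      have e : (h1 z * h z ^ (2 - n) + h z * ((2 - n) * (h z ^ (2 - n) / h z) * h1 z)) +
        (n - 3) * Θ * h z ^ (2 - n) = (n - 3) * h z ^ (2 - n) * (Θ - h1 z) := by
        field_simp; ring
      show 0 ≤ (h1 z * h z ^ (2 - n) + h z * ((2 - n) * (h z ^ (2 - n) / h z) * h1 z)) +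
        (n - 3) * Θ * h z ^ (2 - n)
      rw [e]
      exact mul_nonneg (mul_nonneg (by linarith) ez.le) (by linarith [up z hz1])
  obtain ⟨q, hq, h3, h4⟩ := S.sll hp h0
  have hq' : q ∈ Ioc s xs := ⟨hq.1, hq.2.trans hp.2⟩
  by_cases hd : l0 p - l0 q ≤ R
  · have := abs_le_of_sq (h3.trans (hE q hq' (by linarith))) hΘ
    nlinarith
  · push Not at hd
    rw [abs_of_neg h0]
    have h5 : R * (-h1 p) ≤ R * (4 * Cs + 8 * n * Θ) := by nlinarith
    have := le_of_mul_le_mul_left h5 (by linarith)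
    nlinarith

end Pool.Agent.TF
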