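import Pool.Agent.P.MP_e83d7b_an.Glob

/-! Mass balance and immobility of the contact line. -/

namespace Pool.Agent.TF

open Set MeasureTheory Filter Topology

variable {n δ T ta tb xs K H β κ ε0 ε1 ε3 Cβ ca cb : ℝ} {m s : ℝ → ℝ}
  {h h1 h2 h3 k : ℝ → ℝ → ℝ} {c : Cut}

namespace Sol

variable (S : Sol n δ T s h h1 h2 h3 k)
include S

section

variable (W : Win δ T s ta tb xs)
include W

theorem core (Kc : Kst n δ ta tb xs K H c s h h1 h2 h3)
    (P : Par δ ta tb xs β κ ε0 ε1 ε3 Cβ ca cb m s h h1 h2) {G G' : ℝ → ℝ}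
    (dG : ∀ t, HasDerivAt G (G' t) t) (cG' : Continuous G')
    (hm : m = fun t => G t - Fl n ta tb xs h h3 t) {σ ε : ℝ} (hσ : |σ| = 1)
    (hG : ∀ t, 0 ≤ σ * G' t) (hε : 0 < ε) {t0 t1 : ℝ} (h0 : t0 ∈ Ioo ta tb)
    (h1' : t1 ∈ Ioo ta tb) (h01 : t0 ≤ t1) :
    σ * (NN c (fk c ca cb κ) n (s t1) xs β (m t1) (fun x => h x t1) + ca * Fl n ta tb xs h h3 t1) -
      σ * (NN c (fk c ca cb κ) n (s t0) xs β (m t0) (fun x => h x t0) +
        ca * Fl n ta tb xs h h3 t0) ≤ cb * (10 ^ 10 * K ^ 19) *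
      ((∫ t in Icc ta tb, Dd n s h h3 ε1 t) / ε +
        ε * (∫ t in Icc ta tb, (1 + Dd n s h h3 (3 * δ / 4) t)) +
        25 * K ^ 2 * (K ^ 2 + 4 * Cβ + 16) * ((∫ t in Icc ta tb, Dd n s h h3 ε3 t) / ε)) := by
  have i1 := (S.intD W P.e1).div_const ε
  have i2 := (S.int1D W).const_mul ε
  have i3 := ((S.intD W P.e3).div_const ε).const_mul (25 * K ^ 2 * (K ^ 2 + 4 * Cβ + 16))
  have K2 := Kc.K2
  have C0 := P.C0
  have cb0 := P.cb0
  have key := S.intB W (g := fun t => σ * (NN c (fk c ca cb κ) n (s t) xs β (m t)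
    (fun x => h x t) + ca * Fl n ta tb xs h h3 t)) h0 h1' h01
    (((i1.add i2).add i3).const_mul (cb * (10 ^ 10 * K ^ 19))) (fun t ht => by
      have := S.Dd_nn W ht le_rfl
      have := S.Dd_nn W ht P.e1
      have := S.Dd_nn W ht P.e3
      simp only [Pi.add_apply]
      positivity) fun t ht => by
      have ht' := Ioo_subset_Icc_self ht
      obtain ⟨N', d, b⟩ := S.derivN W P Kc
        (m' := fun t => G' t - h xs (cl ta tb t) ^ n * h3 xs (cl ta tb t))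
        (fun t => by rw [hm]; exact (dG t).sub (S.dFl W t)) (cG'.sub (S.cFl W)) ht
        (μ' := G' t) (by simp only [cl_eq ht']) hε
      refine ⟨_, (d.add ((S.dFl' W ht').const_mul ca)).const_mul σ, fun hg => ?_⟩
      obtain ⟨Q, hQ, b⟩ := b hg
      have e1 := le_abs_self (σ * (N' + ca * (h xs t ^ n * h3 xs t) + G' t * Q))
      rw [abs_mul, hσ, one_mul] at e1
      have e2 := mul_nonneg (hG t) hQ
      simp only [Pi.add_apply]
      linarith
  refine key.trans (le_of_eq ?_)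
  rw [integral_const_mul, integral_add' (i1.add i2) i3, integral_add' i1 i2, integral_const_mul,
    integral_const_mul, integral_div, integral_div]

theorem stepB (hmono : ∀ t0 ∈ Icc ta tb, ∀ t1 ∈ Icc ta tb, t0 ≤ t1 →
      Ml s h t0 xs + Fl n ta tb xs h h3 t0 ≤ Ml s h t1 xs + Fl n ta tb xs h h3 t1)
    {t0 t1 : ℝ} (h0 : t0 ∈ Ioo ta tb) (h1' : t1 ∈ Ioo ta tb) (h01 : t0 ≤ t1) :
    Ml s h t1 xs + Fl n ta tb xs h h3 t1 ≤ Ml s h t0 xs + Fl n ta tb xs h h3 t0 := by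
  obtain ⟨c⟩ := exists_cut
  obtain ⟨K, H, hH, Kc⟩ := S.exK W c
  have hδ := S.hδ
  have K2 := Kc.K2
  have h0' := Ioo_subset_Icc_self h0
  have h1'' := Ioo_subset_Icc_self h1'
  set I := ∫ t in Icc ta tb, (1 + Dd n s h h3 (3 * δ / 4) t) with hI
  rw [← sub_nonpos]
  refine nonpos_of_small (A := 4 + δ + 10 ^ 10 * K ^ 19 * (1 + I + 1)) fun η hη => ?_
  obtain ⟨e, he, h4⟩ := S.thin W hη.1
  obtain ⟨ε1, h5, h6⟩ := (S.diss W).2.2 1 one_pos (min e (δ / 4)) (lt_min he (by linarith))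
  have e1 : ε1 ≤ δ / 4 := h5.2.trans (min_le_right _ _)
  obtain ⟨β, hβ, κ, ε0, ε3, Cβ, hP, h7⟩ := S.exPar W Kc hH h5.1 e1 hη.1
  have cF : Continuous (Fl n ta tb xs h h3) :=
    continuous_iff_continuousAt.2 fun t => (S.dFl W t).continuousAt
  obtain ⟨G, G', dG, cG', G0, h8⟩ := smooth_mono
    (g := fun t => Ml s h (cl ta tb t) xs + Fl n ta tb xs h h3 (cl ta tb t))
    ((S.cMl W).add (cF.comp (cl_cont ta tb)))
    (fun u v huv => hmono _ (cl_mem W.ab u) _ (cl_mem W.ab v) (cl_mono ta tb huv)) ta tb hβ.1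
  have P := hP 1 η (fun t => G t - Fl n ta tb xs h h3 t) zero_le_one hη.1.le (fun t ht => by
      have := h8 t ht
      simp only [cl_eq ht] at this
      rwa [sub_sub, add_comm])
    fun t ht x hx g => by
      rw [one_mul]; exact h4 t ht x hx (g.trans (by linarith [h5.2.trans (min_le_left _ _)]))
  have key := S.core W Kc P dG cG' rfl (σ := 1) (ε := 1) abs_one (fun t => by
    rw [one_mul]; exact G0 t) one_pos h0 h1' h01
  have v1 := (S.evalN W (n := n) (c := c) P h1'').1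
  have v0 := (S.evalN W (n := n) (c := c) P h0').2
  simp only [one_mul, div_one, ← hI] at key v1 v0
  have a1 : η * (xs - s t1) ≤ η * δ :=
    mul_le_mul_of_nonneg_left (by linarith [W.hi t1 h1'']) hη.1.le
  have a2 : 0 ≤ η * (xs - s t0 - ε1) := mul_nonneg hη.1.le (by linarith [W.lo t0 h0'])
  have a3 : η * (10 ^ 10 * K ^ 19) * ((∫ t in Icc ta tb, Dd n s h h3 ε1 t) + I +
      25 * K ^ 2 * (K ^ 2 + 4 * Cβ + 16) * ∫ t in Icc ta tb, Dd n s h h3 ε3 t) ≤
      η * (10 ^ 10 * K ^ 19) * (1 + I + 1) :=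
    mul_le_mul_of_nonneg_left (add_le_add (add_le_add h6 le_rfl) (h7.trans hη.2))
      (by have := hη.1; positivity)
  linarith [hβ.2]

theorem stepC {μ0 : ℝ} (hc : ∀ t ∈ Icc ta tb, Ml s h t xs + Fl n ta tb xs h h3 t = μ0)
    {t0 t1 : ℝ} (h0 : t0 ∈ Ioo ta tb) (h1' : t1 ∈ Ioo ta tb) (h01 : t0 ≤ t1) : s t0 = s t1 := by
  obtain ⟨c⟩ := exists_cut
  obtain ⟨K, H, hH, Kc⟩ := S.exK W c
  have hδ := S.hδ
  have K2 := Kc.K2
  have h0' := Ioo_subset_Icc_self h0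
  have h1'' := Ioo_subset_Icc_self h1'
  set I := ∫ t in Icc ta tb, (1 + Dd n s h h3 (3 * δ / 4) t) with hI
  have main : ∀ η ∈ Ioc (0:ℝ) 1, |s t1 - s t0| ≤ η * (1 + 10 ^ 10 * K ^ 19 * (1 + I + 1)) := by
    intro η hη
    have η0 := hη.1
    obtain ⟨ε1, h5, h6⟩ := (S.diss W).2.2 (η ^ 2) (by positivity) (min η (δ / 4))
      (lt_min η0 (by linarith))
    have e1 : ε1 ≤ δ / 4 := h5.2.trans (min_le_right _ _)
    have e2 : ε1 ≤ η := h5.2.trans (min_le_left _ _)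
    obtain ⟨β, hβ, κ, ε0, ε3, Cβ, hP, h7⟩ := S.exPar W Kc hH h5.1 e1 (γ := η ^ 2) (by positivity)
    have P := hP 0 1 (fun t => μ0 - Fl n ta tb xs h h3 t) le_rfl zero_le_one (fun t ht => by
        rw [← hc t ht]; simpa using hβ.1.le) fun t ht x hx g => by simp
    have k1 := S.core W Kc P (G := fun _ => μ0) (G' := fun _ => 0)
      (fun t => hasDerivAt_const t μ0) continuous_const rfl (σ := 1) abs_one (by simp) η0 h0 h1' h01
    have k2 := S.core W Kc P (G := fun _ => μ0) (G' := fun _ => 0)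
      (fun t => hasDerivAt_const t μ0) continuous_const rfl (σ := -1) (by simp) (by simp) η0
      h0 h1' h01
    have v1 := S.evalN W (n := n) (c := c) P h1''
    have v0 := S.evalN W (n := n) (c := c) P h0'
    simp only [one_mul, zero_mul, add_zero, zero_sub, neg_mul, ← hI] at k1 k2 v1 v0
    have a1 : (∫ t in Icc ta tb, Dd n s h h3 ε1 t) / η ≤ η := by
      rw [div_le_iff₀ η0, ← sq]; exact h6
    have a2 : 25 * K ^ 2 * (K ^ 2 + 4 * Cβ + 16) * ((∫ t in Icc ta tb, Dd n s h h3 ε3 t) / η) ≤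
        η := by
      rw [← mul_div_assoc, div_le_iff₀ η0, ← sq]; exact h7
    have a3 : 10 ^ 10 * K ^ 19 * ((∫ t in Icc ta tb, Dd n s h h3 ε1 t) / η + η * I +
        25 * K ^ 2 * (K ^ 2 + 4 * Cβ + 16) * ((∫ t in Icc ta tb, Dd n s h h3 ε3 t) / η)) ≤
        10 ^ 10 * K ^ 19 * (η + η * I + η) := by gcongr
    rw [abs_le]
    constructor <;> linarith [v1.1, v1.2, v0.1, v0.2]
  have := nonpos_of_small main
  have := abs_nonpos_iff.1 this
  linarith

theorem Fl_shift {a b : ℝ} (ha : ta ≤ a) (hab : a ≤ b) (hb : b ≤ tb) {t : ℝ} (ht : t ∈ Icc a b) :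
    Fl n a b xs h h3 t = Fl n ta tb xs h h3 t - Fl n ta tb xs h h3 b := by
  have cF := S.cFl W
  unfold Fl prim
  rw [← intervalIntegral.integral_add_adjacent_intervals (a := t) (b := b) (c := tb)
    (cF.intervalIntegrable _ _) (cF.intervalIntegrable _ _)]
  have : ∫ τ in t..b, h xs (cl a b τ) ^ n * h3 xs (cl a b τ) =
      ∫ τ in t..b, h xs (cl ta tb τ) ^ n * h3 xs (cl ta tb τ) := by
    refine intervalIntegral.integral_congr fun z hz => ?_
    rw [uIcc_of_le ht.2] at hz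
    simp only [cl_eq (show z ∈ Icc a b from ⟨ht.1.trans hz.1, hz.2⟩),
      cl_eq (show z ∈ Icc ta tb from ⟨ha.trans (ht.1.trans hz.1), hz.2.trans hb⟩)]
  rw [this]
  ring

theorem loc {t0 t1 : ℝ} (h0 : t0 ∈ Ioo ta tb) (h1' : t1 ∈ Ioo ta tb) (h01 : t0 ≤ t1) :
    s t0 = s t1 := by
  obtain ⟨a, ha1, ha2⟩ := exists_between h0.1
  obtain ⟨a', ha3, ha4⟩ := exists_between ha2
  obtain ⟨b, hb1, hb2⟩ := exists_between h1'.2
  obtain ⟨b', hb3, hb4⟩ := exists_between hb1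
  have hab : a ≤ b := by linarith
  have hab' : a' ≤ b' := by linarith
  have W1 := W.sub ha1.le hab hb2.le
  have W2 := W1.sub ha3.le hab' hb4.le
  have mono : ∀ u ∈ Icc a b, ∀ v ∈ Icc a b, u ≤ v →
      Ml s h u xs + Fl n a b xs h h3 u ≤ Ml s h v xs + Fl n a b xs h h3 v := by
    intro u hu v hv huv
    rw [S.Fl_shift W ha1.le hab hb2.le hu, S.Fl_shift W ha1.le hab hb2.le hv]
    linarith [S.stepA W (t0 := u) (t1 := v) ⟨by linarith [hu.1], by linarith [hu.2]⟩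
      ⟨by linarith [hv.1], by linarith [hv.2]⟩ huv]
  refine S.stepC W2 (μ0 := Ml s h a' xs + Fl n a b xs h h3 a' - Fl n a b xs h h3 b')
    (fun t ht => ?_) ⟨ha4, by linarith⟩ ⟨by linarith, hb3⟩ h01
  rw [S.Fl_shift W1 ha3.le hab' hb4.le ht]
  have g1 : a' ∈ Ioo a b := ⟨ha3, by linarith⟩
  have g2 : t ∈ Ioo a b := ⟨by linarith [ht.1], by linarith [ht.2]⟩
  linarith [S.stepB W1 mono g1 g2 ht.1,
    mono a' (Ioo_subset_Icc_self g1) t (Ioo_subset_Icc_self g2) ht.1]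

end

theorem const {t t' : ℝ} (ht : t ∈ Ioo 0 T) (ht' : t' ∈ Ioo 0 T) : s t = s t' := by
  have hδ := S.hδ
  have key : ∀ u ∈ Ioo 0 T, HasDerivAt s 0 u := by
    intro u hu
    have hc : ContinuousAt s u := S.cs.continuousAt (Ioo_mem_nhds hu.1 hu.2)
    have h4 : ∀ᶠ τ in 𝓝 u, τ ∈ Ioo 0 T ∧ s τ ∈ Ioo (s u - δ / 4) (s u + δ / 4) :=
      Filter.Eventually.and (Ioo_mem_nhds hu.1 hu.2)
        (hc.eventually (Ioo_mem_nhds (by linarith) (by linarith)))
    obtain ⟨a, b, h5, h6, h7⟩ := exists_Icc_mem_subset_of_mem_nhds h4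
    have h8 : u ∈ Ioo a b := Icc_mem_nhds_iff.1 h6
    have hab : a ≤ b := h5.1.trans h5.2
    have W : Win δ T s a b (s u + δ / 2) :=
      ⟨(h7 (left_mem_Icc.2 hab)).1.1, hab, (h7 (right_mem_Icc.2 hab)).1.2,
        fun τ hτ => by linarith [(h7 hτ).2.2], fun τ hτ => by linarith [(h7 hτ).2.1]⟩
    refine (hasDerivAt_const u (s u)).congr_of_eventuallyEq ?_
    filter_upwards [Ioo_mem_nhds h8.1 h8.2] with v hv
    rcases le_total u v with g | g
    · exact (S.loc W h8 hv g).symm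
    · exact S.loc W hv h8 g
  exact isOpen_Ioo.is_const_of_deriv_eq_zero isPreconnected_Ioo
    (fun u hu => (key u hu).differentiableAt.differentiableWithinAt)
    (fun u hu => (key u hu).deriv) ht ht'

end Sol

end Pool.Agent.TF
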