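import Pool.Agent.P.MP_e83d7b_an.PerA

/-! Constants, parameters and monotonicity of the mass balance. -/

namespace Pool.Agent.TF

open Set MeasureTheory Filter Topology

variable {n δ T ta tb xs K H : ℝ} {s : ℝ → ℝ} {h h1 h2 h3 k : ℝ → ℝ → ℝ} {c : Cut}

theorem nonpos_of_small {x A : ℝ} (hx : ∀ η ∈ Ioc (0:ℝ) 1, x ≤ η * A) : x ≤ 0 := by
  by_contra hc
  push Not at hc
  have hA : 0 < A := by linarith [hx 1 ⟨one_pos, le_rfl⟩]
  have h1 := hx (min 1 (x / (2 * A))) ⟨lt_min one_pos (by positivity), min_le_left _ _⟩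
  have h2 : min 1 (x / (2 * A)) * A ≤ x / (2 * A) * A :=
    mul_le_mul_of_nonneg_right (min_le_right _ _) hA.le
  have h3 : x / (2 * A) * A = x / 2 := by field_simp
  linarith

theorem smooth_mono {g : ℝ → ℝ} (hg : Continuous g) (hm : Monotone g) (a b : ℝ) {β : ℝ}
    (hβ : 0 < β) : ∃ G G' : ℝ → ℝ, (∀ t, HasDerivAt G (G' t) t) ∧ Continuous G' ∧
      (∀ t, 0 ≤ G' t) ∧ ∀ t ∈ Icc a b, |G t - g t| ≤ β := by
  have hu := (isCompact_Icc (a := a) (b := b + 1)).uniformContinuousOn_of_continuous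
    hg.continuousOn
  obtain ⟨r, hr, h1⟩ := Metric.uniformContinuousOn_iff.1 hu β hβ
  set τ := min (r / 2) 1 with hτ
  have τ0 : 0 < τ := lt_min (by linarith) one_pos
  have τ1 : τ ≤ 1 := min_le_right _ _
  have τ2 : τ ≤ r / 2 := min_le_left _ _
  refine ⟨fun t => (prim 0 g (t + τ) - prim 0 g t) / τ, fun t => (g (t + τ) - g t) / τ,
    fun t => ?_, by fun_prop, fun t => div_nonneg (sub_nonneg.2 (hm (by linarith))) τ0.le,
    fun t ht => ?_⟩
  · exact (((prim_dx hg (t + τ)).comp_add_const t τ).sub (prim_dx hg t)).div_const τ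
  · obtain ⟨ξ, h2, h3⟩ := exists_hasDerivAt_eq_slope (prim 0 g) g (show t < t + τ by linarith)
      (fun x _ => (prim_dx hg x).continuousAt.continuousWithinAt) fun x _ => prim_dx hg x
    rw [add_sub_cancel_left] at h3
    simp only [← h3]
    have := h1 ξ ⟨by linarith [h2.1, ht.1], by linarith [h2.2, ht.2]⟩ t
      ⟨ht.1, by linarith [ht.2]⟩ (by
        rw [Real.dist_eq, abs_lt]; constructor <;> linarith [h2.1, h2.2])
    rw [Real.dist_eq] at this
    exact this.le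

theorem Win.sub (W : Win δ T s ta tb xs) {a b : ℝ} (ha : ta ≤ a) (hab : a ≤ b) (hb : b ≤ tb) :
    Win δ T s a b xs :=
  ⟨W.ta0.trans_le ha, hab, hb.trans_lt W.tbT, fun t ht => W.lo t ⟨ha.trans ht.1, ht.2.trans hb⟩,
    fun t ht => W.hi t ⟨ha.trans ht.1, ht.2.trans hb⟩⟩

/-- flux through the line `x = xs`, integrated in time -/
noncomputable def Fl (n ta tb xs : ℝ) (h h3 : ℝ → ℝ → ℝ) : ℝ → ℝ :=
  prim tb fun τ => h xs (cl ta tb τ) ^ n * h3 xs (cl ta tb τ)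

namespace Sol

variable (S : Sol n δ T s h h1 h2 h3 k) (W : Win δ T s ta tb xs)
include S W

theorem atx {g : ℝ → ℝ → ℝ} (hg : ContinuousOn (fun p : ℝ × ℝ => g p.1 p.2) (Dom δ T s)) :
    ∃ C, 0 ≤ C ∧ ∀ t ∈ Icc ta tb, |g xs t| ≤ C := by
  obtain ⟨C, h4, h5⟩ := S.bound W hg (ε := δ / 4) (by linarith [S.hδ])
  exact ⟨C, h4, fun t ht => h5 t ht xs ⟨W.lo t ht, le_rfl⟩⟩

omit W in
theorem cE : ContinuousOn (fun p : ℝ × ℝ => Et h h1 h2 p.2 p.1) (Dom δ T s) :=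
  (S.c0.mul S.c2).sub ((S.c1.pow 2).div_const 2)

theorem exK (c : Cut) : ∃ K H, 0 < H ∧ Kst n δ ta tb xs K H c s h h1 h2 h3 := by
  obtain ⟨H, hH, h4⟩ := S.boundH W
  obtain ⟨C1, p1, q1⟩ := S.atx W S.c1
  obtain ⟨C2, p2, q2⟩ := S.atx W (g := fun x t => Et h h1 h2 t x) S.cE
  obtain ⟨C3, p3, q3⟩ := S.atx W (g := fun x t => h x t * h x t ^ (2 - n))
    (S.c0.mul (S.cpow _))
  obtain ⟨C4, p4, q4⟩ := S.atx W
    (g := fun x t => (n - 2) * (h x t * h3 x t) + (n - 2) * (n - 1) * (h1 x t * h2 x t))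
    ((continuousOn_const.mul (S.c0.mul S.c3)).add (continuousOn_const.mul (S.c1.mul S.c2)))
  have a1 := sq_nonneg n
  have a2 := c.C1
  have a3 := sq_nonneg (Real.exp 5)
  have a4 := (Real.rpow_pos_of_pos (Real.exp_pos 5) (n - 2)).le
  have a5 := S.hδ
  have a6 : 0 < H * H ^ (2 - n) := mul_pos hH (Real.rpow_pos_of_pos hH _)
  have a7 : 0 < 1 / (H * H ^ (2 - n)) := by positivity
  refine ⟨n ^ 2 + 12 + 8 * c.C + Real.exp 5 ^ 2 + Real.exp 5 ^ (n - 2) + δ + H +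
    1 / (H * H ^ (2 - n)) + C1 + C2 + C3 + C4, H, hH, by linarith, by linarith, by linarith,
    by linarith, by linarith, by linarith, by linarith, ?_, h4,
    fun t ht => by linarith [q1 t ht], fun t ht => by linarith [q2 t ht],
    fun t ht => by linarith [q3 t ht, le_abs_self (h xs t * h xs t ^ (2 - n))],
    fun t ht => (le_abs_self _).trans ((q4 t ht).trans (by linarith))⟩
  rw [← div_le_iff₀ a6]
  linarith

theorem Ml_le (hH : ∀ t ∈ Icc ta tb, ∀ x ∈ Icc (s t) xs, h x t ≤ H) {t x : ℝ}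
    (ht : t ∈ Icc ta tb) (hx : x ∈ Icc (s t) xs) : Ml s h t x ≤ H * (x - s t) := by
  rw [show H * (x - s t) = ∫ _ in s t..x, H by simp [mul_comm]]
  exact intervalIntegral.integral_mono_on hx.1 (S.intH W ht (S.sI W ht) hx)
    intervalIntegrable_const fun z hz => hH t ht z ⟨hz.1, hz.2.trans hx.2⟩

theorem Ml_ge {t x p c0 : ℝ} (ht : t ∈ Icc ta tb) (hp : s t ≤ p) (hx : x ∈ Icc p xs)
    (hc : ∀ z ∈ Icc p xs, c0 ≤ h z t) : c0 * (x - p) ≤ Ml s h t x := by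
  have hp' : p ∈ Icc (s t) xs := ⟨hp, hx.1.trans hx.2⟩
  have hx' : x ∈ Icc (s t) xs := ⟨hp.trans hx.1, hx.2⟩
  have h4 := S.Ml_nn W ht hp'
  unfold Ml at h4 ⊢
  rw [← intervalIntegral.integral_add_adjacent_intervals (S.intH W ht (S.sI W ht) hp')
    (S.intH W ht hp' hx'), show c0 * (x - p) = ∫ _ in p..x, c0 by simp [mul_comm]]
  exact le_add_of_nonneg_of_le h4 (intervalIntegral.integral_mono_on hx.1
    intervalIntegrable_const (S.intH W ht hp' hx') fun z hz => hc z ⟨hz.1, hz.2.trans hx.2⟩)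

theorem cFl : Continuous fun τ => h xs (cl ta tb τ) ^ n * h3 xs (cl ta tb τ) :=
  cl_continuous (g := fun τ => h xs τ ^ n * h3 xs τ) W.ab
    (S.cF.comp (f := fun τ : ℝ => (xs, τ)) (by fun_prop) fun _ ht => S.memD W ht (S.xsI W ht))

theorem dFl (t : ℝ) : HasDerivAt (Fl n ta tb xs h h3)
    (h xs (cl ta tb t) ^ n * h3 xs (cl ta tb t)) t := prim_dx (S.cFl W) t

theorem dFl' {t : ℝ} (ht : t ∈ Icc ta tb) :
    HasDerivAt (Fl n ta tb xs h h3) (h xs t ^ n * h3 xs t) t := by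
  simpa only [cl_eq ht] using S.dFl W t

theorem cMl : Continuous fun t => Ml s h (cl ta tb t) xs := by
  have hs : Continuous fun t => s (cl ta tb t) := cl_continuous W.ab (S.cs' W)
  have hc := cl_cont ta tb
  have hm : ∀ t, cl ta tb t ∈ Icc ta tb := cl_mem W.ab
  have hf : Continuous (Function.uncurry fun t z =>
      h (cl (s (cl ta tb t)) xs z) (cl ta tb t)) := by
    refine (S.ch.mono (S.KC W)).comp_continuous
      (f := fun p : ℝ × ℝ => (cl (s (cl ta tb p.1)) xs p.2, cl ta tb p.1)) ?_ fun p => ?_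
    · exact ((hs.comp continuous_fst).max (continuous_snd.min continuous_const)).prodMk
        (hc.comp continuous_fst)
    · have := cl_mem (S.xsI W (hm p.1)).1.le p.2
      exact ⟨hm _, by simpa using this.1, this.2⟩
  have := (intervalIntegral.continuous_parametric_intervalIntegral_of_continuous (μ := volume)
    (a₀ := xs) hf hs).neg
  refine this.congr fun t => ?_
  simp only [Ml, Pi.neg_apply]
  rw [intervalIntegral.integral_symm, neg_neg]
  refine intervalIntegral.integral_congr fun z hz => ?_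
  rw [uIcc_of_le (S.xsI W (hm t)).1.le] at hz
  simp only [cl_eq hz]

theorem intB {t0 t1 : ℝ} {g B : ℝ → ℝ} (h0 : t0 ∈ Ioo ta tb) (h1' : t1 ∈ Ioo ta tb)
    (h01 : t0 ≤ t1) (hB : IntegrableOn B (Icc ta tb)) (B0 : ∀ t ∈ Icc ta tb, 0 ≤ B t)
    (hd : ∀ t ∈ Ioo ta tb, ∃ g', HasDerivAt g g' t ∧
      (IntegrableOn (fun x => h x t ^ n * h3 x t ^ 2) (Ioc (s t) (s t + 3 * δ / 4)) → g' ≤ B t)) :
    g t1 - g t0 ≤ ∫ t in Icc ta tb, B t := by
  have sub : Icc t0 t1 ⊆ Icc ta tb := Icc_subset_Icc h0.1.le h1'.2.le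
  refine (sub_le_integral_ae h01 (fun t ht => hd t ⟨h0.1.trans_le ht.1, ht.2.trans_lt h1'.2⟩)
    (ae_restrict_of_ae_restrict_of_subset sub (S.diss W).1) (hB.mono_set sub)).trans ?_
  refine setIntegral_mono_set hB ?_ (LE.le.eventuallyLE sub)
  filter_upwards [ae_restrict_mem measurableSet_Icc] with t ht using B0 t ht

theorem intD {ε : ℝ} (hε : ε ≤ 3 * δ / 4) : IntegrableOn (Dd n s h h3 ε) (Icc ta tb) :=
  (S.diss W).2.1 ε hε

theorem int1D : IntegrableOn (fun t => 1 + Dd n s h h3 (3 * δ / 4) t) (Icc ta tb) :=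
  (integrableOn_const (by simp)).add (S.intD W le_rfl)

theorem stepA {t0 t1 : ℝ} (h0 : t0 ∈ Ioo ta tb) (h1' : t1 ∈ Ioo ta tb) (h01 : t0 ≤ t1) :
    Ml s h t0 xs + Fl n ta tb xs h h3 t0 ≤ Ml s h t1 xs + Fl n ta tb xs h h3 t1 := by
  obtain ⟨c⟩ := exists_cut
  obtain ⟨K, H, hH, Kc⟩ := S.exK W c
  have hδ := S.hδ
  have K2 := Kc.K2
  have h0' := Ioo_subset_Icc_self h0
  have h1'' := Ioo_subset_Icc_self h1'
  set I := ∫ t in Icc ta tb, (1 + Dd n s h h3 (3 * δ / 4) t) with hI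
  have I0 : 0 ≤ I := setIntegral_nonneg measurableSet_Icc fun t ht => by
    linarith [S.Dd_nn W ht le_rfl]
  rw [← sub_nonpos]
  refine nonpos_of_small (A := H + 2000 * K ^ 7 * I) fun η hη => ?_
  set ε4 := min η (δ / 4) with hε4
  have e4 : 0 < ε4 := lt_min hη.1 (by linarith)
  have e4' : ε4 ≤ δ / 4 := min_le_right _ _
  have e4'' : ε4 ≤ η := min_le_left _ _
  obtain ⟨c0, hc0, h4⟩ := S.low W e4
  set L := |pl0 n xs (fun x => h x t0) (s t0 + ε4)| with hL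
  have L0 : 0 ≤ L := abs_nonneg _
  set ε := min η (1 / (L + 1)) with hε
  have ε0 : 0 < ε := lt_min hη.1 (by positivity)
  have ε1 : ε ≤ η := min_le_left _ _
  have ε2 : ε ≤ 1 := ε1.trans hη.2
  have ε3 : L ≤ 1 / ε ^ 2 := by
    rw [le_div_iff₀ (by positivity)]
    have a1 : ε ≤ 1 / (L + 1) := min_le_right _ _
    rw [le_div_iff₀ (by positivity)] at a1
    have a2 : ε ^ 2 ≤ ε := pow_le_of_le_one ε0.le ε2 (by norm_num)
    nlinarith
  set κ := min (ε ^ 4) (c0 / 2) with hκ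
  have κ0 : 0 < κ := lt_min (by positivity) (by linarith)
  have κ1 : κ ≤ c0 / 2 := min_le_right _ _
  obtain ⟨e, he, h5⟩ := S.thin W κ0
  set e0 := min e ε4 with he0
  have e00 : 0 < e0 := lt_min he e4
  have e01 : e0 ≤ ε4 := min_le_right _ _
  have th : ∀ t ∈ Icc ta tb, ∀ x ∈ Icc (s t) xs, x ≤ s t + e0 → h x t ≤ κ := fun t ht x hx g =>
    h5 t ht x hx (g.trans (by linarith [min_le_left e ε4]))
  have key := S.intB W (g := fun t => -(PP c (fk c 1 0 κ) n (s t) xs (1 / ε ^ 2) (fun x => h x t) +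
    Fl n ta tb xs h h3 t)) (B := fun t => 2000 * K ^ 7 * (ε * (1 + Dd n s h h3 (3 * δ / 4) t)))
    h0 h1' h01 (((S.int1D W).const_mul ε).const_mul _)
    (fun t ht => by have := S.Dd_nn W ht le_rfl; positivity) fun t ht => by
      obtain ⟨P', d, b⟩ := S.derivP W Kc ε0 ε2 κ0 (min_le_left _ _) e00 (e01.trans e4') th
        (fun t ht => by linarith [h4 t ht xs ⟨by linarith [W.lo t ht], le_rfl⟩]) ht
      exact ⟨_, (d.add (S.dFl' W (Ioo_subset_Icc_self ht))).neg, b⟩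
  rw [integral_const_mul, integral_const_mul, ← hI] at key
  have ev : ∀ t ∈ Icc ta tb, _ := fun t ht => S.evalP W (c := c) (α := s t + e0) (R := 1 / ε ^ 2)
    ht κ0 (by positivity) (by linarith) (by linarith [W.lo t ht]) (th t ht)
  have v1 := (ev t1 h1'').1
  have hp : s t0 + ε4 ≤ xs := by linarith [W.lo t0 h0']
  have v0 := (ev t0 h0').2 (s t0 + ε4) ⟨by linarith, hp⟩ (fun x hx => by linarith [h4 t0 h0' x hx])
    ((neg_le_abs _).trans ε3)
  have v2 := S.Ml_le W Kc.hH h0' (x := s t0 + ε4) ⟨by linarith, hp⟩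
  rw [add_sub_cancel_left] at v2
  have v3 : H * ε4 ≤ H * η := by gcongr
  have v4 : 2000 * K ^ 7 * (ε * I) ≤ 2000 * K ^ 7 * (η * I) := by gcongr
  nlinarith

theorem exPar (Kc : Kst n δ ta tb xs K H c s h h1 h2 h3) (hH : 0 < H) {ε1 γ : ℝ} (e1 : 0 < ε1)
    (e1' : ε1 ≤ δ / 4) (hγ : 0 < γ) : ∃ β ∈ Ioc 0 γ, ∃ κ ε0 ε3 Cβ,
      (∀ (ca cb : ℝ) (m : ℝ → ℝ), 0 ≤ ca → 0 ≤ cb → (∀ t ∈ Icc ta tb, |m t - Ml s h t xs| ≤ β) →
        (∀ t ∈ Icc ta tb, ∀ x ∈ Icc (s t) xs, x ≤ s t + ε1 → ca * h x t ≤ cb) →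
        Par δ ta tb xs β κ ε0 ε1 ε3 Cβ ca cb m s h h1 h2) ∧
      25 * K ^ 2 * (K ^ 2 + 4 * Cβ + 16) * ∫ t in Icc ta tb, Dd n s h h3 ε3 t ≤ γ := by
  have hδ := S.hδ
  have K2 := Kc.K2
  obtain ⟨c1, hc1, h4⟩ := S.low W (half_pos e1)
  set β := min γ (c1 * ε1 / 8) with hβ
  have β0 : 0 < β := lt_min hγ (by positivity)
  have β1 : β ≤ c1 * ε1 / 8 := min_le_right _ _
  have big : ∀ t ∈ Icc ta tb, ∀ x ∈ Icc (s t + ε1 / 2) xs,
      c1 * (x - (s t + ε1 / 2)) ≤ Ml s h t x := fun t ht x hx =>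
    S.Ml_ge W ht (by linarith) hx (h4 t ht)
  obtain ⟨Cβ, C0, h5⟩ := S.bound W (g := fun x t => Et h h1 h2 t x) S.cE (ε := β / H)
    (by positivity)
  set Cb := 25 * K ^ 2 * (K ^ 2 + 4 * Cβ + 16) with hCb
  have Cb0 : 0 < Cb := by positivity
  obtain ⟨ε3, h6, h7⟩ := (S.diss W).2.2 (γ / Cb) (by positivity) (min (β / H) (δ / 4))
    (lt_min (by positivity) (by linarith))
  obtain ⟨c2, hc2, h8⟩ := S.low W h6.1
  obtain ⟨e, he, h9⟩ := S.thin W (γ := c2 / 3) (by linarith)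
  have far : ∀ t ∈ Icc ta tb, ∀ x ∈ Icc (s t) xs, β ≤ Ml s h t x → s t + β / H ≤ x := by
    intro t ht x hx g
    have := g.trans (S.Ml_le W Kc.hH ht hx)
    have : β / H ≤ x - s t := by rw [div_le_iff₀ hH]; linarith
    linarith
  refine ⟨β, ⟨β0, min_le_left _ _⟩, c2 / 3, min e (min (β / H) (δ / 4)), ε3, Cβ,
    fun ca cb m ca0 cb0 m1 m3 => ⟨β0, by linarith,
      lt_min he (lt_min (by positivity) (by linarith)),
      (min_le_right _ _).trans (min_le_right _ _), by linarith,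
      by linarith [h6.2.trans (min_le_right _ _)], ca0, cb0, C0, m1, ?_, ?_, m3, ?_, ?_, ?_⟩, ?_⟩
  · intro t ht x hx g
    by_contra hc
    push Not at hc
    have := big t ht x ⟨by linarith, hx.2⟩
    have : c1 * (ε1 / 2) < c1 * (x - (s t + ε1 / 2)) := by gcongr; linarith
    linarith
  · intro t ht
    have := big t ht xs ⟨by linarith [W.lo t ht], le_rfl⟩
    have : c1 * (ε1 / 2) ≤ c1 * (xs - (s t + ε1 / 2)) := by gcongr; linarith [W.lo t ht]
    linarith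
  · intro t ht x hx g
    have := far t ht x hx g
    exact ⟨by linarith [h6.2.trans (min_le_left _ _)], (abs_le.1 (h5 t ht x ⟨this, hx.2⟩)).1⟩
  · intro t ht x hx
    linarith [h8 t ht x hx]
  · intro t ht x hx g
    refine ⟨h9 t ht x hx (g.trans (by linarith [min_le_left e (min (β / H) (δ / 4))])), ?_⟩
    refine (S.Ml_le W Kc.hH ht hx).trans ?_
    have : x - s t ≤ β / H := by
      linarith [(min_le_right e (min (β / H) (δ / 4))).trans (min_le_left _ _)]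
    rw [le_div_iff₀ hH] at this
    linarith
  · rw [le_div_iff₀ Cb0] at h7
    unfold Dd
    linarith

end Sol

end Pool.Agent.TF
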