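import Pool.Agent.P.MP_e83d7b_an.Est2

/-! The time derivative of the marker functional: integration by parts. -/

namespace Pool.Agent.TF

open Set MeasureTheory Filter Topology

structure Bx (n a b : ℝ) (h h1 F k et l0 l3 L0 L3 M : ℝ → ℝ) : Prop where
  ab : a ≤ b
  ch : Continuous h
  ch1 : Continuous h1
  cF : Continuous F
  ck : Continuous k
  cet : Continuous et
  cl0 : Continuous l0
  cl3 : Continuous l3
  cL0 : Continuous L0
  cL3 : Continuous L3
  cM : Continuous M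
  pos : ∀ x, 0 < h x
  etp : ∀ x, 0 < et x
  dh : ∀ x ∈ Ioo a b, HasDerivAt h (h1 x) x
  dF : ∀ x ∈ Ioo a b, HasDerivAt F (-k x) x
  det : ∀ x ∈ Ioo a b, HasDerivAt et ((2 - n) * (et x / h x) * h1 x) x
  dl0 : ∀ x ∈ Ioo a b, HasDerivAt l0 (et x) x
  dl3 : ∀ x ∈ Ioo a b, HasDerivAt l3 (1 / h x ^ 3) x
  dM : ∀ x ∈ Ioo a b, HasDerivAt M (h x) x
  dL0 : ∀ x ∈ Ioo a b, HasDerivAt L0 ((2 - n) * (et x / h x) * k x) x
  dL3 : ∀ x ∈ Ioo a b, HasDerivAt L3 (-3 * k x / h x ^ 4) x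

structure Fd (f f1 f2 : ℝ → ℝ) : Prop where
  d0 : ∀ v, HasDerivAt f (f1 v) v
  d1 : ∀ v, HasDerivAt f1 (f2 v) v
  c2 : Continuous f2

theorem Fd.c0 {f f1 f2 : ℝ → ℝ} (c : Fd f f1 f2) : Continuous f :=
  continuous_iff_continuousAt.2 fun x => (c.d0 x).continuousAt

theorem Fd.c1 {f f1 f2 : ℝ → ℝ} (c : Fd f f1 f2) : Continuous f1 :=
  continuous_iff_continuousAt.2 fun x => (c.d1 x).continuousAt

noncomputable def rr (h l0 l3 : ℝ → ℝ) (x y : ℝ) : ℝ := l0 y - l0 x + h x ^ 2 * (l3 y - l3 x)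

noncomputable def rt (h k l3 L0 L3 : ℝ → ℝ) (x y : ℝ) : ℝ :=
  L0 y - L0 x + 2 * h x * k x * (l3 y - l3 x) + h x ^ 2 * (L3 y - L3 x)

noncomputable def rx (h h1 et l3 : ℝ → ℝ) (x y : ℝ) : ℝ :=
  -et x + 2 * h x * h1 x * (l3 y - l3 x) - 1 / h x

noncomputable def GG (c : Cut) (f : ℝ → ℝ) (a b : ℝ) (h l0 l3 : ℝ → ℝ) (y : ℝ) : ℝ :=
  ∫ x in a..b, f (h x) * (1 - c.S (rr h l0 l3 x y))

noncomputable def Gt (c : Cut) (f f1 : ℝ → ℝ) (a b : ℝ) (h k l0 l3 L0 L3 : ℝ → ℝ) (y : ℝ) : ℝ :=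
  ∫ x in a..b, (f1 (h x) * k x * (1 - c.S (rr h l0 l3 x y)) -
    f (h x) * c.S1 (rr h l0 l3 x y) * rt h k l3 L0 L3 x y)

noncomputable def Gy (c : Cut) (f : ℝ → ℝ) (a b : ℝ) (h et l0 l3 : ℝ → ℝ) (y : ℝ) : ℝ :=
  ∫ x in a..b, -(f (h x) * c.S1 (rr h l0 l3 x y) * (et y + h x ^ 2 / h y ^ 3))

noncomputable def W0 (c : Cut) (β τ : ℝ) : ℝ := c.S (τ / β - 2)
noncomputable def W1 (c : Cut) (β τ : ℝ) : ℝ := c.S1 (τ / β - 2) / β
noncomputable def W2 (c : Cut) (β τ : ℝ) : ℝ := c.S2 (τ / β - 2) / β ^ 2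

theorem W0_deriv (c : Cut) (β τ : ℝ) : HasDerivAt (W0 c β) (W1 c β τ) τ := by
  have := (c.d0 (τ / β - 2)).comp τ (((hasDerivAt_id τ).div_const β).sub_const 2)
  refine HasDerivAt.congr_deriv (f := W0 c β) this ?_
  unfold W1
  ring

theorem W1_deriv (c : Cut) (β τ : ℝ) : HasDerivAt (W1 c β) (W2 c β τ) τ := by
  have := ((c.d1 (τ / β - 2)).comp τ (((hasDerivAt_id τ).div_const β).sub_const 2)).div_const β
  refine HasDerivAt.congr_deriv (f := W1 c β) this ?_
  unfold W2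
  ring

theorem W0_cont (c : Cut) (β : ℝ) : Continuous (W0 c β) :=
  continuous_iff_continuousAt.2 fun x => (W0_deriv c β x).continuousAt

theorem W1_cont (c : Cut) (β : ℝ) : Continuous (W1 c β) :=
  continuous_iff_continuousAt.2 fun x => (W1_deriv c β x).continuousAt

theorem W2_cont (c : Cut) (β : ℝ) : Continuous (W2 c β) := by
  have := c.c2
  unfold W2
  fun_prop

theorem W1_nn (c : Cut) {β : ℝ} (hβ : 0 < β) (τ : ℝ) : 0 ≤ W1 c β τ :=
  div_nonneg (c.s1nn _) hβ.le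

theorem W1_le (c : Cut) {β : ℝ} (hβ : 0 < β) (τ : ℝ) : W1 c β τ ≤ c.C / β :=
  div_le_div_of_nonneg_right (c.b1 _) hβ.le

theorem W1_lo (c : Cut) {β τ : ℝ} (hβ : 0 < β) (h : τ ≤ 2 * β) : W1 c β τ = 0 := by
  unfold W1
  rw [c.s1z _ (Or.inl (by rw [sub_nonpos, div_le_iff₀ hβ]; exact h)), zero_div]

theorem W1_hi (c : Cut) {β τ : ℝ} (hβ : 0 < β) (h : 3 * β ≤ τ) : W1 c β τ = 0 := by
  unfold W1
  rw [c.s1z _ (Or.inr (by rw [le_sub_iff_add_le, le_div_iff₀ hβ]; linarith)), zero_div]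

theorem W0_lo (c : Cut) {β τ : ℝ} (hβ : 0 < β) (h : τ ≤ 2 * β) : W0 c β τ = 0 :=
  c.zero _ (by rw [sub_nonpos, div_le_iff₀ hβ]; exact h)

theorem W0_hi (c : Cut) {β τ : ℝ} (hβ : 0 < β) (h : 3 * β ≤ τ) : W0 c β τ = 1 :=
  c.one _ (by rw [le_sub_iff_add_le, le_div_iff₀ hβ]; linarith)

noncomputable def Dn (c : Cut) (f f1 : ℝ → ℝ) (a b β : ℝ) (h k l0 l3 L0 L3 M Mt : ℝ → ℝ) : ℝ :=
  ∫ y in a..b, ((W2 c β (M y) * Mt y * h y + W1 c β (M y) * k y) * GG c f a b h l0 l3 y +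
    W1 c β (M y) * h y * Gt c f f1 a b h k l0 l3 L0 L3 y)

noncomputable def e1 (c : Cut) (f f1 f2 : ℝ → ℝ) (h h1 F et l0 l3 L0 L3 : ℝ → ℝ) (x y : ℝ) : ℝ :=
  F x * (f2 (h x) * h1 x * (1 - c.S (rr h l0 l3 x y)) -
      f1 (h x) * c.S1 (rr h l0 l3 x y) * rx h h1 et l3 x y -
      2 * ((f1 (h x) * h x + f (h x)) * h1 x * c.S1 (rr h l0 l3 x y) * (l3 y - l3 x) +
        f (h x) * h x * c.S2 (rr h l0 l3 x y) * rx h h1 et l3 x y * (l3 y - l3 x) -
        f (h x) * c.S1 (rr h l0 l3 x y) / h x ^ 2)) -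
    f (h x) * c.S1 (rr h l0 l3 x y) * (L0 y - L0 x + h x ^ 2 * (L3 y - L3 x))

noncomputable def ee (c : Cut) (f f1 f2 : ℝ → ℝ) (h h1 F et l0 l3 L0 L3 : ℝ → ℝ) (x y : ℝ) : ℝ :=
  e1 c f f1 f2 h h1 F et l0 l3 L0 L3 x y -
    F y / h y * (f (h x) * c.S1 (rr h l0 l3 x y) * (et y + h x ^ 2 / h y ^ 3))

variable {n a b β : ℝ} {h h1 F k et l0 l3 L0 L3 M Mt f f1 f2 : ℝ → ℝ} {c : Cut}

theorem integral_four {A B C D : ℝ → ℝ} {p q : ℝ} (hA : Continuous A) (hB : Continuous B)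
    (hC : Continuous C) (hD : Continuous D) :
    ∫ y in a..b, (A y + (p * B y + (q * C y + D y))) =
      (∫ y in a..b, A y) + (p * (∫ y in a..b, B y) + (q * (∫ y in a..b, C y) + ∫ y in a..b, D y)) := by
  rw [intervalIntegral.integral_add, intervalIntegral.integral_add,
    intervalIntegral.integral_add, intervalIntegral.integral_const_mul,
    intervalIntegral.integral_const_mul]
  all_goals exact Continuous.intervalIntegrable (by fun_prop) _ _

namespace Bx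

variable (S : Bx n a b h h1 F k et l0 l3 L0 L3 M)
include S

theorem l0mono {x y : ℝ} (hx : x ∈ Icc a b) (hy : y ∈ Icc a b) (hxy : x ≤ y) : l0 x ≤ l0 y :=
  Fc.mono_gen S.cl0 S.dl0 (fun x => (S.etp x).le) hx hy hxy

theorem l3mono {x y : ℝ} (hx : x ∈ Icc a b) (hy : y ∈ Icc a b) (hxy : x ≤ y) : l3 x ≤ l3 y :=
  Fc.mono_gen S.cl3 S.dl3 (fun x => by have := S.pos x; positivity) hx hy hxy

theorem Mmono {x y : ℝ} (hx : x ∈ Icc a b) (hy : y ∈ Icc a b) (hxy : x ≤ y) : M x ≤ M y :=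
  Fc.mono_gen S.cM S.dM (fun x => (S.pos x).le) hx hy hxy

theorem rr_nonpos {x y : ℝ} (hx : x ∈ Icc a b) (hy : y ∈ Icc a b) (hxy : y ≤ x) :
    rr h l0 l3 x y ≤ 0 := by
  have h1 := S.l0mono hy hx hxy
  have h2 := S.l3mono hy hx hxy
  unfold rr
  nlinarith [sq_nonneg (h x)]

theorem c_rr : Continuous fun p : ℝ × ℝ => rr h l0 l3 p.1 p.2 := by
  have := S.ch; have := S.cl0; have := S.cl3
  unfold rr
  fun_prop

theorem c_inv : Continuous fun x => (h x)⁻¹ := S.ch.inv₀ fun x => (S.pos x).ne'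

theorem c_rx : Continuous fun p : ℝ × ℝ => rx h h1 et l3 p.1 p.2 := by
  have := S.ch; have := S.ch1; have := S.cl3; have := S.cet; have := S.c_inv
  unfold rx
  simp only [one_div]
  fun_prop (disch := intro _; exact (S.pos _).ne')

theorem c_gy (Hf : Fd f f1 f2) : Continuous fun p : ℝ × ℝ =>
    -(f (h p.1) * c.S1 (rr h l0 l3 p.1 p.2) * (et p.2 + h p.1 ^ 2 / h p.2 ^ 3)) := by
  have := S.ch; have := S.cet; have := S.c_inv; have := S.c_rr; have := Hf.c0; have := c.c1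
  simp only [div_eq_mul_inv, ← inv_pow]
  fun_prop (disch := intro _; exact (S.pos _).ne')

theorem c_e1 (Hf : Fd f f1 f2) : Continuous fun p : ℝ × ℝ =>
    e1 c f f1 f2 h h1 F et l0 l3 L0 L3 p.1 p.2 := by
  have := S.ch; have := S.cet; have := S.c_inv; have := S.c_rr; have := Hf.c0; have := c.c1
  have := Hf.c1; have := Hf.c2; have := c.c0; have := c.c2; have := S.c_rx; have := S.cF
  have := S.ch1; have := S.cl3; have := S.cL0; have := S.cL3
  unfold e1
  simp only [div_eq_mul_inv, ← inv_pow]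
  fun_prop (disch := intro _; exact (S.pos _).ne')

theorem c_GG (Hf : Fd f f1 f2) : Continuous (GG c f a b h l0 l3) := by
  have := S.ch; have := S.c_rr; have := Hf.c0; have := c.c0
  unfold GG
  exact intervalIntegral.continuous_parametric_intervalIntegral_of_continuous'
    (f := fun y x => f (h x) * (1 - c.S (rr h l0 l3 x y))) (by
      unfold Function.uncurry; fun_prop) a b

theorem c_Gy (Hf : Fd f f1 f2) : Continuous (Gy c f a b h et l0 l3) := by
  have := S.c_gy (c := c) Hf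
  unfold Gy
  exact intervalIntegral.continuous_parametric_intervalIntegral_of_continuous'
    (f := fun y x => -(f (h x) * c.S1 (rr h l0 l3 x y) * (et y + h x ^ 2 / h y ^ 3)))
    (this.comp continuous_swap) a b

theorem c_Ie1 (Hf : Fd f f1 f2) :
    Continuous fun y => ∫ x in a..b, e1 c f f1 f2 h h1 F et l0 l3 L0 L3 x y :=
  intervalIntegral.continuous_parametric_intervalIntegral_of_continuous'
    (f := fun y x => e1 c f f1 f2 h h1 F et l0 l3 L0 L3 x y)
    ((S.c_e1 (c := c) Hf).comp continuous_swap) a b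

theorem d_GG (Hf : Fd f f1 f2) {y : ℝ} (hy : y ∈ Ioo a b) :
    HasDerivAt (GG c f a b h l0 l3) (Gy c f a b h et l0 l3 y) y := by
  have := S.ch; have := S.c_rr; have := Hf.c0; have := c.c0
  refine hasDerivAt_param (G := fun x y => f (h x) * (1 - c.S (rr h l0 l3 x y)))
    (G' := fun x y => -(f (h x) * c.S1 (rr h l0 l3 x y) * (et y + h x ^ 2 / h y ^ 3)))
    (by unfold Function.uncurry; fun_prop) (S.c_gy Hf) (Ioo_mem_nhds hy.1 hy.2) ?_
  intro x _ t ht
  have hr : HasDerivAt (rr h l0 l3 x) (et t + h x ^ 2 * (1 / h t ^ 3)) t :=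
    ((S.dl0 t ht).sub_const _).add (((S.dl3 t ht).sub_const _).const_mul _)
  have := (((c.d0 (rr h l0 l3 x t)).comp t hr).const_sub 1).const_mul (f (h x))
  refine HasDerivAt.congr_deriv (f := fun y => f (h x) * (1 - c.S (rr h l0 l3 x y))) this ?_
  ring

theorem d_rr {x : ℝ} (hx : x ∈ Ioo a b) (y : ℝ) :
    HasDerivAt (fun x => rr h l0 l3 x y) (rx h h1 et l3 x y) x := by
  have h2 : HasDerivAt (fun z => h z ^ 2) (2 * h x * h1 x) x := by
    simpa using (S.dh x hx).fun_pow 2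
  have := ((S.dl0 x hx).const_sub (l0 y)).add (h2.mul ((S.dl3 x hx).const_sub (l3 y)))
  refine HasDerivAt.congr_deriv (f := fun x => rr h l0 l3 x y) this ?_
  unfold rx
  have := S.pos x
  field_simp
  ring

theorem Gt_eq (Hf : Fd f f1 f2) {ca : ℝ} (ha0 : f (h a) = 0) (ha1 : f1 (h a) = 0)
    (hb1 : f1 (h b) = ca) {y : ℝ} (hy : y ∈ Icc a b) :
    Gt c f f1 a b h k l0 l3 L0 L3 y =
      -(ca * F b) + ∫ x in a..b, e1 c f f1 f2 h h1 F et l0 l3 L0 L3 x y := by
  have := S.ch; have hr := S.c_rr; have := Hf.c0; have := c.c0; have := c.c1; have := Hf.c1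
  have := S.cF; have := S.cl3; have := S.ck; have := S.cL0; have := S.cL3
  have hry : Continuous fun x => rr h l0 l3 x y := hr.comp (continuous_id.prodMk continuous_const)
  have he : Continuous fun x => e1 c f f1 f2 h h1 F et l0 l3 L0 L3 x y :=
    (S.c_e1 (c := c) Hf).comp (continuous_id.prodMk continuous_const)
  have hg : Continuous fun x => f1 (h x) * k x * (1 - c.S (rr h l0 l3 x y)) -
      f (h x) * c.S1 (rr h l0 l3 x y) * rt h k l3 L0 L3 x y := by
    unfold rt; fun_prop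
  have key := intervalIntegral.integral_eq_sub_of_hasDerivAt_of_le S.ab
    (f := fun x => F x * (f1 (h x) * (1 - c.S (rr h l0 l3 x y)) -
      2 * (f (h x) * c.S1 (rr h l0 l3 x y) * h x * (l3 y - l3 x))))
    (f' := fun x => e1 c f f1 f2 h h1 F et l0 l3 L0 L3 x y -
      (f1 (h x) * k x * (1 - c.S (rr h l0 l3 x y)) -
      f (h x) * c.S1 (rr h l0 l3 x y) * rt h k l3 L0 L3 x y)) (by fun_prop) ?_
    ((he.sub hg).intervalIntegrable _ _)
  · rw [intervalIntegral.integral_sub (he.intervalIntegrable _ _) (hg.intervalIntegrable _ _)] at key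
    have hrb := S.rr_nonpos (right_mem_Icc.2 S.ab) hy hy.2
    simp only [ha0, ha1, hb1, c.zero _ hrb, c.s1z _ (Or.inl hrb)] at key
    unfold Gt
    linarith
  · intro x hx
    have dr := S.d_rr hx y
    have dh := S.dh x hx
    have d1 := (Hf.d0 (h x)).comp x dh
    have d2 := (Hf.d1 (h x)).comp x dh
    have d3 := (c.d0 (rr h l0 l3 x y)).comp x dr
    have d4 := (c.d1 (rr h l0 l3 x y)).comp x dr
    have := (S.dF x hx).mul ((d2.mul (d3.const_sub 1)).sub
      ((((d1.mul d4).mul dh).mul ((S.dl3 x hx).const_sub (l3 y))).const_mul 2))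
    refine HasDerivAt.congr_deriv (f := fun x => F x * (f1 (h x) * (1 - c.S (rr h l0 l3 x y)) -
      2 * (f (h x) * c.S1 (rr h l0 l3 x y) * h x * (l3 y - l3 x)))) this ?_
    simp only [e1, rt, Function.comp, Pi.mul_apply, Pi.sub_apply]
    have := S.pos x
    field_simp
    ring

theorem ident (Hf : Fd f f1 f2) {ca μ' : ℝ} (hβ : 0 < β) (ha0 : f (h a) = 0) (ha1 : f1 (h a) = 0)
    (hb1 : f1 (h b) = ca) (hMa : M a ≤ 2 * β) (hMb : 3 * β ≤ M b)
    (hMt : ∀ y ∈ Icc a b, Mt y = μ' - F y) :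
    Dn c f f1 a b β h k l0 l3 L0 L3 M Mt =
      -(ca * F b) - μ' * (∫ y in a..b, W1 c β (M y) * Gy c f a b h et l0 l3 y) +
        ∫ y in a..b, W1 c β (M y) * h y *
          ∫ x in a..b, ee c f f1 f2 h h1 F et l0 l3 L0 L3 x y := by
  have := S.ch; have := S.cF; have := S.ck; have := S.cM
  have := W1_cont c β; have := W2_cont c β; have := W0_cont c β
  have hG := S.c_GG (c := c) Hf; have hGy := S.c_Gy (c := c) Hf
  have hI := S.c_Ie1 (c := c) Hf
  have k1 := intervalIntegral.integral_eq_sub_of_hasDerivAt_of_le S.ab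
    (f := fun y => W0 c β (M y)) (f' := fun y => W1 c β (M y) * h y) (by fun_prop)
    (fun y hy => (W0_deriv c β (M y)).comp y (S.dM y hy))
    ((by fun_prop : Continuous fun y => W1 c β (M y) * h y).intervalIntegrable _ _)
  simp only [W0_lo c hβ hMa, W0_hi c hβ hMb] at k1
  have k2 := intervalIntegral.integral_eq_sub_of_hasDerivAt_of_le S.ab
    (f := fun y => W1 c β (M y) * (μ' - F y) * GG c f a b h l0 l3 y)
    (f' := fun y => (W2 c β (M y) * (μ' - F y) * h y + W1 c β (M y) * k y) * GG c f a b h l0 l3 y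
      + W1 c β (M y) * (μ' - F y) * Gy c f a b h et l0 l3 y) (by fun_prop) ?_
    ((by fun_prop : Continuous fun y =>
      (W2 c β (M y) * (μ' - F y) * h y + W1 c β (M y) * k y) * GG c f a b h l0 l3 y
      + W1 c β (M y) * (μ' - F y) * Gy c f a b h et l0 l3 y).intervalIntegrable _ _)
  swap
  · intro y hy
    have := ((((W1_deriv c β (M y)).comp y (S.dM y hy)).mul ((S.dF y hy).const_sub μ'))).mul
      (S.d_GG (c := c) Hf hy)
    refine HasDerivAt.congr_deriv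
      (f := fun y => W1 c β (M y) * (μ' - F y) * GG c f a b h l0 l3 y) this ?_
    simp only [Function.comp, Pi.mul_apply]
    ring
  simp only [W1_lo c hβ hMa, W1_hi c hβ hMb] at k2
  have k3 : ∀ y, W1 c β (M y) * h y * ∫ x in a..b, ee c f f1 f2 h h1 F et l0 l3 L0 L3 x y =
      W1 c β (M y) * h y * (∫ x in a..b, e1 c f f1 f2 h h1 F et l0 l3 L0 L3 x y) +
        W1 c β (M y) * F y * Gy c f a b h et l0 l3 y := by
    intro y
    have he : Continuous fun x => e1 c f f1 f2 h h1 F et l0 l3 L0 L3 x y :=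
      (S.c_e1 (c := c) Hf).comp (continuous_id.prodMk continuous_const)
    have hg : Continuous fun x =>
        -(f (h x) * c.S1 (rr h l0 l3 x y) * (et y + h x ^ 2 / h y ^ 3)) :=
      (S.c_gy (c := c) Hf).comp (continuous_id.prodMk continuous_const)
    have : ∫ x in a..b, ee c f f1 f2 h h1 F et l0 l3 L0 L3 x y =
        (∫ x in a..b, e1 c f f1 f2 h h1 F et l0 l3 L0 L3 x y) +
          F y / h y * Gy c f a b h et l0 l3 y := by
      unfold Gy
      rw [← intervalIntegral.integral_const_mul, ← intervalIntegral.integral_add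
        (he.intervalIntegrable _ _) ((hg.const_mul _).intervalIntegrable _ _)]
      congr 1
      ext x
      unfold ee
      ring
    rw [this]
    have := S.pos y
    field_simp
  simp only [k3]
  have k4 : Dn c f f1 a b β h k l0 l3 L0 L3 M Mt = ∫ y in a..b,
      (((W2 c β (M y) * (μ' - F y) * h y + W1 c β (M y) * k y) * GG c f a b h l0 l3 y
      + W1 c β (M y) * (μ' - F y) * Gy c f a b h et l0 l3 y) +
      (-(ca * F b) * (W1 c β (M y) * h y) + (-μ' * (W1 c β (M y) * Gy c f a b h et l0 l3 y) +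
      (W1 c β (M y) * h y * (∫ x in a..b, e1 c f f1 f2 h h1 F et l0 l3 L0 L3 x y) +
        W1 c β (M y) * F y * Gy c f a b h et l0 l3 y)))) := by
    unfold Dn
    refine intervalIntegral.integral_congr fun y hy => ?_
    rw [uIcc_of_le S.ab] at hy
    simp only [hMt y hy, S.Gt_eq Hf ha0 ha1 hb1 hy]
    ring
  rw [k4, integral_four (by fun_prop) (by fun_prop) (by fun_prop) (by fun_prop), k1, k2]
  ring

theorem Q_nonneg (hβ : 0 < β)
    (hf : ∀ x ∈ Icc a b, ∀ y ∈ Icc a b, W1 c β (M y) ≠ 0 → x < y → f (h x) ≤ 0) :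
    0 ≤ ∫ y in a..b, W1 c β (M y) * Gy c f a b h et l0 l3 y := by
  refine intervalIntegral.integral_nonneg S.ab fun y hy => ?_
  by_cases hw : W1 c β (M y) = 0
  · simp [hw]
  refine mul_nonneg (W1_nn c hβ _) (intervalIntegral.integral_nonneg S.ab fun x hx => ?_)
  by_cases hxy : x < y
  · have h1 := hf x hx y hy hw hxy
    have h2 := c.s1nn (rr h l0 l3 x y)
    have h3 : 0 ≤ et y + h x ^ 2 / h y ^ 3 := by
      have := S.etp y; have := S.pos y; positivity
    have := mul_nonneg (mul_nonneg (neg_nonneg.2 h1) h2) h3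
    linarith
  · rw [c.s1z _ (Or.inl (S.rr_nonpos hx hy (not_lt.1 hxy)))]
    simp

end Bx

end Pool.Agent.TF
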