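import Pool.Agent.P.MP_e83d7b_an.Basic

/-! Iterated lower integrals of real functions. -/

namespace Pool.Agent.TF

open Set MeasureTheory Filter Topology

/-- lower integral of the positive part over `Ioc a b` -/
noncomputable def LI (a b : ℝ) (f : ℝ → ℝ) : ENNReal := ∫⁻ x in Ioc a b, ENNReal.ofReal (f x)

noncomputable def L2 (a b : ℝ) (F : ℝ → ℝ → ℝ) : ENNReal :=
  ∫⁻ y in Ioc a b, ∫⁻ x in Ioc a b, ENNReal.ofReal (F x y)

noncomputable def L3 (a b : ℝ) (F : ℝ → ℝ → ℝ → ℝ) : ENNReal :=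
  ∫⁻ y in Ioc a b, ∫⁻ x in Ioc a b, ∫⁻ z in Ioc a b, ENNReal.ofReal (F x z y)

variable {a b : ℝ}

theorem LI_mono {f g : ℝ → ℝ} (h : ∀ x ∈ Ioc a b, f x ≤ g x) : LI a b f ≤ LI a b g :=
  setLIntegral_mono' measurableSet_Ioc fun x hx => ENNReal.ofReal_le_ofReal (h x hx)

theorem LI_add {f g : ℝ → ℝ} (hf : Measurable f) :
    LI a b (fun x => f x + g x) ≤ LI a b f + LI a b g := by
  unfold LI
  rw [← lintegral_add_left hf.ennreal_ofReal]
  exact lintegral_mono fun x => ENNReal.ofReal_add_le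

theorem LI_cmul {f : ℝ → ℝ} {c : ℝ} (hc : 0 ≤ c) :
    LI a b (fun x => c * f x) = ENNReal.ofReal c * LI a b f := by
  unfold LI
  rw [← lintegral_const_mul' _ _ ENNReal.ofReal_ne_top]
  simp only [ENNReal.ofReal_mul hc]

theorem LI_cmul_le {f : ℝ → ℝ} {c d : ℝ} (hc : 0 ≤ c) (h : LI a b f ≤ ENNReal.ofReal d) :
    LI a b (fun x => c * f x) ≤ ENNReal.ofReal (c * d) := by
  rw [LI_cmul hc, ENNReal.ofReal_mul hc]
  gcongr

theorem LI_add_le {f g : ℝ → ℝ} {c d : ℝ} (hf : Measurable f) (hc : 0 ≤ c) (hd : 0 ≤ d)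
    (h1 : LI a b f ≤ ENNReal.ofReal c) (h2 : LI a b g ≤ ENNReal.ofReal d) :
    LI a b (fun x => f x + g x) ≤ ENNReal.ofReal (c + d) := by
  rw [ENNReal.ofReal_add hc hd]
  exact (LI_add hf).trans (add_le_add h1 h2)

theorem L2_mono {F G : ℝ → ℝ → ℝ} (h : ∀ x ∈ Ioc a b, ∀ y ∈ Ioc a b, F x y ≤ G x y) :
    L2 a b F ≤ L2 a b G :=
  setLIntegral_mono' measurableSet_Ioc fun y hy => LI_mono fun x hx => h x hx y hy

theorem L2_add {F G : ℝ → ℝ → ℝ} (hF : Measurable fun p : ℝ × ℝ => F p.1 p.2) :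
    L2 a b (fun x y => F x y + G x y) ≤ L2 a b F + L2 a b G := by
  unfold L2
  have hm : Measurable fun y => ∫⁻ x in Ioc a b, ENNReal.ofReal (F x y) :=
    Measurable.lintegral_prod_left' (f := fun p : ℝ × ℝ => ENNReal.ofReal (F p.1 p.2))
      (ENNReal.measurable_ofReal.comp hF)
  rw [← lintegral_add_left hm]
  exact lintegral_mono fun y => LI_add (f := fun x => F x y) (g := fun x => G x y)
    (hF.comp (measurable_id.prodMk measurable_const))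

theorem L2_add_le {F G : ℝ → ℝ → ℝ} {c d : ℝ} (hF : Measurable fun p : ℝ × ℝ => F p.1 p.2)
    (hc : 0 ≤ c) (hd : 0 ≤ d)
    (h1 : L2 a b F ≤ ENNReal.ofReal c) (h2 : L2 a b G ≤ ENNReal.ofReal d) :
    L2 a b (fun x y => F x y + G x y) ≤ ENNReal.ofReal (c + d) := by
  rw [ENNReal.ofReal_add hc hd]
  exact (L2_add hF).trans (add_le_add h1 h2)

theorem L2_cmul_le {F : ℝ → ℝ → ℝ} {c d : ℝ} (hc : 0 ≤ c) (h : L2 a b F ≤ ENNReal.ofReal d) :
    L2 a b (fun x y => c * F x y) ≤ ENNReal.ofReal (c * d) := by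
  have : L2 a b (fun x y => c * F x y) = ENNReal.ofReal c * L2 a b F := by
    unfold L2
    rw [← lintegral_const_mul' _ _ ENNReal.ofReal_ne_top]
    congr 1
    ext y
    exact LI_cmul (f := fun x => F x y) hc
  rw [this, ENNReal.ofReal_mul hc]
  gcongr

theorem L2_swap {F : ℝ → ℝ → ℝ} (hF : Measurable fun p : ℝ × ℝ => F p.1 p.2) :
    L2 a b F = L2 a b fun x y => F y x := by
  unfold L2
  exact (lintegral_lintegral_swap (f := fun x y => ENNReal.ofReal (F x y))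
    (ENNReal.measurable_ofReal.comp hF).aemeasurable).symm

/-- product bound, inner variable first -/
theorem L2_prod {g : ℝ → ℝ} {c : ℝ → ℝ → ℝ} {γ Γ : ℝ} (hγ : 0 ≤ γ)
    (hg : ∀ y ∈ Ioc a b, 0 ≤ g y)
    (hc : ∀ y ∈ Ioc a b, LI a b (fun x => c x y) ≤ ENNReal.ofReal γ)
    (hG : LI a b g ≤ ENNReal.ofReal Γ) :
    L2 a b (fun x y => g y * c x y) ≤ ENNReal.ofReal (γ * Γ) := by
  refine le_trans ?_ (LI_cmul_le hγ hG)
  refine setLIntegral_mono' measurableSet_Ioc fun y hy => ?_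
  beta_reduce
  rw [mul_comm γ]
  exact LI_cmul_le (hg y hy) (hc y hy)

/-- product bound, outer variable first -/
theorem L2_prod' {g : ℝ → ℝ} {c : ℝ → ℝ → ℝ} {γ Γ : ℝ} (hγ : 0 ≤ γ)
    (hm : Measurable fun p : ℝ × ℝ => g p.1 * c p.1 p.2)
    (hg : ∀ x ∈ Ioc a b, 0 ≤ g x)
    (hc : ∀ x ∈ Ioc a b, LI a b (fun y => c x y) ≤ ENNReal.ofReal γ)
    (hG : LI a b g ≤ ENNReal.ofReal Γ) :
    L2 a b (fun x y => g x * c x y) ≤ ENNReal.ofReal (γ * Γ) := by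
  rw [L2_swap (F := fun x y => g x * c x y) hm]
  exact L2_prod (c := fun x y => c y x) hγ hg hc hG

theorem L3_mono {F G : ℝ → ℝ → ℝ → ℝ}
    (h : ∀ x ∈ Ioc a b, ∀ z ∈ Ioc a b, ∀ y ∈ Ioc a b, F x z y ≤ G x z y) :
    L3 a b F ≤ L3 a b G :=
  setLIntegral_mono' measurableSet_Ioc fun y hy =>
    L2_mono (F := fun z x => F x z y) (G := fun z x => G x z y) fun z hz x hx => h x hx z hz y hy

theorem L3_add {F G : ℝ → ℝ → ℝ → ℝ}
    (hF : Measurable fun p : ℝ × ℝ × ℝ => F p.1 p.2.1 p.2.2) :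
    L3 a b (fun x z y => F x z y + G x z y) ≤ L3 a b F + L3 a b G := by
  unfold L3
  have hm : Measurable fun y => ∫⁻ x in Ioc a b, ∫⁻ z in Ioc a b, ENNReal.ofReal (F x z y) := by
    refine Measurable.lintegral_prod_right' (f := fun p : ℝ × ℝ =>
      ∫⁻ z in Ioc a b, ENNReal.ofReal (F p.2 z p.1)) ?_
    refine Measurable.lintegral_prod_right' (f := fun q : (ℝ × ℝ) × ℝ =>
      ENNReal.ofReal (F q.1.2 q.2 q.1.1)) ?_
    exact ENNReal.measurable_ofReal.comp (hF.comp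
      (f := fun q : (ℝ × ℝ) × ℝ => (q.1.2, q.2, q.1.1)) (by fun_prop))
  rw [← lintegral_add_left hm]
  exact lintegral_mono fun y => L2_add (F := fun z x => F x z y) (G := fun z x => G x z y)
    (hF.comp (f := fun q : ℝ × ℝ => (q.2, q.1, y)) (by fun_prop))

/-- integrate `z` first -/
theorem L3_z {g : ℝ → ℝ → ℝ} {c : ℝ → ℝ → ℝ → ℝ} {γ Γ : ℝ} (hγ : 0 ≤ γ)
    (hg : ∀ x ∈ Ioc a b, ∀ y ∈ Ioc a b, 0 ≤ g x y)
    (hc : ∀ x ∈ Ioc a b, ∀ y ∈ Ioc a b, LI a b (fun z => c x z y) ≤ ENNReal.ofReal γ)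
    (hG : L2 a b g ≤ ENNReal.ofReal Γ) :
    L3 a b (fun x z y => g x y * c x z y) ≤ ENNReal.ofReal (γ * Γ) := by
  refine le_trans ?_ (L2_cmul_le hγ hG)
  refine setLIntegral_mono' measurableSet_Ioc fun y hy => ?_
  refine setLIntegral_mono' measurableSet_Ioc fun x hx => ?_
  beta_reduce
  rw [mul_comm γ]
  exact LI_cmul_le (hg x hx y hy) (hc x hx y hy)

theorem L3_swap12 {F : ℝ → ℝ → ℝ → ℝ}
    (hF : Measurable fun p : ℝ × ℝ × ℝ => F p.1 p.2.1 p.2.2) :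
    L3 a b F = L3 a b fun x z y => F z x y := by
  unfold L3
  congr 1
  ext y
  exact L2_swap (F := fun z x => F x z y)
    (hF.comp (f := fun q : ℝ × ℝ => (q.2, q.1, y)) (by fun_prop))

theorem L3_swap_outer {F : ℝ → ℝ → ℝ → ℝ}
    (hF : Measurable fun p : ℝ × ℝ × ℝ => F p.1 p.2.1 p.2.2) :
    L3 a b F = L3 a b fun x z y => F y z x := by
  unfold L3
  refine lintegral_lintegral_swap (f := fun y x => ∫⁻ z in Ioc a b, ENNReal.ofReal (F x z y)) ?_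
  refine Measurable.aemeasurable ?_
  refine Measurable.lintegral_prod_right' (f := fun q : (ℝ × ℝ) × ℝ =>
      ENNReal.ofReal (F q.1.2 q.2 q.1.1)) ?_
  exact ENNReal.measurable_ofReal.comp (hF.comp
      (f := fun q : (ℝ × ℝ) × ℝ => (q.1.2, q.2, q.1.1)) (by fun_prop))

/-- integrate `x` first -/
theorem L3_x {g : ℝ → ℝ → ℝ} {c : ℝ → ℝ → ℝ → ℝ} {γ Γ : ℝ} (hγ : 0 ≤ γ)
    (hm : Measurable fun p : ℝ × ℝ × ℝ => g p.2.1 p.2.2 * c p.1 p.2.1 p.2.2)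
    (hg : ∀ z ∈ Ioc a b, ∀ y ∈ Ioc a b, 0 ≤ g z y)
    (hc : ∀ z ∈ Ioc a b, ∀ y ∈ Ioc a b, LI a b (fun x => c x z y) ≤ ENNReal.ofReal γ)
    (hG : L2 a b g ≤ ENNReal.ofReal Γ) :
    L3 a b (fun x z y => g z y * c x z y) ≤ ENNReal.ofReal (γ * Γ) := by
  rw [L3_swap12 (F := fun x z y => g z y * c x z y) hm]
  exact L3_z (c := fun x z y => c z x y) hγ hg hc hG

/-- integrate `y` first -/
theorem L3_y {g : ℝ → ℝ → ℝ} {c : ℝ → ℝ → ℝ → ℝ} {γ Γ : ℝ} (hγ : 0 ≤ γ)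
    (hm : Measurable fun p : ℝ × ℝ × ℝ => g p.1 p.2.1 * c p.1 p.2.1 p.2.2)
    (hg : ∀ x ∈ Ioc a b, ∀ z ∈ Ioc a b, 0 ≤ g x z)
    (hc : ∀ x ∈ Ioc a b, ∀ z ∈ Ioc a b, LI a b (fun y => c x z y) ≤ ENNReal.ofReal γ)
    (hG : L2 a b g ≤ ENNReal.ofReal Γ) :
    L3 a b (fun x z y => g x z * c x z y) ≤ ENNReal.ofReal (γ * Γ) := by
  have h1 : Measurable fun p : ℝ × ℝ × ℝ => g p.2.1 p.1 * c p.2.1 p.1 p.2.2 :=
    hm.comp (f := fun q : ℝ × ℝ × ℝ => (q.2.1, q.1, q.2.2)) (by fun_prop)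
  have h2 : Measurable fun p : ℝ × ℝ × ℝ => g p.2.1 p.2.2 * c p.2.1 p.2.2 p.1 :=
    hm.comp (f := fun q : ℝ × ℝ × ℝ => (q.2.1, q.2.2, q.1)) (by fun_prop)
  rw [L3_swap12 (F := fun x z y => g x z * c x z y) hm,
    L3_swap_outer (F := fun x z y => g z x * c z x y) h1,
    L3_swap12 (F := fun x z y => g z y * c z y x) h2]
  exact L3_z (c := fun x z y => c x y z) hγ hg hc hG

/-- comparison with an antiderivative -/
theorem LI_le_sub {G g l : ℝ → ℝ} {p q : ℝ} (hpq : p ≤ q) (hg : Continuous g)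
    (hg0 : ∀ x ∈ Icc p q, 0 ≤ g x) (hl : ContinuousOn l (Icc p q))
    (hd : ∀ x ∈ Ioo p q, HasDerivAt l (g x) x)
    (hG : ∀ x ∈ Ioc a b, G x ≤ 0 ∨ (x ∈ Icc p q ∧ G x ≤ g x)) :
    LI a b G ≤ ENNReal.ofReal (l q - l p) := by
  have h1 : LI a b G ≤ ∫⁻ x, (Icc p q).indicator (fun x => ENNReal.ofReal (g x)) x := by
    refine le_trans (setLIntegral_mono' measurableSet_Ioc fun x hx => ?_)
      (setLIntegral_le_lintegral _ _)
    rcases hG x hx with h | ⟨h, h'⟩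
    · rw [ENNReal.ofReal_of_nonpos h]; exact zero_le
    · rw [indicator_of_mem h]; exact ENNReal.ofReal_le_ofReal h'
  rw [lintegral_indicator measurableSet_Icc] at h1
  refine h1.trans (le_of_eq ?_)
  rw [← ofReal_integral_eq_lintegral_ofReal hg.integrableOn_Icc,
    integral_Icc_eq_integral_Ioc, ← intervalIntegral.integral_of_le hpq,
    intervalIntegral.integral_eq_sub_of_hasDerivAt_of_le hpq hl hd (hg.intervalIntegrable _ _)]
  filter_upwards [ae_restrict_mem measurableSet_Icc] with x hx using hg0 x hx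

theorem LI_left {G g l : ℝ → ℝ} {y c : ℝ} (hy : y ∈ Icc a b) (hc : 0 ≤ c) (hg : Continuous g)
    (hg0 : ∀ x ∈ Icc a b, 0 ≤ g x) (hl : Continuous l)
    (hd : ∀ x ∈ Ioo a b, HasDerivAt l (g x) x)
    (hG : ∀ x ∈ Ioc a b, G x ≤ 0 ∨ (x ≤ y ∧ l y - l x ≤ c ∧ G x ≤ g x)) :
    LI a b G ≤ ENNReal.ofReal c := by
  have hK : IsCompact (Icc a y ∩ {x | l y - l x ≤ c}) :=
    isCompact_Icc.inter_right (isClosed_le (by fun_prop) continuous_const)
  obtain ⟨p, ⟨hp, hp2⟩, hmin⟩ := hK.exists_isLeast ⟨y, right_mem_Icc.2 hy.1, by simpa using hc⟩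
  refine (LI_le_sub (g := g) (l := l) hp.2 hg
    (fun x hx => hg0 x ⟨hp.1.trans hx.1, hx.2.trans hy.2⟩) hl.continuousOn
    (fun x hx => hd x ⟨hp.1.trans_lt hx.1, hx.2.trans_le hy.2⟩) ?_).trans
    (ENNReal.ofReal_le_ofReal hp2)
  intro x hx
  rcases hG x hx with h | ⟨h1, h2, h3⟩
  · exact Or.inl h
  · exact Or.inr ⟨⟨hmin ⟨⟨hx.1.le, h1⟩, h2⟩, h1⟩, h3⟩

theorem LI_right {G g l : ℝ → ℝ} {x c : ℝ} (hx : x ∈ Icc a b) (hc : 0 ≤ c) (hg : Continuous g)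
    (hg0 : ∀ y ∈ Icc a b, 0 ≤ g y) (hl : Continuous l)
    (hd : ∀ y ∈ Ioo a b, HasDerivAt l (g y) y)
    (hG : ∀ y ∈ Ioc a b, G y ≤ 0 ∨ (x ≤ y ∧ l y - l x ≤ c ∧ G y ≤ g y)) :
    LI a b G ≤ ENNReal.ofReal c := by
  have hK : IsCompact (Icc x b ∩ {y | l y - l x ≤ c}) :=
    isCompact_Icc.inter_right (isClosed_le (by fun_prop) continuous_const)
  obtain ⟨p, ⟨hp, hp2⟩, hmax⟩ :=
    hK.exists_isGreatest ⟨x, left_mem_Icc.2 hx.2, by simpa using hc⟩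
  refine (LI_le_sub (g := g) (l := l) hp.1 hg
    (fun y hy => hg0 y ⟨hx.1.trans hy.1, hy.2.trans hp.2⟩) hl.continuousOn
    (fun y hy => hd y ⟨hx.1.trans_lt hy.1, hy.2.trans_le hp.2⟩) ?_).trans
    (ENNReal.ofReal_le_ofReal hp2)
  intro y hy
  rcases hG y hy with h | ⟨h1, h2, h3⟩
  · exact Or.inl h
  · exact Or.inr ⟨⟨h1, hmax ⟨⟨h1, hy.2⟩, h2⟩⟩, h3⟩

theorem LI_short {G : ℝ → ℝ} {θ v z : ℝ} (hθ : 0 ≤ θ) (hv : 0 < v)
    (hG : ∀ x, G x ≤ 0 ∨ (θ * |z - x| ≤ 2 * v ∧ G x ≤ θ / v)) :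
    LI a b G ≤ ENNReal.ofReal 4 := by
  rcases hθ.eq_or_lt with h0 | h0
  · refine le_trans (LI_mono (g := fun _ => 0) fun x _ => ?_) (by simp [LI])
    rcases hG x with h | h
    · exact h
    · simpa [← h0] using h.2
  · have hr : 0 ≤ 2 * v / θ := by positivity
    have := LI_le_sub (a := a) (b := b) (G := G) (g := fun _ => θ / v) (l := fun x => θ / v * x)
      (p := z - 2 * v / θ) (q := z + 2 * v / θ) (by linarith) continuous_const
      (fun _ _ => by positivity) (by fun_prop)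
      (fun x _ => by simpa using (hasDerivAt_id x).const_mul (θ / v)) ?_
    · refine this.trans (le_of_eq ?_)
      congr 1
      field_simp
      ring
    · intro x _
      rcases hG x with h | ⟨h1, h2⟩
      · exact Or.inl h
      · right
        refine ⟨?_, h2⟩
        have : |z - x| ≤ 2 * v / θ := by rw [le_div_iff₀ h0]; linarith
        rw [abs_le] at this
        constructor <;> linarith [this.1, this.2]

theorem ofReal_abs_integral_le {g : ℝ → ℝ} (hab : a ≤ b) :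
    ENNReal.ofReal |∫ x in a..b, g x| ≤ LI a b fun x => |g x| := by
  rw [intervalIntegral.integral_of_le hab]
  have := enorm_integral_le_lintegral_enorm (μ := volume.restrict (Ioc a b)) g
  simpa only [Real.enorm_eq_ofReal_abs, LI] using this

end Pool.Agent.TF
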