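import Pool.Agent.P.MP_e83d7b_an.PerTime

/-! Estimates at a single time for the one-sided mass functional. -/

namespace Pool.Agent.TF

open Set MeasureTheory Filter Topology

variable {n δ T ta tb xs K H κ ε ε0 : ℝ} {s : ℝ → ℝ}
  {h h1 h2 h3 k : ℝ → ℝ → ℝ} {c : Cut}

theorem psi_bd {v : ℝ} (hv : 0 ≤ v) : 0 ≤ fk c 1 0 κ v ∧ fk c 1 0 κ v ≤ v := by
  have := c.nn (v / κ - 1)
  have := c.le1 (v / κ - 1)
  unfold fk
  constructor <;> nlinarith

theorem psi_int (v : ℝ) : prim 0 (fk c 1 0 κ) v = ∫ z in (0:ℝ)..v, fk c 1 0 κ z := by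
  unfold prim
  rw [intervalIntegral.integral_symm, neg_neg]

theorem psi_facts (hκ : 0 < κ) (hK : 8 * c.C ≤ K) {v : ℝ} (hv : 0 < v) :
    0 ≤ fk c 1 0 κ v ∧ fk c 1 0 κ v ≤ v ∧ |fk1 c 1 0 κ v| ≤ K ∧ |v * fk2 c 1 0 κ v| ≤ K ∧
      0 ≤ prim 0 (fk c 1 0 κ) v ∧ prim 0 (fk c 1 0 κ) v ≤ v ^ 2 := by
  obtain ⟨-, b1, b2⟩ := fk_bd (c := c) (ca := 1) (cb := 0) (B := v) hκ hv zero_le_one (by simp)
    (by simp [abs_of_pos hv]) hK
  have K0 : 0 ≤ K := by linarith [c.C1]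
  refine ⟨(psi_bd hv.le).1, (psi_bd hv.le).2, ?_, ?_, ?_, ?_⟩
  · rw [abs_mul, abs_of_pos hv] at b1
    exact le_of_mul_le_mul_left b1 hv
  · have b3 : |v ^ 2 * fk2 c 1 0 κ v| ≤ v * K := by
      refine b2.trans ?_
      by_cases hc : v ≤ 2 * κ
      · rw [ind_pos hc, mul_one]
      · rw [ind_neg hc, mul_zero]; positivity
    rw [show v ^ 2 * fk2 c 1 0 κ v = v * (v * fk2 c 1 0 κ v) by ring, abs_mul, abs_of_pos hv] at b3
    exact le_of_mul_le_mul_left b3 hv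
  · rw [psi_int]
    exact intervalIntegral.integral_nonneg hv.le fun z hz => (psi_bd hz.1).1
  · rw [psi_int, show v ^ 2 = ∫ _ in (0:ℝ)..v, v by simp [sq]]
    exact intervalIntegral.integral_mono_on hv.le ((fk_Fd c 1 0 κ).c0.intervalIntegrable _ _)
      intervalIntegrable_const fun z hz => (psi_bd hz.1).2.trans hz.2

theorem psi_zero (hκ : 0 < κ) {v : ℝ} (hv : 0 ≤ v) (hv' : v ≤ κ) : prim 0 (fk c 1 0 κ) v = 0 := by
  rw [psi_int, intervalIntegral.integral_congr (g := fun _ => 0), intervalIntegral.integral_zero]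
  intro z hz
  rw [uIcc_of_le hv] at hz
  exact (fk_lo hκ (hz.2.trans hv')).1

theorem stepA_num {D Γ : ℝ} (hK : 12 ≤ K) (hε : 0 < ε) (hε1 : ε ≤ 1) (hκ : 0 < κ)
    (hκ' : κ ≤ ε ^ 4) (hD : 0 ≤ D) (hΓ0 : 0 ≤ Γ) (hΓ : Γ ≤ 507 * K ^ 4 * (1 + D) / ε) :
    (2 * κ * K ^ 2 + 3 * K ^ 3 / (1 / ε ^ 2 * ε)) * D +
      ((2 * κ * K ^ 2 * Γ + 3 * K ^ 3 * ε / (1 / ε ^ 2) + K ^ 3 * Γ / (1 / ε ^ 2) ^ 2) *
        (2 * (1 / ε ^ 2)) + K ^ 3 / (1 / ε ^ 2) * K) ≤ 2000 * K ^ 7 * (ε * (1 + D)) := by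
  have e : (2 * κ * K ^ 2 + 3 * K ^ 3 / (1 / ε ^ 2 * ε)) * D +
      ((2 * κ * K ^ 2 * Γ + 3 * K ^ 3 * ε / (1 / ε ^ 2) + K ^ 3 * Γ / (1 / ε ^ 2) ^ 2) *
        (2 * (1 / ε ^ 2)) + K ^ 3 / (1 / ε ^ 2) * K) = 2 * K ^ 2 * (κ * D) + 3 * K ^ 3 * (ε * D) +
        4 * K ^ 2 * (κ / ε ^ 2 * Γ) + 6 * K ^ 3 * ε + 2 * K ^ 3 * (ε ^ 2 * Γ) + K ^ 4 * ε ^ 2 := by
    field_simp
    ring
  rw [e]
  have K1 : 1 ≤ K := by linarith
  have a1 : ε ^ 4 ≤ ε := pow_le_of_le_one hε.le hε1 (by norm_num)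
  have a2 : ε ^ 2 ≤ ε := pow_le_of_le_one hε.le hε1 (by norm_num)
  have a3 : κ / ε ^ 2 ≤ ε ^ 2 := by rw [div_le_iff₀ (by positivity)]; linarith
  set u := ε * (1 + D) with hu
  have u0 : 0 ≤ u := by positivity
  have a4 : ε ^ 2 * Γ ≤ 507 * K ^ 4 * u := by
    calc _ ≤ ε ^ 2 * (507 * K ^ 4 * (1 + D) / ε) := by gcongr
      _ = _ := by rw [hu]; field_simp
  have a5 : ε * D ≤ u := by rw [hu]; nlinarith
  have a6 : ε ≤ u := by rw [hu]; nlinarith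
  have a7 : κ * D ≤ u := le_trans (by gcongr; linarith) a5
  have a8 : κ / ε ^ 2 * Γ ≤ 507 * K ^ 4 * u := le_trans (by gcongr) a4
  have p2 : K ^ 2 ≤ K ^ 7 := pow_le_pow_right₀ K1 (by norm_num)
  have p3 : K ^ 3 ≤ K ^ 7 := pow_le_pow_right₀ K1 (by norm_num)
  have p4 : K ^ 4 ≤ K ^ 7 := pow_le_pow_right₀ K1 (by norm_num)
  have b1 : 2 * K ^ 2 * (κ * D) ≤ 2 * K ^ 7 * u := by gcongr
  have b2 : 3 * K ^ 3 * (ε * D) ≤ 3 * K ^ 7 * u := by gcongr
  have b3 : 4 * K ^ 2 * (κ / ε ^ 2 * Γ) ≤ 169 * K ^ 7 * u := by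
    calc _ ≤ 4 * K ^ 2 * (507 * K ^ 4 * u) := by gcongr
      _ = 169 * (12 * K ^ 6) * u := by ring
      _ ≤ 169 * (K * K ^ 6) * u := by gcongr
      _ = _ := by ring
  have b4 : 6 * K ^ 3 * ε ≤ 6 * K ^ 7 * u := by gcongr
  have b5 : 2 * K ^ 3 * (ε ^ 2 * Γ) ≤ 1014 * K ^ 7 * u := by
    calc _ ≤ 2 * K ^ 3 * (507 * K ^ 4 * u) := by gcongr
      _ = _ := by ring
  have b6 : K ^ 4 * ε ^ 2 ≤ K ^ 7 * u := by gcongr; linarith
  have b7 : 0 ≤ K ^ 7 * u := by positivity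
  linarith

namespace Sol

variable (S : Sol n δ T s h h1 h2 h3 k) (W : Win δ T s ta tb xs)
include S W

theorem PP_box {t α R : ℝ} (ht : t ∈ Icc ta tb) (hκ : 0 < κ) (hα : s t < α) (hx : α ≤ xs)
    (th : ∀ x ∈ Icc (s t) xs, x ≤ α → h x t ≤ κ) :
    PP c (fk c 1 0 κ) n (s t) xs R (fun x => h x t) =
      PP c (fk c 1 0 κ) n α xs R (fun x => h (cl α xs x) t) :=
  PP_congr hα.le hx (fun x hx => by rw [cl_eq hx]) fun x h4 =>
    (fk_lo hκ (th x ⟨h4.1.le, h4.2.trans hx⟩ h4.2)).1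

theorem evalP {t α R : ℝ} (ht : t ∈ Icc ta tb) (hκ : 0 < κ) (hR : 0 < R) (hα : s t < α)
    (hx : α ≤ xs) (th : ∀ x ∈ Icc (s t) xs, x ≤ α → h x t ≤ κ) :
    PP c (fk c 1 0 κ) n (s t) xs R (fun x => h x t) ≤ Ml s h t xs ∧
      ∀ p ∈ Icc α xs, (∀ x ∈ Icc p xs, 2 * κ ≤ h x t) → -pl0 n xs (fun x => h x t) p ≤ R →
        Ml s h t xs - Ml s h t p ≤ PP c (fk c 1 0 κ) n (s t) xs R (fun x => h x t) := by
  rw [S.PP_box W ht hκ hα hx th]
  have B := S.mkB W (m := 0) ht ⟨hα, hx⟩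
  have Hf := fk_Fd c 1 0 κ
  have cg : Continuous fun x => fk c 1 0 κ (h (cl α xs x) t) *
      (1 - c.S (-pl0 n xs (fun x => h (cl α xs x) t) x / R - 1)) :=
    (Hf.c0.comp B.ch).mul (continuous_const.sub (c.c0.comp
      ((B.cl0.neg.div_const R).sub continuous_const)))
  have hM : ∀ p ∈ Icc α xs, ∫ x in p..xs, h (cl α xs x) t = Ml s h t xs - Ml s h t p := by
    intro p hp
    have := S.pM_cl W (μ := 0) ht hα.le hp
    unfold pM prim at this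
    linarith
  have pt : ∀ x, 0 ≤ fk c 1 0 κ (h (cl α xs x) t) *
      (1 - c.S (-pl0 n xs (fun x => h (cl α xs x) t) x / R - 1)) ∧ fk c 1 0 κ (h (cl α xs x) t) *
      (1 - c.S (-pl0 n xs (fun x => h (cl α xs x) t) x / R - 1)) ≤ h (cl α xs x) t := by
    intro x
    obtain ⟨q1, q2⟩ := psi_bd (c := c) (κ := κ) (B.pos x).le
    have q3 := c.nn (-pl0 n xs (fun x => h (cl α xs x) t) x / R - 1)
    have q4 := c.le1 (-pl0 n xs (fun x => h (cl α xs x) t) x / R - 1)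
    constructor <;> nlinarith
  unfold PP
  constructor
  · refine (intervalIntegral.integral_mono_on hx (cg.intervalIntegrable _ _)
      (B.ch.intervalIntegrable _ _) fun x _ => (pt x).2).trans ?_
    rw [hM α (left_mem_Icc.2 hx)]
    linarith [S.Ml_nn W ht ⟨hα.le, hx⟩]
  · intro p hp g1 g2
    rw [← intervalIntegral.integral_add_adjacent_intervals (b := p) (cg.intervalIntegrable _ _)
      (cg.intervalIntegrable _ _), ← hM p hp]
    have i1 := intervalIntegral.integral_nonneg (μ := volume) hp.1 fun x _ => (pt x).1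
    refine le_add_of_nonneg_of_le i1 (le_of_eq (intervalIntegral.integral_congr fun x h4 => ?_))
    rw [uIcc_of_le hp.2] at h4
    have h5 : x ∈ Icc α xs := ⟨hp.1.trans h4.1, h4.2⟩
    have m1 := (S.st0 W ht).l0mono ⟨hα.trans_le hp.1, hp.2⟩ ⟨hα.trans_le h5.1, h5.2⟩ h4.1
    have h6 : -pl0 n xs (fun x => h (cl α xs x) t) x / R - 1 ≤ 0 := by
      rw [← pl0_congr (h := fun x => h x t) (fun z hz => by rw [cl_eq hz]) h5, sub_nonpos,
        div_le_one hR]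
      linarith
    simp only [c.zero _ h6, cl_eq h5, (fk_hi hκ (g1 x h4)).1]
    ring

theorem derivP (Kc : Kst n δ ta tb xs K H c s h h1 h2 h3) (hε : 0 < ε) (hε1 : ε ≤ 1)
    (hκ : 0 < κ) (hκ' : κ ≤ ε ^ 4) (e0 : 0 < ε0) (e0' : ε0 ≤ δ / 4)
    (th : ∀ t ∈ Icc ta tb, ∀ x ∈ Icc (s t) xs, x ≤ s t + ε0 → h x t ≤ κ)
    (hxs : ∀ t ∈ Icc ta tb, 2 * κ ≤ h xs t) {t : ℝ} (ht : t ∈ Ioo ta tb) :
    ∃ P', HasDerivAt (fun t => PP c (fk c 1 0 κ) n (s t) xs (1 / ε ^ 2) fun x => h x t) P' t ∧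
      (IntegrableOn (fun x => h x t ^ n * h3 x t ^ 2) (Ioc (s t) (s t + 3 * δ / 4)) →
        -(P' + h xs t ^ n * h3 xs t) ≤ 2000 * K ^ 7 * (ε * (1 + Dd n s h h3 (3 * δ / 4) t))) := by
  obtain ⟨α, t1, t2, h4, h5, hx, h6, ST'⟩ := S.box W ht e0 e0'
  have ht' := Ioo_subset_Icc_self ht
  have h4' := Ioo_subset_Icc_self h4
  have Hf := fk_Fd c 1 0 κ
  have hd := ST'.d_PP (n := n) (a := α) (b := xs) (c := c) (R := 1 / ε ^ 2) Hf h4
  simp only [cl_eq h4'] at hd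
  refine ⟨_, hd.congr_of_eventuallyEq ?_, fun hg => ?_⟩
  · filter_upwards [Ioo_mem_nhds h4.1 h4.2] with τ hτ
    have hτ' := Ioo_subset_Icc_self hτ
    rw [S.PP_box W (h5 hτ') hκ (h6 τ hτ').1 hx
      fun x g1 g2 => th τ (h5 hτ') x g1 (g2.trans (h6 τ hτ').2)]
    simp only [cl_eq hτ']
  obtain ⟨hα, hα'⟩ := h6 t h4'
  have B := S.mkB W (m := 0) ht' ⟨hα, hx⟩
  have la := th t ht' α ⟨hα.le, hx⟩ hα'
  have ca' : cl α xs α = α := cl_eq (left_mem_Icc.2 hx)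
  have cx' : cl α xs xs = xs := cl_eq (right_mem_Icc.2 hx)
  have sub : ∀ x ∈ Icc α xs, x ∈ Ioc (s t) xs := fun x hx => ⟨hα.trans_le hx.1, hx.2⟩
  have sub' : Icc α xs ⊆ Ioo (s t) (s t + δ) := fun x hx => S.subI W ht' (sub x hx)
  have hD := S.Dd_nn W ht' le_rfl
  set D := Dd n s h h3 (3 * δ / 4) t with hDd
  have K2 := Kc.K2
  have hn := S.hn
  have nK : n ≤ K := le_trans (by nlinarith) Kc.K1
  have S0 := S.st0 W ht'
  have hR : 1 ≤ 1 / ε ^ 2 := by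
    rw [le_div_iff₀ (by positivity)]
    linarith [pow_le_one₀ (n := 2) hε.le hε1]
  set A := K + D / ε + 3 / ε with hA
  have A0 : 0 ≤ A := by positivity
  have hE : ∀ q ∈ Ioc (s t) xs, pl0 n xs (fun x => h x t) xs - pl0 n xs (fun x => h x t) q ≤
      3 * (1 / ε ^ 2) → |Et h h1 h2 t q| ≤ A := by
    intro q hq hl
    have m1 := S0.l0mono hq (S.xsI W ht') hq.2
    have e1 := S.Evar W ht' hg hε hq (S.xsI W ht') (ρ := 3 * (1 / ε ^ 2))
      (by rw [abs_le]; constructor <;> linarith)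
    have e2 : ε * (3 * (1 / ε ^ 2)) = 3 / ε := by field_simp
    have e3 := Kc.x2 t ht'
    rw [e2, ← hDd] at e1
    rw [abs_le] at e1 e3 ⊢
    constructor <;> linarith [e1.1, e1.2, e3.1, e3.2]
  have r0 : 0 ≤ K ^ 2 + 4 * A := by positivity
  set Θ := √(K ^ 2 + 4 * A) with hΘ
  have r1 : K ≤ Θ := Real.le_sqrt_of_sq_le (by linarith)
  have r2 : Θ ^ 2 = K ^ 2 + 4 * A := Real.sq_sqrt r0
  have r3 : Θ ^ 2 ≤ 3 * K ^ 2 * (1 + D) / ε := by
    rw [r2, le_div_iff₀ hε, hA]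
    have : (K ^ 2 + 4 * (K + D / ε + 3 / ε)) * ε = (K ^ 2 + 4 * K) * ε + 4 * D + 12 := by
      field_simp
      ring
    rw [this]
    have : (K ^ 2 + 4 * K) * ε ≤ K ^ 2 + 4 * K := mul_le_of_le_one_right (by positivity) hε1
    have : 144 ≤ K ^ 2 := by nlinarith
    nlinarith
  have st := B.stepA (c := c) (h2 := fun x => h2 (cl α xs x) t) (h3 := fun x => h3 (cl α xs x) t)
    (Ψt := prim 0 (fk c 1 0 κ)) (K := K) (R := 1 / ε ^ 2) (κ := κ) (ε := ε)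
    (Γ := 169 * K ^ 2 * Θ ^ 2) (D := D) hn
    (cl_continuous (g := fun x => h2 x t) hx ((S.slice S.c2 (W.tm ht')).mono sub'))
    (cl_continuous (g := fun x => h3 x t) hx ((S.slice S.c3 (W.tm ht')).mono sub'))
    (fun x hx => by
      rw [cl_eq (Ioo_subset_Icc_self hx)]
      exact cl_deriv (g := fun x => h1 x t) hx
        (S.d1 _ (S.memD W ht' (sub x (Ioo_subset_Icc_self hx)))))
    (fun x hx => by
      rw [cl_eq (Ioo_subset_Icc_self hx)]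
      exact cl_deriv (g := fun x => h2 x t) hx
        (S.d2 _ (S.memD W ht' (sub x (Ioo_subset_Icc_self hx)))))
    (fun x _ => by
      have e : h (cl α xs x) t ^ (2 - n) * h (cl α xs x) t ^ n = h (cl α xs x) t ^ 2 := by
        rw [← Real.rpow_add (B.pos x), show 2 - n + n = ((2:ℕ):ℝ) by push_cast; ring,
          Real.rpow_natCast]
      rw [← mul_assoc, e])
    (prim_self _ _) (prim_self _ _) Hf (prim_dx Hf.c0)
    (fun v hv => psi_facts hκ Kc.K3 hv) (fun v hv => (fk_hi hκ hv.le).2.2)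
    (by simp only [ca']; exact (fk_lo hκ la).2)
    (by simp only [ca']; exact psi_zero hκ (S.nn W ht' ⟨hα.le, hx⟩) la)
    (by simp only [cx']; exact (fk_hi hκ (hxs t ht')).2.1) Kc.K1 (by linarith [Kc.K3, c.C1])
    (fun x hx => by
      rw [cl_eq hx]; exact (Kc.hH t ht' x (Ioc_subset_Icc_self (sub x hx))).trans Kc.K7)
    (fun x hx => by
      rw [cl_eq hx]
      exact Kc.K8.trans (mul_le_mul_of_nonneg_left (rp_anti hn (S0.pos x (sub x hx))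
        (Kc.hH t ht' x (Ioc_subset_Icc_self (sub x hx)))) (by linarith)))
    (by linarith [W.hi t ht', Kc.K6, S.hδ])
    (by simp only [cx']; exact Kc.x4 t ht') (by positivity) hκ hε (by positivity) hD
    (fun x hx hl => by
      rw [← pl0_congr (h := fun x => h x t) (fun z hz => by rw [cl_eq hz]) hx] at hl
      simp only [cl_eq hx]
      have z0 : pl0 n xs (fun x => h x t) xs = 0 := prim_self _ _
      have sl := S0.slopeR hR (by linarith) ((Kc.x1 t ht').trans r1) (Kc.x3 t ht')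
        (fun q hq g => by
          have := (abs_le.1 (hE q hq g)).1
          unfold Et at this
          nlinarith [sq_nonneg K]) (sub x hx) (by linarith)
      have s2 : |h1 x t| ≤ 13 * K * Θ := by
        refine sl.trans ?_
        have : (8 * n + 1) * Θ ≤ 9 * K * Θ :=
          mul_le_mul_of_nonneg_right (by linarith) (by linarith)
        nlinarith
      have s3 : h1 x t ^ 2 ≤ 169 * K ^ 2 * Θ ^ 2 := by
        rw [← sq_abs]
        calc _ ≤ (13 * K * Θ) ^ 2 := pow_le_pow_left₀ (abs_nonneg _) s2 2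
          _ = _ := by ring
      refine ⟨s3, ?_⟩
      have s4 := hE x (sub x hx) (by linarith)
      unfold Et EE at s4
      have s5 : Θ ^ 2 ≤ K ^ 2 * Θ ^ 2 := le_mul_of_one_le_left (sq_nonneg _) (by nlinarith)
      rw [abs_le] at s4 ⊢
      constructor <;> nlinarith [s4.1, s4.2, sq_nonneg K, sq_nonneg (h1 x t)])
    (by
      simpa only [mul_one] using S.LI_q W (i := fun _ => 1) ht' hα hg le_rfl fun x hx =>
        Or.inr ⟨rfl, hx.2.trans (W.hi t ht')⟩)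
  simp only [cx'] at st
  have nm := stepA_num K2 hε hε1 hκ hκ' hD (Γ := 169 * K ^ 2 * Θ ^ 2) (by positivity) (by
    calc _ ≤ 169 * K ^ 2 * (3 * K ^ 2 * (1 + D) / ε) := by gcongr
      _ = _ := by ring)
  linarith

end Sol

end Pool.Agent.TF
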