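import Pool.Agent.P.MP_e83d7b_an.Ctx

/-! Estimates at a single time for the marker functional. -/

namespace Pool.Agent.TF

open Set MeasureTheory Filter Topology

/-- mass between the contact line and `x` -/
noncomputable def Ml (s : ℝ → ℝ) (h : ℝ → ℝ → ℝ) (t x : ℝ) : ℝ := ∫ z in s t..x, h z t

/-- dissipation in the layer of width `ε` -/
noncomputable def Dd (n : ℝ) (s : ℝ → ℝ) (h h3 : ℝ → ℝ → ℝ) (ε t : ℝ) : ℝ :=
  ∫ x in Ioc (s t) (s t + ε), h x t ^ n * h3 x t ^ 2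

/-- `E` on a slice -/
noncomputable def Et (h h1 h2 : ℝ → ℝ → ℝ) (t x : ℝ) : ℝ :=
  EE (fun x => h x t) (fun x => h1 x t) (fun x => h2 x t) x

structure Kst (n δ ta tb xs K H : ℝ) (c : Cut) (s : ℝ → ℝ) (h h1 h2 h3 : ℝ → ℝ → ℝ) : Prop where
  K1 : n ^ 2 ≤ K
  K2 : 12 ≤ K
  K3 : 8 * c.C ≤ K
  K4 : Real.exp 5 ^ 2 ≤ K
  K5 : Real.exp 5 ^ (n - 2) ≤ K
  K6 : δ ≤ K
  K7 : H ≤ K
  K8 : 1 ≤ K * (H * H ^ (2 - n))
  hH : ∀ t ∈ Icc ta tb, ∀ x ∈ Icc (s t) xs, h x t ≤ H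
  x1 : ∀ t ∈ Icc ta tb, |h1 xs t| ≤ K
  x2 : ∀ t ∈ Icc ta tb, |Et h h1 h2 t xs| ≤ K
  x3 : ∀ t ∈ Icc ta tb, h xs t * h xs t ^ (2 - n) ≤ K
  x4 : ∀ t ∈ Icc ta tb,
    (n - 2) * (h xs t * h3 xs t) + (n - 2) * (n - 1) * (h1 xs t * h2 xs t) ≤ K

structure Par (δ ta tb xs β κ ε0 ε1 ε3 Cβ ca cb : ℝ) (m s : ℝ → ℝ) (h h1 h2 : ℝ → ℝ → ℝ) :
    Prop where
  β0 : 0 < β
  κ0 : 0 < κ
  e0 : 0 < ε0
  e0' : ε0 ≤ δ / 4
  e1 : ε1 ≤ 3 * δ / 4
  e3 : ε3 ≤ 3 * δ / 4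
  ca0 : 0 ≤ ca
  cb0 : 0 ≤ cb
  C0 : 0 ≤ Cβ
  m1 : ∀ t ∈ Icc ta tb, |m t - Ml s h t xs| ≤ β
  m2 : ∀ t ∈ Icc ta tb, ∀ x ∈ Icc (s t) xs, Ml s h t x ≤ 4 * β → x ≤ s t + ε1
  m2' : ∀ t ∈ Icc ta tb, 4 * β ≤ Ml s h t xs
  m3 : ∀ t ∈ Icc ta tb, ∀ x ∈ Icc (s t) xs, x ≤ s t + ε1 → ca * h x t ≤ cb
  m4 : ∀ t ∈ Icc ta tb, ∀ x ∈ Icc (s t) xs, β ≤ Ml s h t x → s t + ε3 ≤ x ∧ -Cβ ≤ Et h h1 h2 t x
  m5 : ∀ t ∈ Icc ta tb, ∀ x ∈ Icc (s t + ε3) xs, 2 * κ < h x t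
  m6 : ∀ t ∈ Icc ta tb, ∀ x ∈ Icc (s t) xs, x ≤ s t + ε0 → h x t ≤ κ ∧ Ml s h t x ≤ β

variable {n δ T ta tb xs K H β κ ε0 ε1 ε3 Cβ ca cb : ℝ} {m s : ℝ → ℝ}
  {h h1 h2 h3 k : ℝ → ℝ → ℝ} {c : Cut}

theorem W1_ne {β τ : ℝ} (hβ : 0 < β) (hw : W1 c β τ ≠ 0) : 2 * β ≤ τ ∧ τ ≤ 3 * β := by
  constructor
  · by_contra hc
    exact hw (W1_lo c hβ (not_le.1 hc).le)
  · by_contra hc
    exact hw (W1_hi c hβ (not_le.1 hc).le)

theorem q_eq {n v w : ℝ} (hv : 0 < v) : |v ^ n * w / v| ^ 2 * v ^ (2 - n) = v ^ n * w ^ 2 := by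
  have e : v ^ n * v ^ (2 - n) = v ^ 2 := by
    rw [← Real.rpow_add hv, show n + (2 - n) = ((2:ℕ):ℝ) by push_cast; ring, Real.rpow_natCast]
  rw [sq_abs]
  have : (v ^ n * w / v) ^ 2 * v ^ (2 - n) = v ^ n * w ^ 2 * (v ^ n * v ^ (2 - n)) / v ^ 2 := by
    ring
  rw [this, e]
  field_simp

theorem sqrt_facts {D K : ℝ} (hD : 0 ≤ D) (hK : 12 ≤ K) :
    ∃ lam Λ Θ : ℝ, 0 < lam ∧ D / lam + lam * 2 ≤ Λ ∧ K ≤ Θ ∧ 8 * Λ ≤ Θ ^ 2 ∧
      Θ ^ 4 ≤ 2400 * K ^ 4 * (1 + D) ∧ Λ ≤ 4 + 2 * D := by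
  have h1 := Real.sqrt_nonneg D
  have h2 := Real.sq_sqrt hD
  set d := √D
  have h3 : 0 ≤ K ^ 2 + 8 * (2 + 3 * d) := by positivity
  refine ⟨1 + d, 2 + 3 * d, √(K ^ 2 + 8 * (2 + 3 * d)), by positivity, ?_, ?_, ?_, ?_, ?_⟩
  · have : D / (1 + d) ≤ d := by rw [div_le_iff₀ (by positivity)]; nlinarith
    linarith
  · exact Real.le_sqrt_of_sq_le (by linarith)
  · rw [Real.sq_sqrt h3]; nlinarith
  · rw [show (4:ℕ) = 2 * 2 by norm_num, pow_mul, Real.sq_sqrt h3]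
    have h4 : 1 ≤ K ^ (2 * 2) := one_le_pow₀ (by linarith)
    have h5 : D ≤ K ^ (2 * 2) * D := le_mul_of_one_le_left hD h4
    have h6 : (K ^ 2 + 8 * (2 + 3 * d)) ^ 2 ≤ 2 * K ^ (2 * 2) + 128 * (2 + 3 * d) ^ 2 := by
      have : K ^ (2 * 2) = (K ^ 2) ^ 2 := by ring
      rw [this]
      nlinarith [sq_nonneg (K ^ 2 - 8 * (2 + 3 * d))]
    have h7 : (2 + 3 * d) ^ 2 ≤ 8 + 18 * D := by nlinarith [sq_nonneg (2 - 3 * d)]
    have h8 : 2400 * K ^ (2 * 2) * (1 + D) = 2400 * K ^ (2 * 2) + 2400 * (K ^ (2 * 2) * D) := by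
      ring
    linarith
  · nlinarith [sq_nonneg (d - 1)]

namespace Sol

variable (S : Sol n δ T s h h1 h2 h3 k) (W : Win δ T s ta tb xs)
include S W

theorem intH {t p q : ℝ} (ht : t ∈ Icc ta tb) (hp : p ∈ Icc (s t) xs) (hq : q ∈ Icc (s t) xs) :
    IntervalIntegrable (fun x => h x t) volume p q :=
  ((S.slice0' W ht).mono (uIcc_subset_Icc hp hq)).intervalIntegrable

theorem sI {t : ℝ} (ht : t ∈ Icc ta tb) : s t ∈ Icc (s t) xs :=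
  left_mem_Icc.2 (S.xsI W ht).1.le

theorem xI {t : ℝ} (ht : t ∈ Icc ta tb) : xs ∈ Icc (s t) xs :=
  right_mem_Icc.2 (S.xsI W ht).1.le

theorem pM_eq {t x μ : ℝ} (ht : t ∈ Icc ta tb) (hx : x ∈ Icc (s t) xs) :
    pM xs μ (fun z => h z t) x = μ - Ml s h t xs + Ml s h t x := by
  unfold pM prim Ml
  rw [← intervalIntegral.integral_add_adjacent_intervals (S.intH W ht (S.sI W ht) hx)
    (S.intH W ht hx (S.xI W ht))]
  ring

theorem Ml_nn {t x : ℝ} (ht : t ∈ Icc ta tb) (hx : x ∈ Icc (s t) xs) : 0 ≤ Ml s h t x :=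
  intervalIntegral.integral_nonneg hx.1 fun _ hz => S.nn W ht ⟨hz.1, hz.2.trans hx.2⟩

theorem pM_cl {t α x μ : ℝ} (ht : t ∈ Icc ta tb) (hα : s t ≤ α) (hx : x ∈ Icc α xs) :
    pM xs μ (fun z => h (cl α xs z) t) x = μ - Ml s h t xs + Ml s h t x := by
  rw [← S.pM_eq W ht ⟨hα.trans hx.1, hx.2⟩]
  exact pM_congr (fun z hz => by rw [cl_eq hz]) hx

theorem Evar {t lam ρ z z' : ℝ} (ht : t ∈ Icc ta tb)
    (hg : IntegrableOn (fun x => h x t ^ n * h3 x t ^ 2) (Ioc (s t) (s t + 3 * δ / 4)))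
    (hlam : 0 < lam) (hz : z ∈ Ioc (s t) xs) (hz' : z' ∈ Ioc (s t) xs)
    (hl : |pl0 n xs (fun x => h x t) z - pl0 n xs (fun x => h x t) z'| ≤ ρ) :
    |Et h h1 h2 t z - Et h h1 h2 t z'| ≤ Dd n s h h3 (3 * δ / 4) t / lam + lam * ρ := by
  have cq := S.slice (g := fun x t => h x t ^ n * h3 x t ^ 2) S.cq (W.tm ht)
  refine (S.st0 W ht).Evar (h3 := fun x => h3 x t)
    (Q := prim xs fun x => h x t ^ n * h3 x t ^ 2) (fun x hx => S.d2 _ (S.memD W ht hx))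
    (fun x hx => prim_dx' cq (S.subI W ht (S.xsI W ht)) (S.subI W ht hx)) ?_ hlam hz hz' hl
  intro p hp q hq hpq
  have hi : ∀ a ∈ Ioc (s t) xs, ∀ b ∈ Ioc (s t) xs,
      IntervalIntegrable (fun x => h x t ^ n * h3 x t ^ 2) volume a b := fun a ha b hb =>
    (cq.mono (ordConnected_Ioo.uIcc_subset (S.subI W ht ha) (S.subI W ht hb))).intervalIntegrable
  unfold prim
  rw [← intervalIntegral.integral_add_adjacent_intervals (hi p hp q hq) (hi q hq xs (S.xsI W ht)),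
    intervalIntegral.integral_of_le hpq]
  have : ∫ x in Ioc p q, h x t ^ n * h3 x t ^ 2 ≤ Dd n s h h3 (3 * δ / 4) t := by
    refine setIntegral_mono_set hg ?_ (LE.le.eventuallyLE
      (Ioc_subset_Ioc hp.1.le (hq.2.trans (W.hi t ht))))
    filter_upwards [ae_restrict_mem measurableSet_Ioc] with x hx
    exact mul_nonneg (Real.rpow_pos_of_pos (S.pos (x, t) ⟨W.tm ht, hx.1,
      by linarith [hx.2, S.hδ]⟩) n).le (sq_nonneg _)
  linarith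

theorem Dd_nn {t ε : ℝ} (ht : t ∈ Icc ta tb) (hε : ε ≤ 3 * δ / 4) : 0 ≤ Dd n s h h3 ε t :=
  setIntegral_nonneg measurableSet_Ioc fun x hx =>
    mul_nonneg (Real.rpow_pos_of_pos (S.pos (x, t) ⟨W.tm ht, hx.1,
      by linarith [hx.2, S.hδ]⟩) n).le (sq_nonneg _)

theorem LI_q {t α ε : ℝ} {i : ℝ → ℝ} (ht : t ∈ Icc ta tb) (hα : s t < α)
    (hg : IntegrableOn (fun x => h x t ^ n * h3 x t ^ 2) (Ioc (s t) (s t + 3 * δ / 4)))
    (hε : ε ≤ 3 * δ / 4) (hi : ∀ x ∈ Ioc α xs, i x = 0 ∨ (i x = 1 ∧ x ≤ s t + ε)) :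
    LI α xs (fun x => |h (cl α xs x) t ^ n * h3 (cl α xs x) t / h (cl α xs x) t| ^ 2 *
      h (cl α xs x) t ^ (2 - n) * i x) ≤ ENNReal.ofReal (Dd n s h h3 ε t) := by
  refine LI_le_setIntegral measurableSet_Ioc (hg.mono_set (Ioc_subset_Ioc_right (by linarith)))
    (fun x hx => mul_nonneg (Real.rpow_pos_of_pos (S.pos (x, t) ⟨W.tm ht, hx.1,
      by linarith [hx.2, S.hδ]⟩) n).le (sq_nonneg _)) fun x hx => ?_
  rcases hi x hx with h4 | ⟨h4, h5⟩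
  · left; simp [h4]
  · right
    refine ⟨⟨hα.trans hx.1, h5⟩, ?_⟩
    rw [h4, cl_eq (Ioc_subset_Icc_self hx), mul_one,
      q_eq (S.pos _ (S.memD W ht ⟨hα.trans hx.1, hx.2⟩))]

variable (P : Par δ ta tb xs β κ ε0 ε1 ε3 Cβ ca cb m s h h1 h2)
include P

theorem NN_box {t α : ℝ} (ht : t ∈ Icc ta tb) (hα : s t < α) (hα' : α ≤ s t + ε0) :
    NN c (fk c ca cb κ) n (s t) xs β (m t) (fun x => h x t) =
      NN c (fk c ca cb κ) n α xs β (m t) (fun x => h (cl α xs x) t) := by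
  have hx : α ≤ xs := by linarith [W.lo t ht, P.e0']
  refine NN_congr hα.le hx (fun x hx => by rw [cl_eq hx]) (fun x h4 => ?_) fun x h4 => ?_
  · exact (fk_lo P.κ0 (P.m6 t ht x ⟨h4.1.le, h4.2.trans hx⟩ (h4.2.trans hα')).1).1
  · refine W1_lo c P.β0 ?_
    rw [S.pM_eq W ht ⟨h4.1.le, h4.2.trans hx⟩]
    linarith [(P.m6 t ht x ⟨h4.1.le, h4.2.trans hx⟩ (h4.2.trans hα')).2, (abs_le.1 (P.m1 t ht)).2]

theorem win {t α y : ℝ} (ht : t ∈ Icc ta tb) (hα : s t < α) (hy : y ∈ Icc α xs)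
    (hw : W1 c β (pM xs (m t) (fun z => h (cl α xs z) t) y) ≠ 0) :
    y ≤ s t + ε1 ∧ s t + ε3 ≤ y ∧ -Cβ ≤ Et h h1 h2 t y ∧ Ml s h t y ≤ 4 * β := by
  obtain ⟨h4, h5⟩ := W1_ne P.β0 hw
  rw [S.pM_cl W ht hα.le hy] at h4 h5
  have h6 := abs_le.1 (P.m1 t ht)
  have hy' : y ∈ Icc (s t) xs := ⟨hα.le.trans hy.1, hy.2⟩
  have h7 := P.m4 t ht y hy' (by linarith [h6.2])
  exact ⟨P.m2 t ht y hy' (by linarith [h6.1]), h7.1, h7.2, by linarith [h6.1]⟩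

theorem evalN {t : ℝ} (ht : t ∈ Icc ta tb) :
    ca * (Ml s h t xs - 4 * β) - cb * (xs - s t) ≤
      NN c (fk c ca cb κ) n (s t) xs β (m t) (fun x => h x t) ∧
    NN c (fk c ca cb κ) n (s t) xs β (m t) (fun x => h x t) ≤
      ca * Ml s h t xs - cb * (xs - s t - ε1) := by
  have hα : s t < s t + ε0 := by linarith [P.e0]
  have hx : s t + ε0 ≤ xs := by linarith [W.lo t ht, P.e0']
  have h6 := abs_le.1 (P.m1 t ht)
  rw [S.NN_box W P ht hα le_rfl]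
  have B := S.mkB W (m := m t) ht ⟨hα, hx⟩
  have e1 := S.pM_cl W (μ := m t) ht hα.le (left_mem_Icc.2 hx)
  have e2 := S.pM_cl W (μ := m t) ht hα.le (right_mem_Icc.2 hx)
  refine B.eval P.β0 P.κ0 P.ca0 P.cb0 ?_ ?_ fun y hy hw => ?_
  · rw [e1]; linarith [(P.m6 t ht _ ⟨hα.le, hx⟩ le_rfl).2]
  · rw [e2]; linarith [P.m2' t ht]
  · obtain ⟨g1, g2, -, g4⟩ := S.win W P ht hα hy hw
    rw [e1, e2, S.pM_cl W ht hα.le hy]
    refine ⟨fun x h4 => ?_, ?_, ?_⟩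
    · rw [cl_eq ⟨hy.1.trans h4.1, h4.2⟩]
      exact (P.m5 t ht x ⟨g2.trans h4.1, h4.2⟩).le
    · have := mul_le_mul_of_nonneg_left g4 P.ca0
      have := mul_nonneg P.cb0 P.e0.le
      nlinarith
    · have := mul_nonneg P.ca0 (S.Ml_nn W ht ⟨hα.le, hx⟩)
      have := mul_le_mul_of_nonneg_left g1 P.cb0
      nlinarith

theorem derivN (Kc : Kst n δ ta tb xs K H c s h h1 h2 h3) {m' : ℝ → ℝ}
    (dm : ∀ t, HasDerivAt m (m' t) t) (cm' : Continuous m') {t μ' ε : ℝ} (ht : t ∈ Ioo ta tb)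
    (hμ : m' t = μ' - h xs t ^ n * h3 xs t) (hε : 0 < ε) :
    ∃ N', HasDerivAt (fun t => NN c (fk c ca cb κ) n (s t) xs β (m t) fun x => h x t) N' t ∧
      (IntegrableOn (fun x => h x t ^ n * h3 x t ^ 2) (Ioc (s t) (s t + 3 * δ / 4)) →
        ∃ Q, 0 ≤ Q ∧ |N' + ca * (h xs t ^ n * h3 xs t) + μ' * Q| ≤ cb * (10 ^ 10 * K ^ 19) *
          (Dd n s h h3 ε1 t / ε + ε * (1 + Dd n s h h3 (3 * δ / 4) t) +
            25 * K ^ 2 * (K ^ 2 + 4 * Cβ + 16) * (Dd n s h h3 ε3 t / ε))) := by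
  obtain ⟨α, t1, t2, h4, h5, hx, h6, ST'⟩ := S.box W ht P.e0 P.e0'
  have ht' := Ioo_subset_Icc_self ht
  have h4' := Ioo_subset_Icc_self h4
  have Hf := fk_Fd c ca cb κ
  have hd := ST'.d_NN (n := n) (a := α) (b := xs) (β := β) (c := c) Hf dm cm' h4
  simp only [cl_eq h4'] at hd
  refine ⟨_, hd.congr_of_eventuallyEq ?_, fun hg => ?_⟩
  · filter_upwards [Ioo_mem_nhds h4.1 h4.2] with τ hτ
    have hτ' := Ioo_subset_Icc_self hτ
    rw [S.NN_box W P (h5 hτ') (h6 τ hτ').1 (h6 τ hτ').2]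
    simp only [cl_eq hτ']
  obtain ⟨hα, hα'⟩ := h6 t h4'
  have B := S.mkB W (m := m t) ht' ⟨hα, hx⟩
  have h7 := abs_le.1 (P.m1 t ht')
  have e1 := S.pM_cl W (μ := m t) ht' hα.le (left_mem_Icc.2 hx)
  have e2 := S.pM_cl W (μ := m t) ht' hα.le (right_mem_Icc.2 hx)
  have la := P.m6 t ht' α ⟨hα.le, hx⟩ hα'
  have lx := P.m4 t ht' xs (S.xI W ht') (by linarith [P.m2' t ht', P.β0])
  have ca' : cl α xs α = α := cl_eq (left_mem_Icc.2 hx)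
  have cx' : cl α xs xs = xs := cl_eq (right_mem_Icc.2 hx)
  have sub : ∀ x ∈ Icc α xs, x ∈ Ioc (s t) xs := fun x hx => ⟨hα.trans_le hx.1, hx.2⟩
  have id := B.ident (c := c) (β := β) (Mt := pM xs (m' t) fun z => k (cl α xs z) t) (ca := ca)
    (μ' := μ') Hf P.β0 (by simp only [ca']; exact (fk_lo P.κ0 la.1).1)
    (by simp only [ca']; exact (fk_lo P.κ0 la.1).2)
    (by simp only [cx']; exact (fk_hi P.κ0 (P.m5 t ht' xs ⟨lx.1, le_rfl⟩).le).2.1)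
    (by rw [e1]; linarith [la.2]) (by rw [e2]; linarith [P.m2' t ht']) (by
      intro y hy
      have := intervalIntegral.integral_eq_sub_of_hasDerivAt_of_le hy.2 B.cF.continuousOn
        (fun x hx => B.dF x ⟨hy.1.trans_lt hx.1, hx.2⟩) (B.ck.neg.intervalIntegrable _ _)
      rw [intervalIntegral.integral_neg] at this
      simp only [pM, prim, this, hμ, cx']
      ring)
  have c3 : ∀ x ∈ Icc α xs, ∀ y ∈ Icc α xs,
      W1 c β (pM xs (m t) (fun z => h (cl α xs z) t) y) ≠ 0 → x < y →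
        0 < h x t ∧ ca * h x t ≤ cb := fun x hx y hy hw hxy =>
    ⟨S.pos _ (S.memD W ht' (sub x hx)), P.m3 t ht' x (Ioc_subset_Icc_self (sub x hx))
      (hxy.le.trans (S.win W P ht' hα hy hw).1)⟩
  refine ⟨_, B.Q_nonneg (c := c) (f := fk c ca cb κ) P.β0 fun x hx y hy hw hxy => ?_, ?_⟩
  · simp only [cl_eq hx]
    exact mul_nonpos_of_nonpos_of_nonneg (by linarith [(c3 x hx y hy hw hxy).2]) (c.nn _)
  have hD := S.Dd_nn W ht' le_rfl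
  obtain ⟨lam, Λ, Θ, g1, g2, g3, g4, g5, g6⟩ := sqrt_facts hD Kc.K2
  have K2 := Kc.K2
  have C0 := P.C0
  have S0 := S.st0 W ht'
  have HE : ∀ z ∈ Ioc (s t) xs, ∀ z' ∈ Ioc (s t) xs,
      |pl0 n xs (fun x => h x t) z - pl0 n xs (fun x => h x t) z'| ≤ 2 →
        |Et h h1 h2 t z - Et h h1 h2 t z'| ≤ Λ := fun z hz z' hz' hl =>
    (S.Evar W ht' hg g1 hz hz' hl).trans g2
  have Λ0 : 0 ≤ Λ := (abs_nonneg _).trans (HE xs (S.xsI W ht') xs (S.xsI W ht') (by simp))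
  have ag : ∀ x ∈ Icc α xs, h (cl α xs x) t = h x t ∧ h1 (cl α xs x) t = h1 x t ∧
      pl0 n xs (fun x => h (cl α xs x) t) x = pl0 n xs (fun x => h x t) x ∧
      pl3 xs (fun x => h (cl α xs x) t) x = pl3 xs (fun x => h x t) x ∧
      h (cl α xs x) t ^ (2 - n) = h x t ^ (2 - n) := fun x hx =>
    ⟨by rw [cl_eq hx], by rw [cl_eq hx], pl0_congr (fun z hz => by rw [cl_eq hz]) hx,
      pl3_congr (fun z hz => by rw [cl_eq hz]) hx, by rw [cl_eq hx]⟩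
  have hKc : c.C ≤ K := by linarith [Kc.K3, c.C1]
  have T := mkFc (c := c) (β := β) (K := K) (H := H) (D0 := Dd n s h h3 ε1 t) S0 (S.dl3 W ht') HE
    (by linarith) ((Kc.x1 t ht').trans g3) g4 B hα ag Kc.K4 Kc.K5 hKc
    (fun x hx => Kc.hH t ht' x (Ioc_subset_Icc_self (sub x hx))) Kc.K8 P.β0
    (by rw [e1]; linarith [S.Ml_nn W ht' ⟨hα.le, hx⟩]) (S.Dd_nn W ht' P.e1)
    (S.LI_q W ht' hα hg P.e1 fun x hx => by
      by_cases hc : pM xs (m t) (fun z => h (cl α xs z) t) x ≤ 3 * β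
      · right
        refine ⟨iR_pos hc, P.m2 t ht' x ⟨hα.le.trans hx.1.le, hx.2⟩ ?_⟩
        rw [S.pM_cl W ht' hα.le (Ioc_subset_Icc_self hx)] at hc
        linarith
      · exact Or.inl (iR_neg hc))
  have r0 : 0 ≤ K ^ 2 + 4 * (Cβ + Λ) := by positivity
  set Θ' := √(K ^ 2 + 4 * (Cβ + Λ)) with hΘ'
  have r1 : K ≤ Θ' := Real.le_sqrt_of_sq_le (by linarith)
  have r2 : Θ' ^ 2 = K ^ 2 + 4 * (Cβ + Λ) := Real.sq_sqrt r0
  set Cb := 25 * K ^ 2 * (K ^ 2 + 4 * Cβ + 16) with hCb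
  have Cb0 : 0 < Cb := by positivity
  have er := B.err_bound (c := c) (f := fk c ca cb κ) (f1 := fk1 c ca cb κ) (f2 := fk2 c ca cb κ)
    (cb := cb) (Θ5 := 5 * K * Θ') (ε := ε) (ε5 := ε / Cb) (D5 := Dd n s h h3 ε3 t)
    (i := fun x => ind (h (cl α xs x) t ≤ 2 * κ)) S.hn Kc.K1 Kc.K2 hKc P.cb0 T hε (by positivity)
    (S.Dd_nn W ht' P.e3) (by positivity)
    (measurable_ind (measurableSet_le B.ch.measurable measurable_const)) (fun _ => ind_nn _)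
    (fun x => by
      by_cases hc : h (cl α xs x) t ≤ 2 * κ
      · rw [ind_pos hc]
      · rw [ind_neg hc]; norm_num)
    (S.LI_q W ht' hα hg P.e3 fun x hx => by
      by_cases hc : h (cl α xs x) t ≤ 2 * κ
      · right
        refine ⟨ind_pos hc, ?_⟩
        by_contra h8
        rw [cl_eq (Ioc_subset_Icc_self hx)] at hc
        linarith [P.m5 t ht' x ⟨(not_le.1 h8).le, hx.2⟩]
      · exact Or.inl (ind_neg hc))
    (by
      intro x hx y hy hw hxy hl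
      rw [(ag x hx).2.2.1, (ag y hy).2.2.1] at hl
      have i1 := T.inv x hx
      simp only [cl_eq hx] at i1 ⊢
      have px := S.pos _ (S.memD W ht' (sub x hx))
      refine slope_conv (S0.slope (sub x hx) (by linarith) ((Kc.x1 t ht').trans r1)
        fun q hq h8 => ?_) (by linarith) (by linarith)
        (mul_pos px (Real.rpow_pos_of_pos px _)) i1
      have m1 := S0.l0mono (sub x hx) (sub y hy) hxy.le
      have h9 := HE q hq y (sub y hy) (by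
        rw [abs_le] at h8 ⊢; constructor <;> linarith [h8.1, h8.2])
      have h10 := (S.win W P ht' hα hy hw).2.2.1
      have h11 := (abs_le.1 h9).1
      rw [r2]
      unfold Et at h10 h11
      nlinarith [sq_nonneg K])
    (by
      intro x hx y hy hw hxy
      obtain ⟨px, h8⟩ := c3 x hx y hy hw hxy
      simp only [cl_eq hx]
      refine fk_bd P.κ0 px P.ca0 h8 ?_ Kc.K3
      rw [abs_le]
      constructor <;> linarith [mul_nonneg P.ca0 px.le, P.cb0])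
    (by
      intro x hx y hy hw hxy
      simp only [cl_eq hx]
      exact (fk_hi P.κ0 (P.m5 t ht' x ⟨(S.win W P ht' hα hy hw).2.1.trans hxy, hx.2⟩).le).2.2)
  rw [id]
  simp only [cx']
  refine le_trans (le_of_eq ?_) (er.trans ?_)
  · congr 1; ring
  have d1 := S.Dd_nn W ht' P.e1
  have d3 := S.Dd_nn W ht' P.e3
  set D := Dd n s h h3 (3 * δ / 4) t
  set D1 := Dd n s h h3 ε1 t
  set D3 := Dd n s h h3 ε3 t
  have a1 : ε / Cb * (5 * K * Θ') ^ 2 ≤ ε * (1 + D) := by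
    rw [div_mul_eq_mul_div, div_le_iff₀ Cb0, mul_assoc ε]
    gcongr
    rw [mul_pow, r2, hCb]
    have : K ^ 2 + 4 * (Cβ + Λ) ≤ (1 + D) * (K ^ 2 + 4 * Cβ + 16) := by
      nlinarith [mul_nonneg hD (sq_nonneg K), mul_nonneg hD C0]
    nlinarith [mul_le_mul_of_nonneg_left this (sq_nonneg K)]
  have a2 : (5 * K * Θ) ^ 4 ≤ 1500000 * K ^ 8 * (1 + D) := by
    calc (5 * K * Θ) ^ 4 = 625 * K ^ 4 * Θ ^ 4 := by ring
      _ ≤ 625 * K ^ 4 * (2400 * K ^ 4 * (1 + D)) := by gcongr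
      _ = _ := by ring
  have a3 : D3 / (ε / Cb) = Cb * (D3 / ε) := by field_simp
  rw [a3]
  have k1 : 1 ≤ K ^ 16 := one_le_pow₀ (by linarith)
  have k2 : K ≤ K ^ 16 := le_self_pow₀ (by linarith) (by norm_num)
  have u1 : 0 ≤ D1 / ε := by positivity
  have u2 : 0 ≤ ε * (1 + D) := by positivity
  have u3 : 0 ≤ Cb * (D3 / ε) := by positivity
  have a4 : 480 * K ^ 8 * (5 * K * Θ) ^ 4 * ε ≤ 720000000 * K ^ 16 * (ε * (1 + D)) := by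
    calc _ ≤ 480 * K ^ 8 * (1500000 * K ^ 8 * (1 + D)) * ε := by gcongr
      _ = _ := by ring
  have a5 : 113 * K * (D1 / ε) + 480 * K ^ 8 * (5 * K * Θ) ^ 4 * ε +
      (Cb * (D3 / ε) + ε / Cb * (5 * K * Θ') ^ 2) ≤
      800000000 * K ^ 16 * (D1 / ε + ε * (1 + D) + Cb * (D3 / ε)) := by
    have v1 := mul_le_mul_of_nonneg_right k2 u1
    have v2 := mul_le_mul_of_nonneg_right k1 u2
    have v3 := mul_le_mul_of_nonneg_right k1 u3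
    have v4 : 0 ≤ K ^ 16 * (D1 / ε) := by positivity
    linarith
  have cb0 := P.cb0
  calc _ ≤ cb * (12 * K ^ 3) * (800000000 * K ^ 16 * (D1 / ε + ε * (1 + D) + Cb * (D3 / ε))) := by
        gcongr
    _ = cb * (9600000000 * K ^ 19) * (D1 / ε + ε * (1 + D) + Cb * (D3 / ε)) := by ring
    _ ≤ _ := by gcongr; norm_num

end Sol

end Pool.Agent.TF
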