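import Pool.Agent.P.MP_e83d7b_an.Dyn

/-! Clamping, localisation and evaluation of the functionals on a slice. -/

namespace Pool.Agent.TF

open Set MeasureTheory Filter Topology

/-- clamp to `[a,b]` -/
def cl (a b x : ℝ) : ℝ := max a (min x b)

theorem cl_cont (a b : ℝ) : Continuous (cl a b) := by unfold cl; fun_prop

theorem cl_mem {a b : ℝ} (hab : a ≤ b) (x : ℝ) : cl a b x ∈ Icc a b :=
  ⟨le_max_left _ _, max_le hab (min_le_right _ _)⟩

theorem cl_eq {a b x : ℝ} (hx : x ∈ Icc a b) : cl a b x = x := by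
  unfold cl; rw [min_eq_left hx.2, max_eq_right hx.1]

theorem cl_mono (a b : ℝ) : Monotone (cl a b) := fun _ _ hxy =>
  max_le_max le_rfl (min_le_min hxy le_rfl)

theorem cl_deriv {a b x g' : ℝ} {g : ℝ → ℝ} (hx : x ∈ Ioo a b) (hd : HasDerivAt g g' x) :
    HasDerivAt (fun y => g (cl a b y)) g' x := by
  refine hd.congr_of_eventuallyEq ?_
  filter_upwards [Ioo_mem_nhds hx.1 hx.2] with y hy
  rw [cl_eq (Ioo_subset_Icc_self hy)]

theorem cl_continuous {a b : ℝ} {g : ℝ → ℝ} (hab : a ≤ b) (hg : ContinuousOn g (Icc a b)) :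
    Continuous fun y => g (cl a b y) :=
  hg.comp_continuous (cl_cont a b) (cl_mem hab)

theorem prim_dx' {p q b x : ℝ} {g : ℝ → ℝ} (hg : ContinuousOn g (Ioo p q)) (hb : b ∈ Ioo p q)
    (hx : x ∈ Ioo p q) : HasDerivAt (prim b g) (g x) x := by
  have hi : IntervalIntegrable g volume x b :=
    (hg.mono (uIcc_subset_Ioo hx hb)).intervalIntegrable
  have := (intervalIntegral.integral_hasDerivAt_left hi
    (hg.stronglyMeasurableAtFilter isOpen_Ioo x hx) (hg.continuousAt (Ioo_mem_nhds hx.1 hx.2))).neg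
  rw [neg_neg] at this
  exact this
where
  uIcc_subset_Ioo {p q x b : ℝ} (hx : x ∈ Ioo p q) (hb : b ∈ Ioo p q) : uIcc x b ⊆ Ioo p q :=
    ordConnected_Ioo.uIcc_subset hx hb

theorem prim_congr {a b x : ℝ} {g g' : ℝ → ℝ} (h : ∀ z ∈ Icc a b, g z = g' z) (hx : x ∈ Icc a b) :
    prim b g x = prim b g' x := by
  unfold prim
  congr 1
  refine intervalIntegral.integral_congr fun z hz => h z ?_
  rw [uIcc_of_le hx.2] at hz
  exact ⟨hx.1.trans hz.1, hz.2⟩

theorem integral_cut {s a b : ℝ} {g g' : ℝ → ℝ} (hsa : s ≤ a) (hab : a ≤ b)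
    (h0 : ∀ x ∈ Ioc s a, g x = 0) (h1 : ∀ x ∈ Icc a b, g x = g' x) :
    ∫ x in s..b, g x = ∫ x in a..b, g' x := by
  rw [intervalIntegral.integral_of_le (hsa.trans hab), intervalIntegral.integral_of_le hab,
    setIntegral_eq_of_subset_of_forall_sdiff_eq_zero measurableSet_Ioc (Ioc_subset_Ioc_left hsa)]
  · exact setIntegral_congr_fun measurableSet_Ioc fun x hx => h1 x (Ioc_subset_Icc_self hx)
  · intro x hx
    refine h0 x ⟨hx.1.1, ?_⟩
    by_contra hc
    exact hx.2 ⟨not_le.1 hc, hx.1.2⟩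

variable {c : Cut} {f : ℝ → ℝ} {n s a b β m R : ℝ} {h hc : ℝ → ℝ}

theorem pl0_congr (e : ∀ x ∈ Icc a b, h x = hc x) {x : ℝ} (hx : x ∈ Icc a b) :
    pl0 n b h x = pl0 n b hc x := prim_congr (fun z hz => by rw [e z hz]) hx

theorem pl3_congr (e : ∀ x ∈ Icc a b, h x = hc x) {x : ℝ} (hx : x ∈ Icc a b) :
    pl3 b h x = pl3 b hc x := prim_congr (fun z hz => by rw [e z hz]) hx

theorem pM_congr (e : ∀ x ∈ Icc a b, h x = hc x) {x : ℝ} (hx : x ∈ Icc a b) :
    pM b m h x = pM b m hc x := by unfold pM; rw [prim_congr e hx]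

theorem NN_congr (hsa : s ≤ a) (hab : a ≤ b) (e : ∀ x ∈ Icc a b, h x = hc x)
    (h0 : ∀ x ∈ Ioc s a, f (h x) = 0) (h1 : ∀ y ∈ Ioc s a, W1 c β (pM b m h y) = 0) :
    NN c f n s b β m h = NN c f n a b β m hc := by
  refine integral_cut hsa hab (fun y hy => by simp [h1 y hy]) fun y hy => ?_
  rw [pM_congr e hy, e y hy]
  congr 1
  refine integral_cut hsa hab (fun x hx => by simp [h0 x hx]) fun x hx => ?_
  simp only [rr, pl0_congr e hx, pl0_congr e hy, pl3_congr e hx, pl3_congr e hy, e x hx]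

theorem PP_congr (hsa : s ≤ a) (hab : a ≤ b) (e : ∀ x ∈ Icc a b, h x = hc x)
    (h0 : ∀ x ∈ Ioc s a, f (h x) = 0) : PP c f n s b R h = PP c f n a b R hc := by
  refine integral_cut hsa hab (fun x hx => by simp [h0 x hx]) fun x hx => ?_
  simp only [pl0_congr e hx, e x hx]

theorem mkBx {h h1 F k : ℝ → ℝ} (hab : a ≤ b) (ch : ContinuousOn h (Icc a b))
    (ch1 : ContinuousOn h1 (Icc a b)) (cF : ContinuousOn F (Icc a b))
    (ck : ContinuousOn k (Icc a b)) (pos : ∀ x ∈ Icc a b, 0 < h x)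
    (dh : ∀ x ∈ Ioo a b, HasDerivAt h (h1 x) x) (dF : ∀ x ∈ Ioo a b, HasDerivAt F (-k x) x) :
    Bx n a b (fun x => h (cl a b x)) (fun x => h1 (cl a b x)) (fun x => F (cl a b x))
      (fun x => k (cl a b x)) (fun x => h (cl a b x) ^ (2 - n))
      (pl0 n b fun x => h (cl a b x)) (pl3 b fun x => h (cl a b x))
      (pL0 n b (fun x => h (cl a b x)) fun x => k (cl a b x))
      (pL3 b (fun x => h (cl a b x)) fun x => k (cl a b x)) (pM b m fun x => h (cl a b x)) := by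
  have c0 := cl_continuous hab ch
  have c1 := cl_continuous hab ck
  have p0 : ∀ x, 0 < h (cl a b x) := fun x => pos _ (cl_mem hab x)
  have ce : Continuous fun x => h (cl a b x) ^ (2 - n) :=
    c0.rpow_const fun x => Or.inl (p0 x).ne'
  have c3 : Continuous fun x => 1 / h (cl a b x) ^ 3 :=
    continuous_const.div (c0.pow 3) fun x => (pow_pos (p0 x) 3).ne'
  have c4 : Continuous fun x => (2 - n) * (h (cl a b x) ^ (2 - n) / h (cl a b x)) * k (cl a b x) :=
    (continuous_const.mul (ce.div c0 fun x => (p0 x).ne')).mul c1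
  have c5 : Continuous fun x => -3 * k (cl a b x) / h (cl a b x) ^ 4 :=
    (continuous_const.mul c1).div (c0.pow 4) fun x => (pow_pos (p0 x) 4).ne'
  have pc : ∀ g : ℝ → ℝ, Continuous g → Continuous (prim b g) := fun g hg =>
    continuous_iff_continuousAt.2 fun x => (prim_dx hg x).continuousAt
  have dh' : ∀ x ∈ Ioo a b, HasDerivAt (fun x => h (cl a b x)) (h1 (cl a b x)) x := by
    intro x hx
    rw [cl_eq (Ioo_subset_Icc_self hx)]
    exact cl_deriv hx (dh x hx)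
  refine ⟨hab, c0, cl_continuous hab ch1, cl_continuous hab cF, c1, ce, pc _ ce, pc _ c3, pc _ c4,
    pc _ c5, continuous_const.add (pc _ c0), p0, fun x => Real.rpow_pos_of_pos (p0 x) _, dh', ?_,
    fun x hx => HasDerivAt.comp (h := fun x => h (cl a b x)) x (rp_deriv (n := n) (p0 x)) (dh' x hx),
    fun x _ => prim_dx ce x,
    fun x _ => prim_dx c3 x, fun x _ => (prim_dx c0 x).const_add m, fun x _ => prim_dx c4 x,
    fun x _ => prim_dx c5 x⟩
  intro x hx
  simp only [cl_eq (Ioo_subset_Icc_self hx)]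
  exact cl_deriv hx (dF x hx)

/-- the truncated affine density -/
noncomputable def fk (c : Cut) (ca cb κ v : ℝ) : ℝ := (ca * v - cb) * c.S (v / κ - 1)
noncomputable def fk1 (c : Cut) (ca cb κ v : ℝ) : ℝ :=
  ca * c.S (v / κ - 1) + (ca * v - cb) * (c.S1 (v / κ - 1) / κ)
noncomputable def fk2 (c : Cut) (ca cb κ v : ℝ) : ℝ :=
  2 * ca * (c.S1 (v / κ - 1) / κ) + (ca * v - cb) * (c.S2 (v / κ - 1) / κ ^ 2)

theorem fk_Fd (c : Cut) (ca cb κ : ℝ) : Fd (fk c ca cb κ) (fk1 c ca cb κ) (fk2 c ca cb κ) := by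
  have dl : ∀ v, HasDerivAt (fun v => ca * v - cb) ca v := fun v => by
    simpa using ((hasDerivAt_id v).const_mul ca).sub_const cb
  have da : ∀ v, HasDerivAt (fun v => v / κ - 1) (1 / κ) v := fun v =>
    ((hasDerivAt_id v).div_const κ).sub_const 1
  refine ⟨fun v => ?_, fun v => ?_, ?_⟩
  · refine HasDerivAt.congr_deriv (f := fk c ca cb κ)
      ((dl v).mul ((c.d0 _).comp v (da v))) ?_
    simp only [fk1]; ring
  · refine HasDerivAt.congr_deriv (f := fk1 c ca cb κ)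
      ((((c.d0 _).comp v (da v)).const_mul ca).add
        ((dl v).mul (((c.d1 _).comp v (da v)).div_const κ))) ?_
    simp only [fk2]; ring
  · have := c.c1; have := c.c2
    unfold fk2; fun_prop

section
variable {ca cb κ v : ℝ}

theorem arg_lo (hκ : 0 < κ) (hv : v ≤ κ) : v / κ - 1 ≤ 0 := by
  rw [sub_nonpos, div_le_iff₀ hκ]; linarith

theorem arg_hi (hκ : 0 < κ) (hv : 2 * κ ≤ v) : 1 ≤ v / κ - 1 := by
  rw [le_sub_iff_add_le, le_div_iff₀ hκ]; linarith

theorem fk_lo (hκ : 0 < κ) (hv : v ≤ κ) : fk c ca cb κ v = 0 ∧ fk1 c ca cb κ v = 0 := by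
  simp [fk, fk1, c.zero _ (arg_lo hκ hv), c.s1z _ (Or.inl (arg_lo hκ hv))]

theorem fk_hi (hκ : 0 < κ) (hv : 2 * κ ≤ v) :
    fk c ca cb κ v = ca * v - cb ∧ fk1 c ca cb κ v = ca ∧ fk2 c ca cb κ v = 0 := by
  simp [fk, fk1, fk2, c.one _ (arg_hi hκ hv), c.s1z _ (Or.inr (arg_hi hκ hv)),
    c.s2z _ (Or.inr (arg_hi hκ hv))]

theorem fk_bd {B K : ℝ} (hκ : 0 < κ) (hv : 0 < v) (hca : 0 ≤ ca) (h1 : ca * v ≤ B)
    (h2 : |ca * v - cb| ≤ B) (hK : 8 * c.C ≤ K) :
    |fk c ca cb κ v| ≤ B ∧ |v * fk1 c ca cb κ v| ≤ B * K ∧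
      |v ^ 2 * fk2 c ca cb κ v| ≤ B * K * ind (v ≤ 2 * κ) := by
  have B0 : 0 ≤ B := (abs_nonneg _).trans h2
  have C1 := c.C1
  have s0 : |c.S (v / κ - 1)| ≤ 1 := by rw [abs_of_nonneg (c.nn _)]; exact c.le1 _
  have s1 : |c.S1 (v / κ - 1)| ≤ c.C := by rw [abs_of_nonneg (c.s1nn _)]; exact c.b1 _
  have s2 := c.b2 (v / κ - 1)
  have h0 : |ca * v| ≤ B := by rwa [abs_of_nonneg (by positivity)]
  refine ⟨?_, ?_⟩
  · rw [fk, abs_mul]
    calc _ ≤ B * 1 := by gcongr
      _ = _ := by ring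
  by_cases hv2 : v ≤ 2 * κ
  swap
  · obtain ⟨-, e1, e2⟩ := fk_hi (c := c) (ca := ca) (cb := cb) hκ (not_le.1 hv2).le
    rw [e1, e2, ind_neg hv2, mul_comm v ca]
    refine ⟨h0.trans (le_mul_of_one_le_right B0 (by linarith)), by simp⟩
  have hr : |v / κ| ≤ 2 := by
    rw [abs_of_pos (by positivity), div_le_iff₀ hκ]; exact hv2
  rw [ind_pos hv2]
  constructor
  · have e : v * fk1 c ca cb κ v = (ca * v) * c.S (v / κ - 1) +
        (ca * v - cb) * c.S1 (v / κ - 1) * (v / κ) := by unfold fk1; ring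
    rw [e]
    refine (abs_add_le _ _).trans ?_
    rw [abs_mul (ca * v), abs_mul (_ * _) (v / κ), abs_mul (ca * v - cb)]
    calc _ ≤ B * 1 + B * c.C * 2 := by gcongr
      _ ≤ _ := by nlinarith
  · have e : v ^ 2 * fk2 c ca cb κ v = 2 * ((ca * v) * c.S1 (v / κ - 1) * (v / κ)) +
        (ca * v - cb) * c.S2 (v / κ - 1) * (v / κ) ^ 2 := by unfold fk2; ring
    rw [e]
    refine (abs_add_le _ _).trans ?_
    rw [abs_mul 2, abs_mul (_ * _) (v / κ), abs_mul (ca * v), abs_mul (_ * _) ((v / κ) ^ 2),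
      abs_mul (ca * v - cb), abs_two, abs_pow]
    calc _ ≤ 2 * (B * c.C * 2) + B * c.C * 2 ^ 2 := by gcongr
      _ ≤ _ := by nlinarith

end

/-- evaluation of the marker functional -/
theorem Bx.eval {h1 F k et l0 l3 L0 L3 M : ℝ → ℝ} (S : Bx n a b h h1 F k et l0 l3 L0 L3 M)
    {ca cb κ lo hi : ℝ} (hβ : 0 < β) (hκ : 0 < κ) (hca : 0 ≤ ca) (hcb : 0 ≤ cb)
    (hMa : M a ≤ 2 * β) (hMb : 3 * β ≤ M b)
    (h2 : ∀ y ∈ Icc a b, W1 c β (M y) ≠ 0 → (∀ x ∈ Icc y b, 2 * κ ≤ h x) ∧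
      lo ≤ ca * (M b - M y) - cb * (b - a) ∧ ca * (M b - M a) - cb * (b - y) ≤ hi) :
    lo ≤ ∫ y in a..b, W1 c β (M y) * h y * GG c (fk c ca cb κ) a b h l0 l3 y ∧
      ∫ y in a..b, W1 c β (M y) * h y * GG c (fk c ca cb κ) a b h l0 l3 y ≤ hi := by
  have := S.ch; have := S.cM; have := W1_cont c β; have := W0_cont c β
  have Hf := fk_Fd c ca cb κ
  have hG := S.c_GG (c := c) Hf
  have k1 := intervalIntegral.integral_eq_sub_of_hasDerivAt_of_le S.ab
    (f := fun y => W0 c β (M y)) (f' := fun y => W1 c β (M y) * h y) (by fun_prop)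
    (fun y hy => (W0_deriv c β (M y)).comp y (S.dM y hy))
    ((by fun_prop : Continuous fun y => W1 c β (M y) * h y).intervalIntegrable _ _)
  simp only [W0_lo c hβ hMa, W0_hi c hβ hMb, sub_zero] at k1
  have key : ∀ y ∈ Icc a b, W1 c β (M y) ≠ 0 → lo ≤ GG c (fk c ca cb κ) a b h l0 l3 y ∧
      GG c (fk c ca cb κ) a b h l0 l3 y ≤ hi := by
    intro y hy hw
    obtain ⟨g1, g2, g3⟩ := h2 y hy hw
    have cg : Continuous fun x => fk c ca cb κ (h x) * (1 - c.S (rr h l0 l3 x y)) :=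
      (Hf.c0.comp S.ch).mul (continuous_const.sub (c.c0.comp
        (S.c_rr.comp (continuous_id.prodMk continuous_const))))
    have hM : ∀ p ∈ Icc a b, ∀ q ∈ Icc a b, p ≤ q → ∫ x in p..q, h x = M q - M p :=
      fun p hp q hq hpq => intervalIntegral.integral_eq_sub_of_hasDerivAt_of_le hpq
        S.cM.continuousOn (fun x hx => S.dM x ⟨hp.1.trans_lt hx.1, hx.2.trans_le hq.2⟩)
        (S.ch.intervalIntegrable _ _)
    have e1 : ∫ x in y..b, fk c ca cb κ (h x) * (1 - c.S (rr h l0 l3 x y)) =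
        ca * (M b - M y) - cb * (b - y) := by
      rw [← hM y hy b (right_mem_Icc.2 S.ab) hy.2, ← intervalIntegral.integral_const_mul,
        show cb * (b - y) = ∫ _ in y..b, cb by simp [mul_comm],
        ← intervalIntegral.integral_sub ((S.ch.const_mul _).intervalIntegrable _ _)
          intervalIntegrable_const]
      refine intervalIntegral.integral_congr fun x hx => ?_
      rw [uIcc_of_le hy.2] at hx
      simp only [(fk_hi hκ (g1 x hx)).1,
        c.zero _ (S.rr_nonpos ⟨hy.1.trans hx.1, hx.2⟩ hy hx.1), sub_zero, mul_one]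
    have pt : ∀ x, -cb ≤ fk c ca cb κ (h x) * (1 - c.S (rr h l0 l3 x y)) ∧
        fk c ca cb κ (h x) * (1 - c.S (rr h l0 l3 x y)) ≤ ca * h x := by
      intro x
      have p1 := mul_nonneg (c.nn (h x / κ - 1)) (sub_nonneg.2 (c.le1 (rr h l0 l3 x y)))
      have p2 : c.S (h x / κ - 1) * (1 - c.S (rr h l0 l3 x y)) ≤ 1 :=
        mul_le_one₀ (c.le1 _) (sub_nonneg.2 (c.le1 _)) (by linarith [c.nn (rr h l0 l3 x y)])
      have p3 := mul_nonneg hca (S.pos x).le
      unfold fk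
      constructor <;> nlinarith
    have e2 : -cb * (y - a) ≤ ∫ x in a..y, fk c ca cb κ (h x) * (1 - c.S (rr h l0 l3 x y)) := by
      rw [show -cb * (y - a) = ∫ _ in a..y, -cb by simp [mul_comm]]
      exact intervalIntegral.integral_mono_on hy.1 intervalIntegrable_const
        (cg.intervalIntegrable _ _) fun x _ => (pt x).1
    have e3 : ∫ x in a..y, fk c ca cb κ (h x) * (1 - c.S (rr h l0 l3 x y)) ≤ ca * (M y - M a) := by
      rw [← hM a (left_mem_Icc.2 S.ab) y hy hy.1, ← intervalIntegral.integral_const_mul]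
      exact intervalIntegral.integral_mono_on hy.1 (cg.intervalIntegrable _ _)
        ((S.ch.const_mul _).intervalIntegrable _ _) fun x _ => (pt x).2
    unfold GG
    rw [← intervalIntegral.integral_add_adjacent_intervals (b := y) (cg.intervalIntegrable _ _)
      (cg.intervalIntegrable _ _), e1]
    constructor <;> linarith
  have ec : ∀ d : ℝ, d = ∫ y in a..b, W1 c β (M y) * h y * d := by
    intro d
    rw [intervalIntegral.integral_mul_const, k1, one_mul]
  constructor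
  · rw [ec lo]
    refine intervalIntegral.integral_mono_on S.ab (Continuous.intervalIntegrable (by fun_prop) _ _)
      (Continuous.intervalIntegrable (by fun_prop) _ _) fun y hy => ?_
    by_cases hw : W1 c β (M y) = 0
    · simp [hw]
    · exact mul_le_mul_of_nonneg_left (key y hy hw).1 (mul_nonneg (W1_nn c hβ _) (S.pos y).le)
  · rw [ec hi]
    refine intervalIntegral.integral_mono_on S.ab (Continuous.intervalIntegrable (by fun_prop) _ _)
      (Continuous.intervalIntegrable (by fun_prop) _ _) fun y hy => ?_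
    by_cases hw : W1 c β (M y) = 0
    · simp [hw]
    · exact mul_le_mul_of_nonneg_left (key y hy hw).2 (mul_nonneg (W1_nn c hβ _) (S.pos y).le)

theorem LI_le_setIntegral {G g : ℝ → ℝ} {A : Set ℝ} (hA : MeasurableSet A)
    (hg : IntegrableOn g A) (hg0 : ∀ x ∈ A, 0 ≤ g x)
    (hG : ∀ x ∈ Ioc a b, G x ≤ 0 ∨ (x ∈ A ∧ G x ≤ g x)) :
    LI a b G ≤ ENNReal.ofReal (∫ x in A, g x) := by
  have h1 : LI a b G ≤ ∫⁻ x, A.indicator (fun x => ENNReal.ofReal (g x)) x := by
    refine le_trans (setLIntegral_mono' measurableSet_Ioc fun x hx => ?_)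
      (setLIntegral_le_lintegral _ _)
    rcases hG x hx with h | ⟨h, h'⟩
    · rw [ENNReal.ofReal_of_nonpos h]; exact zero_le
    · rw [indicator_of_mem h]; exact ENNReal.ofReal_le_ofReal h'
  rw [lintegral_indicator hA] at h1
  refine h1.trans (le_of_eq ?_)
  rw [← ofReal_integral_eq_lintegral_ofReal hg]
  filter_upwards [ae_restrict_mem hA] with x hx using hg0 x hx

end Pool.Agent.TF
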