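import Pool.Agent.P.MP_e83d7b_an.Facts

/-! The one-sided mass functional: static estimate. -/

namespace Pool.Agent.TF

open Set MeasureTheory Filter Topology

noncomputable def Dp (c : Cut) (Ψ Ψ1 : ℝ → ℝ) (a b R : ℝ) (h k l0 L0 : ℝ → ℝ) : ℝ :=
  ∫ x in a..b, (Ψ1 (h x) * k x * (1 - c.S (-l0 x / R - 1)) -
    Ψ (h x) * (c.S1 (-l0 x / R - 1) * (-L0 x / R)))

variable {n a b : ℝ} {h h1 h2 h3 F k et l0 l3 L0 L3 M Ψ Ψ1 Ψ2 Ψt : ℝ → ℝ} {c : Cut}

theorem LI_const {d : ℝ} (hd : 0 ≤ d) :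
    LI a b (fun _ => d) ≤ ENNReal.ofReal (d * (b - a)) := by
  unfold LI
  rw [setLIntegral_const, Real.volume_Ioc, ENNReal.ofReal_mul hd]

theorem Bx.stepA (S : Bx n a b h h1 F k et l0 l3 L0 L3 M) {K R κ ε Γ D : ℝ} (hn : 3 ≤ n)
    (ch2 : Continuous h2) (ch3 : Continuous h3)
    (dh1 : ∀ x ∈ Ioo a b, HasDerivAt h1 (h2 x) x) (dh2 : ∀ x ∈ Ioo a b, HasDerivAt h2 (h3 x) x)
    (hF : ∀ x ∈ Icc a b, et x * F x = h x ^ 2 * h3 x) (hl0 : l0 b = 0) (hL0 : L0 b = 0)
    (HΨ : Fd Ψ Ψ1 Ψ2) (dΨt : ∀ v, HasDerivAt Ψt (Ψ v) v)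
    (p0 : ∀ v, 0 < v → 0 ≤ Ψ v ∧ Ψ v ≤ v ∧ |Ψ1 v| ≤ K ∧ |v * Ψ2 v| ≤ K ∧ 0 ≤ Ψt v ∧ Ψt v ≤ v ^ 2)
    (p1 : ∀ v, 2 * κ < v → Ψ2 v = 0) (pa1 : Ψ1 (h a) = 0) (pat : Ψt (h a) = 0)
    (pb : Ψ1 (h b) = 1) (hK : n ^ 2 ≤ K) (hKc : c.C ≤ K) (hH : ∀ x ∈ Icc a b, h x ≤ K)
    (hinv : ∀ x ∈ Icc a b, 1 ≤ K * (h x * et x)) (hlen : b - a ≤ K)
    (hC1 : (n - 2) * (h b * h3 b) + (n - 2) * (n - 1) * (h1 b * h2 b) ≤ K)
    (hR : 0 < R) (hκ : 0 < κ) (hε : 0 < ε) (hΓ0 : 0 ≤ Γ) (hD : 0 ≤ D)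
    (hΓ : ∀ x ∈ Icc a b, -l0 x ≤ 2 * R → h1 x ^ 2 ≤ Γ ∧ |h x * h2 x| ≤ Γ)
    (hq : LI a b (fun x => |F x / h x| ^ 2 * et x) ≤ ENNReal.ofReal D) :
    -((2 * κ * K ^ 2 + 3 * K ^ 3 / (R * ε)) * D +
      ((2 * κ * K ^ 2 * Γ + 3 * K ^ 3 * ε / R + K ^ 3 * Γ / R ^ 2) * (2 * R) + K ^ 3 / R * K)) ≤
      Dp c Ψ Ψ1 a b R h k l0 L0 + F b := by
  have := S.ch; have := S.ch1; have := S.cF; have := S.ck; have := S.cet; have := S.cl0
  have := S.cL0; have := c.c0; have := c.c1; have := c.c2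
  have := HΨ.c0; have := HΨ.c1; have := HΨ.c2
  have cΨt : Continuous Ψt := continuous_iff_continuousAt.2 fun x => (dΨt x).continuousAt
  have K1 : 1 ≤ K := c.C1.trans hKc
  have hn2 : 0 ≤ (n - 2) * (n - 1) := mul_nonneg (by linarith) (by linarith)
  have hn3 : (n - 2) * (n - 1) ≤ K := by nlinarith
  have hn4 : n - 2 ≤ K := by nlinarith
  set cn := (n - 2) * (n - 1) with hcn
  have hZ : ∀ x ∈ Icc a b, -L0 x ≤ K - (n - 2) * (h x * h3 x) - cn * (h1 x * h2 x) := by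
    intro x hx
    have := le_of_deriv_nonneg (G := fun z => (n - 2) * (et z * F z / h z) + cn * (h1 z * h2 z) - L0 z)
      (G' := fun z => cn * h2 z ^ 2) hx.2 ?_ ?_ (fun z _ => by positivity)
    · have e1 : et x * F x / h x = h x * h3 x := by
        rw [hF x hx]; have := S.pos x; field_simp
      have e2 : et b * F b / h b = h b * h3 b := by
        rw [hF b (right_mem_Icc.2 S.ab)]; have := S.pos b; field_simp
      simp only [e1, e2, hL0] at this
      linarith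
    · simp only [div_eq_mul_inv]
      fun_prop (disch := intro _ _; exact (S.pos _).ne')
    · intro z hz
      have hz' : z ∈ Ioo a b := ⟨hx.1.trans_lt hz.1, hz.2⟩
      have pz := S.pos z
      have := (((((S.det z hz').mul (S.dF z hz')).div (S.dh z hz') pz.ne').const_mul (n - 2)).add
        (((dh1 z hz').mul (dh2 z hz')).const_mul cn)).sub (S.dL0 z hz')
      refine HasDerivAt.congr_deriv (f := fun z => (n - 2) * (et z * F z / h z) +
        cn * (h1 z * h2 z) - L0 z) this ?_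
      have e : h3 z = et z * F z / h z ^ 2 := by
        rw [hF z (Ioo_subset_Icc_self hz')]; field_simp
      simp only [Pi.mul_apply, e, hcn]
      field_simp
      ring
  set g : ℝ → ℝ := fun x => F x * Ψ2 (h x) * h1 x * (1 - c.S (-l0 x / R - 1)) +
    (F x * Ψ1 (h x) * c.S1 (-l0 x / R - 1) * et x / R +
    (-(Ψ (h x) * c.S1 (-l0 x / R - 1) * K / R) +
    ((n - 2) * Ψ (h x) * c.S1 (-l0 x / R - 1) * (h x * h3 x) / R +
    (cn * Ψt (h x) * c.S2 (-l0 x / R - 1) * et x * h2 x / R ^ 2 +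
    -(cn * Ψt (h x) * c.S1 (-l0 x / R - 1) * h3 x / R))))) with hg
  have cg : Continuous g := by rw [hg]; fun_prop
  set g' : ℝ → ℝ := fun x => Ψ1 (h x) * k x * (1 - c.S (-l0 x / R - 1)) -
    Ψ (h x) * (c.S1 (-l0 x / R - 1) *
      ((K - (n - 2) * (h x * h3 x) - cn * (h1 x * h2 x)) / R)) with hg'
  have cg' : Continuous g' := by rw [hg']; fun_prop
  have key := intervalIntegral.integral_eq_sub_of_hasDerivAt_of_le S.ab
    (f := fun x => -(F x * Ψ1 (h x) * (1 - c.S (-l0 x / R - 1))) +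
      cn / R * (Ψt (h x) * c.S1 (-l0 x / R - 1) * h2 x))
    (f' := fun x => g' x - g x) (by fun_prop) ?_ ((cg'.sub cg).intervalIntegrable _ _)
  swap
  · intro x hx
    have dσ : HasDerivAt (fun x => -l0 x / R - 1) (-et x / R) x :=
      ((S.dl0 x hx).neg.div_const R).sub_const 1
    have dh := S.dh x hx
    have d3 := (c.d0 (-l0 x / R - 1)).comp x dσ
    have d4 := (c.d1 (-l0 x / R - 1)).comp x dσ
    have := ((((S.dF x hx).mul ((HΨ.d1 (h x)).comp x dh)).mul (d3.const_sub 1)).neg).add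
      ((((((dΨt (h x)).comp x dh)).mul d4).mul (dh2 x hx)).const_mul (cn / R))
    refine HasDerivAt.congr_deriv (f := fun x => -(F x * Ψ1 (h x) * (1 - c.S (-l0 x / R - 1))) +
      cn / R * (Ψt (h x) * c.S1 (-l0 x / R - 1) * h2 x)) this ?_
    simp only [hg, hg', Function.comp, Pi.mul_apply]
    field_simp
    ring
  have hσb : -l0 b / R - 1 ≤ 0 := by rw [hl0]; norm_num
  rw [intervalIntegral.integral_sub (cg'.intervalIntegrable _ _) (cg.intervalIntegrable _ _)] at key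
  simp only [pa1, pat, pb, c.zero _ hσb, c.s1z _ (Or.inl hσb)] at key
  have k1 : ∫ x in a..b, g' x ≤ Dp c Ψ Ψ1 a b R h k l0 L0 := by
    unfold Dp
    refine intervalIntegral.integral_mono_on S.ab (cg'.intervalIntegrable _ _)
      (Continuous.intervalIntegrable (by fun_prop) _ _) fun x hx => ?_
    simp only [hg']
    have := (p0 _ (S.pos x)).1
    have := c.s1nn (-l0 x / R - 1)
    gcongr
    exact hZ x hx
  have aj : LI a b (fun x => et x * ind (-l0 x ≤ 2 * R)) ≤ ENNReal.ofReal (2 * R) := by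
    refine LI_left (y := b) (g := et) (l := l0) (right_mem_Icc.2 S.ab) (by positivity) S.cet
      (fun y _ => (S.etp y).le) S.cl0 S.dl0 fun x hx => ?_
    by_cases hc : -l0 x ≤ 2 * R
    · right
      rw [ind_pos hc, hl0]
      exact ⟨hx.2, by linarith, by simp⟩
    · left; rw [ind_neg hc]; simp
  have cU : Continuous fun x => |F x / h x| := (S.cF.div S.ch fun x => (S.pos x).ne').abs
  have mj : Measurable fun x => ind (-l0 x ≤ 2 * R) :=
    measurable_ind (measurableSet_le (f := fun x => -l0 x) (by fun_prop) measurable_const)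
  have e1 := LI_cmul_le (c := 2 * κ * K ^ 2 + 3 * K ^ 3 / (R * ε)) (by positivity) hq
  have e2 := LI_cmul_le (c := 2 * κ * K ^ 2 * Γ + 3 * K ^ 3 * ε / R + K ^ 3 * Γ / R ^ 2)
    (by positivity) aj
  have e3 := (LI_const (a := a) (b := b) (d := K ^ 3 / R) (by positivity)).trans (ENNReal.ofReal_le_ofReal
    (mul_le_mul_of_nonneg_left hlen (by positivity)))
  have e4 := LI_add_le ((S.cet.measurable.mul mj).const_mul _) (by positivity) (by positivity) e2 e3
  have e5 := LI_add_le (by fun_prop) (by positivity) (by positivity) e1 e4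
  have e6 := (ofReal_abs_integral_le (g := g) S.ab).trans ((LI_mono fun x hx => ?_).trans e5)
  · rw [ENNReal.ofReal_le_ofReal_iff (by positivity)] at e6
    linarith [neg_abs_le (∫ x in a..b, g x)]
  have hx' := Ioc_subset_Icc_self hx
  have px := S.pos x; have ex := S.etp x
  simp only [Pi.mul_apply]
  by_cases hc : -l0 x ≤ 2 * R
  swap
  · have hσ : 1 ≤ -l0 x / R - 1 := by
      rw [le_sub_iff_add_le, le_div_iff₀ hR]; linarith [not_le.1 hc]
    simp only [hg, c.one _ hσ, c.s1z _ (Or.inr hσ), c.s2z _ (Or.inr hσ), ind_neg hc]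
    simp only [sub_self, mul_zero, zero_mul, zero_div, neg_zero, add_zero, abs_zero, zero_add]
    positivity
  rw [ind_pos hc]
  obtain ⟨q0, q1, q2, q3, q4, q5⟩ := p0 _ px
  obtain ⟨g1, g2⟩ := hΓ x hx' hc
  have hHx := hH x hx'
  have jx : 1 / et x ≤ K * h x := by rw [div_le_iff₀ ex]; linarith [hinv x hx']
  simp only [hg]
  set σ := -l0 x / R - 1
  have s0 : |1 - c.S σ| ≤ 1 := by
    rw [abs_le]; constructor <;> linarith [c.nn σ, c.le1 σ]
  have s1 : |c.S1 σ| ≤ K := by rw [abs_of_nonneg (c.s1nn σ)]; exact (c.b1 σ).trans hKc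
  have s2 : |c.S2 σ| ≤ K := (c.b2 σ).trans hKc
  set u := F x / h x with hu
  have hFx : F x = u * h x := by rw [hu]; field_simp
  have h3x : h3 x = u * et x / h x := by
    have := hF x hx'
    rw [hFx] at this
    field_simp
    have h5 : h x * (h3 x * h x) = h x * (u * et x) := by linarith
    exact mul_left_cancel₀ px.ne' h5
  set U := |u|
  have U0 : 0 ≤ U := abs_nonneg _
  have am := amgm (u := U) (c := 1) hε
  have t1 : |F x * Ψ2 (h x) * h1 x * (1 - c.S σ)| ≤ 2 * κ * K ^ 2 * (et x * (U ^ 2 + Γ)) := by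
    by_cases hv : 2 * κ < h x
    · rw [p1 _ hv]; simp only [mul_zero, zero_mul, abs_zero]; positivity
    push Not at hv
    have e : F x * Ψ2 (h x) * h1 x * (1 - c.S σ) =
      (u * h1 x) * (h x * Ψ2 (h x)) * (1 - c.S σ) * (1 / et x) * et x := by
      rw [hFx]; field_simp
    have b1 : |u * h1 x| ≤ U ^ 2 + Γ := by
      rw [abs_mul]
      nlinarith [sq_nonneg (U - |h1 x|), sq_abs (h1 x), abs_nonneg (h1 x)]
    rw [e, abs_mul, abs_mul, abs_mul, abs_mul, abs_of_pos ex,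
      abs_of_pos (a := 1 / et x) (by positivity)]
    calc _ ≤ (U ^ 2 + Γ) * K * 1 * (K * (2 * κ)) * et x := by
          gcongr
          exact jx.trans (by gcongr)
      _ = _ := by ring
  have t2 : |F x * Ψ1 (h x) * c.S1 σ * et x / R| ≤ K ^ 3 / R * (et x * U) := by
    rw [hFx, abs_div, abs_mul, abs_mul, abs_mul, abs_mul, abs_of_pos ex, abs_of_pos px,
      abs_of_pos hR]
    calc _ ≤ U * K * K * K * et x / R := by gcongr
      _ = _ := by ring
  have t3 : |-(Ψ (h x) * c.S1 σ * K / R)| ≤ K ^ 3 / R := by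
    rw [abs_neg, abs_div, abs_mul, abs_mul, abs_of_nonneg q0, abs_of_pos hR,
      abs_of_nonneg (a := K) (by linarith)]
    calc _ ≤ K * K * K / R := by gcongr; exact q1.trans hHx
      _ = _ := by ring
  have t4 : |(n - 2) * Ψ (h x) * c.S1 σ * (h x * h3 x) / R| ≤ K ^ 3 / R * (et x * U) := by
    have e : h x * h3 x = u * et x := by rw [h3x]; field_simp
    rw [e, abs_div, abs_mul, abs_mul, abs_mul, abs_mul, abs_of_pos ex, abs_of_nonneg q0,
      abs_of_pos hR, abs_of_nonneg (a := n - 2) (by linarith)]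
    calc _ ≤ K * K * K * (U * et x) / R := by gcongr; exact q1.trans hHx
      _ = _ := by ring
  have t5 : |cn * Ψt (h x) * c.S2 σ * et x * h2 x / R ^ 2| ≤ K ^ 3 * Γ / R ^ 2 * et x := by
    have b1 : Ψt (h x) * |h2 x| ≤ K * Γ := by
      rw [abs_mul, abs_of_pos px] at g2
      calc _ ≤ h x ^ 2 * |h2 x| := by gcongr
        _ = h x * (h x * |h2 x|) := by ring
        _ ≤ _ := by gcongr
    rw [abs_div, abs_mul, abs_mul, abs_mul, abs_mul, abs_of_pos ex, abs_of_nonneg q4,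
      abs_of_nonneg hn2, abs_of_pos (a := R ^ 2) (by positivity)]
    calc _ = cn * |c.S2 σ| * (Ψt (h x) * |h2 x|) * et x / R ^ 2 := by ring
      _ ≤ K * K * (K * Γ) * et x / R ^ 2 := by gcongr
      _ = _ := by ring
  have t6 : |-(cn * Ψt (h x) * c.S1 σ * h3 x / R)| ≤ K ^ 3 / R * (et x * U) := by
    have b1 : Ψt (h x) * |h3 x| ≤ K * (U * et x) := by
      rw [h3x, abs_div, abs_mul, abs_of_pos px, abs_of_pos ex]
      calc _ ≤ h x ^ 2 * (U * et x / h x) := by gcongr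
        _ = h x * (U * et x) := by field_simp
        _ ≤ _ := by gcongr
    rw [abs_neg, abs_div, abs_mul, abs_mul, abs_mul, abs_of_nonneg q4,
      abs_of_nonneg hn2, abs_of_pos hR]
    calc _ = cn * |c.S1 σ| * (Ψt (h x) * |h3 x|) / R := by ring
      _ ≤ K * K * (K * (U * et x)) / R := by gcongr
      _ = _ := by ring
  refine (abs_add_le _ _).trans ((add_le_add t1 ((abs_add_le _ _).trans (add_le_add t2
    ((abs_add_le _ _).trans (add_le_add t3 ((abs_add_le _ _).trans (add_le_add t4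
    ((abs_add_le _ _).trans (add_le_add t5 t6))))))))).trans ?_)
  have b2 := mul_le_mul_of_nonneg_left am (show 0 ≤ 3 * (K ^ 3 / R * et x) by positivity)
  have e7 : 3 * K ^ 3 / (R * ε) * (U ^ 2 * et x) = 3 * (K ^ 3 / R * et x) * (U ^ 2 / ε) := by
    field_simp
  have e8 : 3 * K ^ 3 * ε / R * et x = 3 * (K ^ 3 / R * et x) * ε := by ring
  nlinarith

end Pool.Agent.TF
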